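import Pool.Agent.Helper48.PW.Defs

/-!
# PW: Zariski density (adapted from helper58, WT/Dense.lean)
-/

set_option autoImplicit false

namespace Pool.Agent.Helper48.PW

open Polynomial Pool.Agent.Helper48.GC8

variable {L : Type} [Fintype L] [DecidableEq L] {G : Grp L} {ι : Type} [Fintype ι] [DecidableEq ι]

theorem stab_of_dense {𝓕 : Set (ℕ × Matrix L L ℂ)}
    (hdense : ∀ f : MvPolynomial (Option (L × L)) ℂ,
      (∀ z ∈ 𝓕, MvPolynomial.eval (fun o => o.elim (z.1 : ℂ) (fun k => z.2 k.1 k.2)) f = 0) →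
      ∀ (c : ℂ) (M : Matrix L L ℂ), G c M →
        MvPolynomial.eval (fun o => o.elim c (fun k => M k.1 k.2)) f = 0)
    {U : Submodule ℂ (Ten ι L)}
    (hU : ∀ z ∈ 𝓕, ∀ u ∈ U, rho Finset.univ z.2 u ∈ U) : Stab G U := by
  classical
  intro c M hcM u hu
  by_contra hcon
  obtain ⟨f, hf, hfU⟩ := Submodule.exists_dual_map_eq_bot_of_notMem hcon inferInstance
  let F : MvPolynomial (Option (L × L)) ℂ :=
    ∑ x : ι → L, MvPolynomial.C (f (Pi.single x 1)) *
      ∑ y : ι → L, (∏ k, MvPolynomial.X (some (x k, y k))) * MvPolynomial.C (u y)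
  have hF : ∀ (c : ℂ) (M : Matrix L L ℂ),
      MvPolynomial.eval (fun o => o.elim c (fun k => M k.1 k.2)) F =
        f (rho Finset.univ M u) := by
    intro c M
    have h1 : rho Finset.univ M u =
        ∑ x : ι → L, (rho Finset.univ M u x) • (Pi.single x (1 : ℂ) : Ten ι L) := by
      funext y
      simp [Finset.sum_apply, Pi.single_apply]
    rw [h1, map_sum]
    simp only [F, map_sum, map_mul, map_prod, MvPolynomial.eval_C, MvPolynomial.eval_X, map_smul,
      smul_eq_mul, rho_apply, Finset.mem_univ, if_true, Option.elim_some]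
    exact Finset.sum_congr rfl fun x _ => mul_comm _ _
  have h1 := hdense F (fun z hz => by
    rw [hF]
    have h2 : f (rho Finset.univ z.2 u) ∈ U.map f :=
      Submodule.mem_map_of_mem (hU z hz u hu)
    rw [hfU] at h2
    exact (Submodule.mem_bot ℂ).1 h2) c M hcM
  rw [hF] at h1
  exact hf h1

end Pool.Agent.Helper48.PW
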