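import Pool.Agent.Helper48.PW.Kind
import Pool.Agent.Helper48.GC8.Arith

/-!
# PW-ORD: integers prime to `q` force ordinarity

`int_mem`. PROOF. If `(n : 𝒪) ∈ P` and `q ∤ n` then `1 = a q + b n ∈ P` (`wa40_int` in
Helper48/WT/Auto.lean).

`ord_surface`. `T` = the letters of a factor, `|T| = 2d`, `sw` = the exchange of `e_i` and `f_i`,
`δ t * δ (sw t) = q`. PROOF. `n = (-1)^d ∑_{|t| = d} ∏ δ` (`coeff_prod` in Helper48/GC8/Arith.lean),
`q ∤ n`; by `units_of_coeff` (`IsCoprime n q`) there is `T' ⊆ T` with `d` elements and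
`δ t ∉ P` for `t ∈ T'`. `T'` and its image under `sw` are disjoint (`δ t * δ (sw t) = q ∈ P`), so
together they are everything (`2d` elements): for every `t`, `t ∈ T'` or `sw t ∈ T'`.

`ord_fourfold`. PROOF. See `units_auto` in Helper48/WT/Auto.lean: `n = ∑_{i<j} δ_i δ_j ∉ P`, so some
`δ_i δ_j ∉ P` (`i ≠ j`) and for the other two indices `δ_i δ_j = δ'_k δ'_m` (`δ_i δ_j δ_k δ_m = q²`,
`δ_k δ'_k = q`), so `δ'_k, δ'_m ∉ P`.
-/

set_option autoImplicit false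

namespace Pool.Agent.Helper48.PW

open Polynomial Pool.Agent.Helper48.GC8

theorem int_mem {P : Ideal (integralClosure ℤ ℂ)} (hP : P.IsPrime) {q : ℕ} (hq : q.Prime)
    (hqP : (q : integralClosure ℤ ℂ) ∈ P) {n : ℤ} (hn : (n : integralClosure ℤ ℂ) ∈ P) :
    (q : ℤ) ∣ n := by
  by_contra hcon
  have h1 : IsCoprime (q : ℤ) n :=
    (Nat.prime_iff_prime_int.1 hq).coprime_iff_not_dvd.2 hcon
  obtain ⟨a, b, hab⟩ := h1
  apply hP.ne_top
  rw [Ideal.eq_top_iff_one]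
  have h2 : (a : integralClosure ℤ ℂ) * (q : integralClosure ℤ ℂ) +
      (b : integralClosure ℤ ℂ) * (n : integralClosure ℤ ℂ) = 1 := by
    have := congrArg (Int.cast : ℤ → integralClosure ℤ ℂ) hab
    push_cast at this
    exact this
  rw [← h2]
  exact P.add_mem (P.mul_mem_left _ hqP) (P.mul_mem_left _ hn)

/-- A coefficient which is not divisible by `q` gives elements outside of `P`. -/
private lemma exists_units {T : Type} [Fintype T] [DecidableEq T] {d : ℕ}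
    (hT : Fintype.card T = 2 * d) (δ : T → integralClosure ℤ ℂ) {q : ℕ} (hq : q.Prime)
    {P : Ideal (integralClosure ℤ ℂ)} (hP : P.IsPrime) (hqP : (q : integralClosure ℤ ℂ) ∈ P)
    {n : ℤ} (hn : (∏ t, (X - C (δ t : ℂ))).coeff d = (n : ℂ)) (hqn : ¬ (q : ℤ) ∣ n) :
    ∃ T' : Finset T, T'.card = d ∧ ∀ a ∈ T', δ a ∉ P := by
  have h1 := coeff_prod (fun t => (δ t : ℂ)) (k := d) (by omega)
  have h2 : Fintype.card T - d = d := by omega
  rw [h2, hn] at h1
  have h3 : IsCoprime n (q : ℤ) :=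
    ((Nat.prime_iff_prime_int.1 hq).coprime_iff_not_dvd.2 hqn).symm
  obtain ⟨T', hT', h4⟩ := units_of_coeff (lam := fun t => (δ t : ℂ)) (fun a => (δ a).2) hP hqP h1 h3
  exact ⟨T', hT', fun a ha => h4 a ha⟩

theorem ord_surface {T : Type} [Fintype T] [DecidableEq T] {d : ℕ} (hT : Fintype.card T = 2 * d)
    (sw : Equiv.Perm T) (hsw : ∀ t, sw (sw t) = t) (δ : T → integralClosure ℤ ℂ) {q : ℕ}
    (hq : q.Prime) (hmul : ∀ t, δ t * δ (sw t) = (q : integralClosure ℤ ℂ))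
    {P : Ideal (integralClosure ℤ ℂ)} (hP : P.IsPrime) (hqP : (q : integralClosure ℤ ℂ) ∈ P)
    {n : ℤ} (hn : (∏ t, (X - C (δ t : ℂ))).coeff d = (n : ℂ)) (hqn : ¬ (q : ℤ) ∣ n) (t : T) :
    δ t ∉ P ∨ δ (sw t) ∉ P := by
  obtain ⟨T', hT', h1⟩ := exists_units hT δ hq hP hqP hn hqn
  have hdis : Disjoint T' (T'.map sw.toEmbedding) := by
    rw [Finset.disjoint_left]
    intro a ha ha'
    obtain ⟨b, hb, rfl⟩ := Finset.mem_map.1 ha'
    have h2 : δ b * δ (sw b) ∈ P := by rw [hmul b]; exact hqP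
    rcases hP.mem_or_mem h2 with h3 | h3
    · exact h1 b hb h3
    · exact h1 _ ha h3
  have huniv : T' ∪ T'.map sw.toEmbedding = Finset.univ := by
    apply Finset.eq_univ_of_card
    rw [Finset.card_union_of_disjoint hdis, Finset.card_map, hT', hT]
    ring
  have ht : t ∈ T' ∪ T'.map sw.toEmbedding := by rw [huniv]; exact Finset.mem_univ t
  rcases Finset.mem_union.1 ht with h | h
  · exact Or.inl (h1 t h)
  · obtain ⟨b, hb, hbt⟩ := Finset.mem_map.1 h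
    right
    have h2 : sw t = b := by
      rw [← hbt]
      exact hsw b
    rw [h2]
    exact h1 b hb

theorem ord_fourfold (δ δ' : Fin 4 → integralClosure ℤ ℂ) {q : ℕ} (hq : q.Prime)
    (hmul : ∀ i, δ i * δ' i = (q : integralClosure ℤ ℂ))
    (hprod : ∏ i, δ i = (q : integralClosure ℤ ℂ) ^ 2)
    {P : Ideal (integralClosure ℤ ℂ)} (hP : P.IsPrime) (hqP : (q : integralClosure ℤ ℂ) ∈ P)
    {n : ℤ} (hn : (∏ i, (X - C (δ i : ℂ))).coeff 2 = (n : ℂ)) (hqn : ¬ (q : ℤ) ∣ n) (i : Fin 4) :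
    δ i ∉ P ∨ δ' i ∉ P := by
  obtain ⟨T', hT', h1⟩ := exists_units (d := 2) (by simp) δ hq hP hqP hn hqn
  by_cases hi : i ∈ T'
  · exact Or.inl (h1 i hi)
  right
  intro hi'
  have hq0 : (q : integralClosure ℤ ℂ) ≠ 0 := by
    intro h
    have h2 := congrArg (fun x : integralClosure ℤ ℂ => (x : ℂ)) h
    push_cast at h2
    exact hq.ne_zero (by exact_mod_cast h2)
  have hc : T'ᶜ.card = 2 := by
    rw [Finset.card_compl, hT', Fintype.card_fin]
  have h2 : (∏ a ∈ T', δ a) * (∏ a ∈ T'ᶜ, δ a) = (q : integralClosure ℤ ℂ) ^ 2 := by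
    rw [Finset.prod_mul_prod_compl, hprod]
  have h3 : (∏ a ∈ T'ᶜ, δ' a) * (∏ a ∈ T'ᶜ, δ a) = (q : integralClosure ℤ ℂ) ^ 2 := by
    rw [← Finset.prod_mul_distrib, ← hc, ← Finset.prod_const]
    exact Finset.prod_congr rfl fun a _ => by rw [mul_comm]; exact hmul a
  have h4 : (∏ a ∈ T'ᶜ, δ a) ≠ 0 := by
    intro h
    rw [h, mul_zero] at h2
    exact pow_ne_zero 2 hq0 h2.symm
  have h5 : (∏ a ∈ T', δ a) = ∏ a ∈ T'ᶜ, δ' a := mul_right_cancel₀ h4 (h2.trans h3.symm)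
  have h6 : (∏ a ∈ T'ᶜ, δ' a) ∈ P := by
    rw [← Finset.mul_prod_erase _ _ (Finset.mem_compl.2 hi)]
    exact P.mul_mem_right _ hi'
  rw [← h5, hP.prod_mem_iff] at h6
  obtain ⟨a, ha, h7⟩ := h6
  exact h1 a ha h7

end Pool.Agent.Helper48.PW
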