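import Pool.Agent.Helper48.PW.Defs
import Pool.Agent.Helper48.GC8.Arith

/-!
# PW-VAL: middle coefficients: a bound and the value at the test matrix

`coeff_bound`. PROOF. `coeff_prod` (Helper48/GC8/Arith.lean) with `k = d`, `|T| - d = d`: the
coefficient is `± ∑` over the `d`-subsets `t` of `∏ δ`, each of absolute value `√q ^ d ≤ q`, and
there are `C(2d, d) ≤ 6` of them (`C(2, 1) = 2`, `C(4, 2) = 6`).

`val_ne`. PROOF. `∏ (X - w t) = (X - 10) ^ d * (X - 1/10) ^ d` (group the factors by the value of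
`w`; all of `T` is covered as `|T| = 2d`). `d = 1`: the coefficient of `T` is `-10.1`; `d = 2`: the
one of `T²` is `100 + 1/100 + 4 = 104.01`. Neither is an integer of absolute value `≤ 6`.
-/

set_option autoImplicit false

namespace Pool.Agent.Helper48.PW

open Polynomial Pool.Agent.Helper48.GC8

theorem coeff_bound {T : Type} [Fintype T] [DecidableEq T] {d : ℕ} (hd1 : 1 ≤ d) (hd2 : d ≤ 2)
    (hT : Fintype.card T = 2 * d) (δ : T → ℂ) {q : ℕ} (hq : 2 ≤ q)
    (hδ : ∀ t, ‖δ t‖ = Real.sqrt q) : ‖(∏ t, (X - C (δ t))).coeff d‖ ≤ 6 * q := by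
  have h0 : Fintype.card T - d = d := by omega
  have h1 := coeff_prod δ (k := d) (by omega)
  rw [h0] at h1
  have hq0 : (0 : ℝ) ≤ q := Nat.cast_nonneg q
  have h3 : (1 : ℝ) ≤ Real.sqrt q := by
    rw [Real.one_le_sqrt]
    exact_mod_cast (by omega : 1 ≤ q)
  rw [h1, norm_mul, norm_pow, norm_neg, norm_one, one_pow, one_mul]
  calc ‖∑ t ∈ Finset.powersetCard d (Finset.univ : Finset T), ∏ a ∈ t, δ a‖
      ≤ ∑ t ∈ Finset.powersetCard d (Finset.univ : Finset T), ‖∏ a ∈ t, δ a‖ := norm_sum_le _ _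
    _ ≤ ∑ t ∈ Finset.powersetCard d (Finset.univ : Finset T), (q : ℝ) := by
        refine Finset.sum_le_sum fun t ht => ?_
        rw [norm_prod, Finset.prod_congr rfl fun a _ => hδ a, Finset.prod_const,
          (Finset.mem_powersetCard.1 ht).2]
        calc Real.sqrt q ^ d ≤ Real.sqrt q ^ 2 := pow_le_pow_right₀ h3 hd2
          _ = q := Real.sq_sqrt hq0
    _ = (2 * d).choose d * q := by
        rw [Finset.sum_const, Finset.card_powersetCard, Finset.card_univ, hT, nsmul_eq_mul]
    _ ≤ 6 * q := by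
        refine mul_le_mul_of_nonneg_right ?_ hq0
        have : (2 * d).choose d ≤ 6 := by
          interval_cases d
          · decide
          · decide
        exact_mod_cast this

theorem val_ne {T : Type} [Fintype T] [DecidableEq T] {d : ℕ} (hd1 : 1 ≤ d) (hd2 : d ≤ 2)
    (hT : Fintype.card T = 2 * d) (w : T → ℂ)
    (hw : (Finset.univ.filter (fun t => w t = 10)).card = d)
    (hw' : (Finset.univ.filter (fun t => w t = 1 / 10)).card = d) {m : ℤ} (hm : |m| ≤ 6) :
    (∏ t, (X - C (w t))).coeff d ≠ (m : ℂ) := by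
  classical
  have hdisj : Disjoint (Finset.univ.filter (fun t => w t = 10))
      (Finset.univ.filter (fun t => w t = 1 / 10)) := by
    rw [Finset.disjoint_left]
    intro t h1 h2
    rw [Finset.mem_filter] at h1 h2
    rw [h1.2] at h2
    exact absurd h2.2 (by norm_num)
  have hunion : (Finset.univ.filter (fun t => w t = 10)) ∪
      (Finset.univ.filter (fun t => w t = 1 / 10)) = Finset.univ := by
    refine Finset.eq_univ_of_card _ ?_
    rw [Finset.card_union_of_disjoint hdisj, hw, hw', hT]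
    ring
  have hprod : (∏ t, (X - C (w t))) = (X - C 10) ^ d * (X - C (1 / 10)) ^ d := by
    rw [← hunion, Finset.prod_union hdisj]
    congr 1
    · rw [Finset.prod_congr rfl (g := fun _ => X - C (10 : ℂ)) (fun t ht => by
        rw [(Finset.mem_filter.1 ht).2]), Finset.prod_const, hw]
    · rw [Finset.prod_congr rfl (g := fun _ => X - C (1 / 10 : ℂ)) (fun t ht => by
        rw [(Finset.mem_filter.1 ht).2]), Finset.prod_const, hw']
  rw [hprod]
  have hd : d = 1 ∨ d = 2 := by omega
  rcases hd with rfl | rfl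
  · have h1 : ((X - C 10) ^ 1 * (X - C (1 / 10)) ^ 1 : ℂ[X]) =
        X ^ 2 + C (-(101 / 10)) * X + C 1 := by
      have e1 : (C (-(101 / 10)) : ℂ[X]) = - C 10 - C (1 / 10) := by
        rw [← C_neg, ← C_sub]
        congr 1
        norm_num
      have e2 : (C 1 : ℂ[X]) = C 10 * C (1 / 10) := by
        rw [← C_mul]
        congr 1
        norm_num
      rw [e1, e2]
      ring
    rw [h1]
    have h2 : (X ^ 2 + C (-(101 / 10)) * X + C 1 : ℂ[X]).coeff 1 = -(101 / 10) := by
      rw [coeff_add, coeff_add, coeff_C_mul, coeff_X_one, coeff_X_pow, coeff_C]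
      norm_num
    rw [h2]
    intro h3
    have h4 : (10 * m : ℤ) = -101 := by
      have : ((10 * m : ℤ) : ℂ) = ((-101 : ℤ) : ℂ) := by
        push_cast
        rw [← h3]
        norm_num
      exact_mod_cast this
    omega
  · have h1 : ((X - C 10) ^ 2 * (X - C (1 / 10)) ^ 2 : ℂ[X]) =
        X ^ 4 + C (-(101 / 5)) * X ^ 3 + C (10401 / 100) * X ^ 2 + C (-(101 / 5)) * X + C 1 := by
      have e1 : (C (-(101 / 5)) : ℂ[X]) = - 2 * C 10 - 2 * C (1 / 10) := by
        have : (2 : ℂ[X]) = C 2 := (map_ofNat C 2).symm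
        rw [this, ← C_neg, ← C_mul, ← C_mul, ← C_sub]
        congr 1
        norm_num
      have e2 : (C 1 : ℂ[X]) = C 10 * C (1 / 10) := by
        rw [← C_mul]
        congr 1
        norm_num
      have e3 : (C (10401 / 100) : ℂ[X]) = C 10 ^ 2 + C (1 / 10) ^ 2 + 4 * (C 10 * C (1 / 10)) := by
        have : (4 : ℂ[X]) = C 4 := (map_ofNat C 4).symm
        rw [this, ← C_pow, ← C_pow, ← C_mul, ← C_mul, ← C_add, ← C_add]
        congr 1
        norm_num
      have e4 : (C 10 * C (1 / 10) : ℂ[X]) = 1 := by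
        rw [← C_mul]
        norm_num
      have e5 : (C 1 : ℂ[X]) = 1 := C_1
      rw [e1, e3, e5]
      linear_combination (-2 * X * C 10 - 2 * X * C (1 / 10) + C 10 * C (1 / 10) + 1) * e4
    rw [h1]
    have h2 : (X ^ 4 + C (-(101 / 5)) * X ^ 3 + C (10401 / 100) * X ^ 2 + C (-(101 / 5)) * X + C 1 :
        ℂ[X]).coeff 2 = 10401 / 100 := by
      rw [coeff_add, coeff_add, coeff_add, coeff_add, coeff_C_mul, coeff_C_mul, coeff_C_mul, coeff_X,
        coeff_X_pow, coeff_X_pow, coeff_X_pow, coeff_C]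
      norm_num
    rw [h2]
    intro h3
    have h4 : (100 * m : ℤ) = 10401 := by
      have : ((100 * m : ℤ) : ℂ) = ((10401 : ℤ) : ℂ) := by
        push_cast
        rw [← h3]
        norm_num
      exact_mod_cast this
    omega

end Pool.Agent.Helper48.PW
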