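import Pool.Agent.Helper48.PW.Kind

/-!
# PW-CM: the factors with complex multiplication (two letters `e = inl 0`, `f = inr 0`)

`isGrp_cm`. PROOF. `t • 1 = diag(t, t² / t)`; the conjugate transpose of `diag(x, c / x)` is
`diag(star x, star c / star x)`.

`wp_cm`. PROOF. Take `u ∈ U`, `u ≠ 0`, and a word `y` with `u y ≠ 0`. Suppose that `y` has both
letters, `s ≥ 1` times `e` and `n - s ≥ 1` times `f`, `n = |ι| ≥ 2`. Let `w : Fin (n - 2) → L2 1`
be a word with `s - 1` times `e` and `n - s - 1` times `f` and `φ u = u y • (indicator of w)`.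
`φ` is `CoEqui`: `rho (diag(x, c/x))` multiplies the coordinate `y` by `x^s (c/x)^(n-s)`
(`rho_diag`), `φ (rho u) = x^s (c/x)^(n-s) u y • w` and
`c • rho (φ u) = c x^(s-1) (c/x)^(n-s-1) u y • w`, and `x * (c/x) = c`. So `u y = 0`,
contradiction. Hence all letters of `y` are equal, `S = pt univ` or `S = pt ∅`.

`eig_cm`, `frame_cm`. PROOF. `M = diag(x, q / x)`, `h = h' = 1`, `δ e = x`, `δ f = q / x`,
algebraic integers by `hF.integral` (`x` is a root of the characteristic polynomial,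
`Matrix.charpoly_diagonal`), `δ e * δ f = q`, and the torus conditions are the definition. For
`frame_cm` the letters of `pt s` are the single letter `if 0 ∈ s then e else f`, which is outside
of `P` by `hu`.
-/

set_option autoImplicit false

namespace Pool.Agent.Helper48.PW

open Polynomial Pool.Agent.Helper48.GC8

theorem isGrp_cm : IsGrp inCm := by
  refine ⟨fun c M h => h.1, ?_, ?_⟩
  · rintro c M ⟨hc, x, hx, rfl⟩
    refine ⟨star_ne_zero.2 hc, star x, star_ne_zero.2 hx, ?_⟩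
    rw [Matrix.diagonal_conjTranspose]
    congr 1
    funext l
    rcases l with i | i
    · rfl
    · exact star_div₀ c x
  · intro t ht
    refine ⟨pow_ne_zero 2 ht, t, ht, ?_⟩
    have h1 : t ^ 2 / t = t := by
      field_simp
    rw [h1]
    ext i j
    rcases i with i | i <;> rcases j with j | j <;> simp [Matrix.diagonal_apply, Matrix.one_apply]

private lemma co_equi_aux {ι : Type} [Fintype ι] [DecidableEq ι] {y : ι → L2 1} {a b : ι}
    (ha : y a = Sum.inl 0) (hb : y b = Sum.inr 0)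
    (e : {k : ι // k ≠ a ∧ k ≠ b} ≃ Fin (Fintype.card ι - 2)) {c x : ℂ} (hx : x ≠ 0) :
    ∏ k, Sum.elim (fun _ : Fin 1 => x) (fun _ : Fin 1 => c / x) (y k) =
      c * ∏ j, Sum.elim (fun _ : Fin 1 => x) (fun _ : Fin 1 => c / x) (y (e.symm j).1) := by
  have hab : a ≠ b := by
    rintro rfl
    rw [ha] at hb
    exact absurd hb (by simp)
  have h1 : ∏ j, Sum.elim (fun _ : Fin 1 => x) (fun _ : Fin 1 => c / x) (y (e.symm j).1) =
      ∏ k : {k : ι // k ≠ a ∧ k ≠ b}, Sum.elim (fun _ : Fin 1 => x) (fun _ : Fin 1 => c / x) (y k.1) :=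
    Fintype.prod_equiv e.symm _ _ fun j => rfl
  rw [h1]
  have h2 : ∏ k : {k : ι // k ≠ a ∧ k ≠ b}, Sum.elim (fun _ : Fin 1 => x) (fun _ : Fin 1 => c / x) (y k.1) =
      ∏ k ∈ (Finset.univ.erase a).erase b, Sum.elim (fun _ : Fin 1 => x) (fun _ : Fin 1 => c / x) (y k) := by
    rw [← Finset.prod_subtype ((Finset.univ.erase a).erase b)
      (p := fun k => k ≠ a ∧ k ≠ b) (f := fun k => Sum.elim (fun _ : Fin 1 => x) (fun _ : Fin 1 => c / x) (y k))]
    intro k
    simp only [Finset.mem_erase, Finset.mem_univ, and_true]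
    tauto
  rw [h2, ← Finset.mul_prod_erase Finset.univ _ (Finset.mem_univ a),
    ← Finset.mul_prod_erase (Finset.univ.erase a) _
      (Finset.mem_erase.2 ⟨hab.symm, Finset.mem_univ b⟩), ← mul_assoc, ha, hb]
  congr 1
  simp only [Sum.elim_inl, Sum.elim_inr]
  field_simp

theorem wp_cm : WP inCm {S | ∃ s : Finset (Fin 1), S = pt s} := by
  intro ι _ _ U hU hne hK
  obtain ⟨u, hu, hu0⟩ := (Submodule.ne_bot_iff U).1 hne
  obtain ⟨y, hy⟩ : ∃ y, u y ≠ 0 := by
    by_contra h
    push Not at h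
    exact hu0 (funext h)
  by_cases h1 : ∀ a, ∃ i, y a = Sum.inl i
  · refine ⟨_, ⟨Finset.univ, rfl⟩, u, hu, y, hy, fun a => ?_⟩
    obtain ⟨i, hi⟩ := h1 a
    rw [hi]
    exact Finset.mem_univ i
  by_cases h2 : ∀ a, ∃ i, y a = Sum.inr i
  · refine ⟨_, ⟨∅, rfl⟩, u, hu, y, hy, fun a => ?_⟩
    obtain ⟨i, hi⟩ := h2 a
    rw [hi]
    exact Finset.notMem_empty i
  exfalso
  push Not at h1 h2
  obtain ⟨b, hb⟩ := h1
  obtain ⟨a, ha⟩ := h2
  have ha' : y a = Sum.inl 0 := by
    rcases h : y a with i | i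
    · rw [Subsingleton.elim i 0]
    · exact absurd h (ha i)
  have hb' : y b = Sum.inr 0 := by
    rcases h : y b with i | i
    · exact absurd h (hb i)
    · rw [Subsingleton.elim i 0]
  have hab : a ≠ b := by
    rintro rfl
    rw [ha'] at hb'
    exact absurd hb' (by simp)
  have hcard : Fintype.card {k : ι // k ≠ a ∧ k ≠ b} = Fintype.card ι - 2 := by
    rw [Fintype.card_subtype]
    have h3 : Finset.univ.filter (fun k => k ≠ a ∧ k ≠ b) = (Finset.univ.erase a).erase b := by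
      ext k
      simp only [Finset.mem_erase, Finset.mem_univ, and_true, Finset.mem_filter, true_and]
      tauto
    rw [h3, Finset.card_erase_of_mem (Finset.mem_erase.2 ⟨hab.symm, Finset.mem_univ b⟩),
      Finset.card_erase_of_mem (Finset.mem_univ a), Finset.card_univ]
    omega
  have e : {k : ι // k ≠ a ∧ k ≠ b} ≃ Fin (Fintype.card ι - 2) := Fintype.equivFinOfCardEq hcard
  let w : Fin (Fintype.card ι - 2) → L2 1 := fun j => y (e.symm j).1
  let φ : Ten ι (L2 1) →ₗ[ℂ] Ten (Fin (Fintype.card ι - 2)) (L2 1) :=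
    { toFun := fun v => v y • Pi.single w (1 : ℂ)
      map_add' := fun v v' => by rw [Pi.add_apply, add_smul]
      map_smul' := fun t v => by rw [Pi.smul_apply, smul_assoc, RingHom.id_apply] }
  have hφ : CoEqui inCm φ := by
    rintro c M ⟨hc, x, hx, rfl⟩ v
    funext z
    change (rho Finset.univ _ v y • (Pi.single w (1 : ℂ) : Ten (Fin (Fintype.card ι - 2)) (L2 1))) z =
      c * rho Finset.univ _ (v y • (Pi.single w (1 : ℂ) : Ten (Fin (Fintype.card ι - 2)) (L2 1))) z
    rw [rho_diag, rho_diag, Pi.smul_apply, Pi.smul_apply, smul_eq_mul, smul_eq_mul,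
      co_equi_aux ha' hb' e hx]
    by_cases hz : z = w
    · subst hz
      rw [Pi.single_eq_same]
      ring
    · rw [Pi.single_eq_of_ne hz]
      ring
  have h3 := congrFun (hK u hu φ hφ) w
  change u y * (Pi.single w (1 : ℂ) : Ten (Fin (Fintype.card ι - 2)) (L2 1)) w = 0 at h3
  rw [Pi.single_eq_same, mul_one] at h3
  exact hy h3

theorem eig_cm {q : ℕ} {M : Matrix (L2 1) (L2 1) ℂ} (hM : inCm (q : ℂ) M) (hF : IsFrob q M) :
    ∃ (h h' : Matrix (L2 1) (L2 1) ℂ) (δ : L2 1 → integralClosure ℤ ℂ),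
      Eig .cm q M h h' δ := by
  obtain ⟨hq, x, hx, rfl⟩ := hM
  have hroot : (Matrix.diagonal (Sum.elim (fun _ : Fin 1 => x) (fun _ : Fin 1 => (q : ℂ) / x))).charpoly.IsRoot x := by
    rw [Matrix.charpoly_diagonal, Polynomial.IsRoot.def, Polynomial.eval_prod]
    refine Finset.prod_eq_zero (Finset.mem_univ (Sum.inl 0)) ?_
    simp
  obtain ⟨h1, h2⟩ := hF.integral x hroot
  refine ⟨1, 1, Sum.elim (fun _ => ⟨x, h1⟩) (fun _ => ⟨(q : ℂ) / x, h2⟩), ?_, one_mul 1, ?_, ?_, ?_, ?_⟩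
  · refine ⟨one_ne_zero, 1, one_ne_zero, ?_⟩
    ext i j
    rcases i with i | i <;> rcases j with j | j <;> simp [Matrix.diagonal_apply, Matrix.one_apply]
  · rw [mul_one, one_mul]
    congr 1
    funext l
    rcases l with i | i <;> rfl
  · intro i
    apply Subtype.ext
    simp only [Sum.elim_inl, Sum.elim_inr]
    change x * ((q : ℂ) / x) = ((q : integralClosure ℤ ℂ) : ℂ)
    rw [mul_div_cancel₀ _ hx]
    simp
  · intro i _
    rw [Matrix.diagonal_apply_eq]
    rfl
  · intro i _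
    rw [Matrix.diagonal_apply_eq]
    rfl

theorem frame_cm {q : ℕ} {M : Matrix (L2 1) (L2 1) ℂ} (hM : inCm (q : ℂ) M) (hF : IsFrob q M)
    {P : Ideal (integralClosure ℤ ℂ)} (s : Finset (Fin 1))
    (hu : ∀ i : Fin 1, ∀ x ∈ P, (x : ℂ) ≠
      M (if i ∈ s then Sum.inl i else Sum.inr i) (if i ∈ s then Sum.inl i else Sum.inr i)) :
    ∃ (h h' : Matrix (L2 1) (L2 1) ℂ) (δ : L2 1 → integralClosure ℤ ℂ),
      Eig .cm q M h h' δ ∧ ∀ l ∈ pt s, δ l ∉ P := by
  obtain ⟨h, h', δ, hE⟩ := eig_cm hM hF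
  refine ⟨h, h', δ, hE, fun l hl hP => ?_⟩
  rcases l with i | i
  · have hi : i ∈ s := hl
    have h1 := hu i _ hP
    rw [if_pos hi] at h1
    exact h1 (hE.torl i (Finset.mem_univ i))
  · have hi : i ∉ s := hl
    have h1 := hu i _ hP
    rw [if_neg hi] at h1
    exact h1 (hE.torr i (Finset.mem_univ i))

end Pool.Agent.Helper48.PW
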