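import Pool.Agent.Helper48.PW.Defs

/-!
# PW-COP: density gives a Frobenius at which finitely many integers are prime to `q`

`exists_coprime`. PROOF. Otherwise for every `z ∈ 𝓕` with `q = z.1` prime some `E j` has the value
`n = q m`, `|q m| ≤ C q`, so `|m| ≤ C`, and the polynomial `∏ j, ∏ m ∈ Icc (-C) C, (E' j - C m * X
none)` vanishes at `z`, where `E' j` is `E j` renamed by `some`
(`MvPolynomial.rename some`, `MvPolynomial.eval_rename`). By density it vanishes at `(1, M0)`: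
`E j (M0) = m` for some `j`, `|m| ≤ C`, contradiction to `hM0'`. (Compare `wa40_exists` in
Helper48/WT/Auto.lean and `rank_auto` in Helper48/GC8/Arith.lean.)
-/

set_option autoImplicit false

namespace Pool.Agent.Helper48.PW

open Polynomial Pool.Agent.Helper48.GC8

theorem exists_coprime {L : Type} [Fintype L] [DecidableEq L] {G : Grp L}
    {𝓕 : Set (ℕ × Matrix L L ℂ)} {J : Type} [Fintype J] (E : J → MvPolynomial (L × L) ℂ) (C : ℕ)
    (hE : ∀ z ∈ 𝓕, ∀ j, ∃ n : ℤ, MvPolynomial.eval (fun p => z.2 p.1 p.2) (E j) = n ∧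
      |n| ≤ C * z.1)
    (hdense : ∀ f : MvPolynomial (Option (L × L)) ℂ,
      (∀ z ∈ 𝓕, z.1.Prime →
        MvPolynomial.eval (fun o => o.elim (z.1 : ℂ) (fun p => z.2 p.1 p.2)) f = 0) →
      ∀ (c : ℂ) (M : Matrix L L ℂ), G c M →
        MvPolynomial.eval (fun o => o.elim c (fun p => M p.1 p.2)) f = 0)
    {M0 : Matrix L L ℂ} (hM0 : G 1 M0)
    (hM0' : ∀ j, ∀ m : ℤ, |m| ≤ C → MvPolynomial.eval (fun p => M0 p.1 p.2) (E j) ≠ m) :
    ∃ z ∈ 𝓕, z.1.Prime ∧ ∀ j, ∀ n : ℤ, MvPolynomial.eval (fun p => z.2 p.1 p.2) (E j) = n →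
      ¬ (z.1 : ℤ) ∣ n := by
  classical
  by_contra hcon
  push Not at hcon
  set f : MvPolynomial (Option (L × L)) ℂ := ∏ j, ∏ m ∈ Finset.Icc (-(C : ℤ)) C,
    (MvPolynomial.rename some (E j) - MvPolynomial.C (m : ℂ) * MvPolynomial.X none) with hf
  have hren : ∀ (c : ℂ) (M : Matrix L L ℂ) (j : J),
      MvPolynomial.eval (fun o => o.elim c (fun p => M p.1 p.2)) (MvPolynomial.rename some (E j)) =
        MvPolynomial.eval (fun p => M p.1 p.2) (E j) := by
    intro c M j
    rw [MvPolynomial.eval_rename]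
    rfl
  have h1 : ∀ z ∈ 𝓕, z.1.Prime →
      MvPolynomial.eval (fun o => o.elim (z.1 : ℂ) (fun p => z.2 p.1 p.2)) f = 0 := by
    intro z hz hp
    obtain ⟨j, n, hn, hdvd⟩ := hcon z hz hp
    obtain ⟨n', hn', hC⟩ := hE z hz j
    have hnn : n = n' := by
      have : (n : ℂ) = n' := by rw [← hn, ← hn']
      exact_mod_cast this
    subst hnn
    obtain ⟨m, rfl⟩ := hdvd
    have hq : (0 : ℤ) < z.1 := by exact_mod_cast hp.pos
    have hm : |m| ≤ C := by
      rw [abs_mul, abs_of_pos hq, mul_comm] at hC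
      exact le_of_mul_le_mul_right hC hq
    rw [hf, map_prod]
    refine Finset.prod_eq_zero (Finset.mem_univ j) ?_
    rw [map_prod]
    refine Finset.prod_eq_zero (Finset.mem_Icc.2 (abs_le.1 hm)) ?_
    rw [map_sub, map_mul, MvPolynomial.eval_C, MvPolynomial.eval_X, hren, hn]
    push_cast
    rw [Option.elim_none]
    ring
  have h2 := hdense f h1 1 M0 hM0
  rw [hf, map_prod, Finset.prod_eq_zero_iff] at h2
  obtain ⟨j, -, h3⟩ := h2
  rw [map_prod, Finset.prod_eq_zero_iff] at h3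
  obtain ⟨m, hm, h4⟩ := h3
  rw [map_sub, map_mul, MvPolynomial.eval_C, MvPolynomial.eval_X, hren, Option.elim_none, mul_one,
    sub_eq_zero] at h4
  exact hM0' j m (abs_le.2 (Finset.mem_Icc.1 hm)) h4

end Pool.Agent.Helper48.PW
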