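import Pool.Agent.Helper48.PW.Kind

/-!
# PW-FP: eigenbases for products

`isFrob_block`, `isOrd_block`. PROOF. `M = blockDiagonal' X`. `aeval M Q = blockDiagonal' (aeval
(X b) Q)` (induction on `Q`, or the algebra homomorphism `Matrix.blockDiagonal'AlgHom`-like;
`Matrix.blockDiagonal'_mul`, `_add`, `_one`), so the squarefree minimal polynomial of `M`
(`Module.End.IsSemisimple.minpoly_squarefree`) kills `X b` and `toLin' (X b)` is semisimple
(`Module.End.isSemisimple_of_squarefree_aeval_eq_zero`). A root `β` of the characteristic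
polynomial of `X b` is a root of the one of `M`: `det (β - X b) = 0` gives an eigenvector of `X b`,
extend it by zero (`Matrix.mem_spectrum...`, `Matrix.exists_mulVec_eq_zero_iff`), or use
`Matrix.det_blockDiagonal'`-type facts.

`eig_prod`, `frame_prod`. PROOF. Choose the eigenbases of the blocks and put
`h = blockDiagonal' (h b)`, `h' = blockDiagonal' (h' b)`, `δ ⟨b, l⟩ = δ b l`;
`Matrix.blockDiagonal'_mul`, `blockDiagonal'_one`, `blockDiagonal'_diagonal`.
-/

set_option autoImplicit false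

namespace Pool.Agent.Helper48.PW

open Polynomial Pool.Agent.Helper48.GC8

section Block

variable {B : Type} [Fintype B] [DecidableEq B] {L : B → Type} [∀ b, Fintype (L b)]
  [∀ b, DecidableEq (L b)]

omit [∀ b, DecidableEq (L b)] in
private lemma mulVec_res (X : ∀ b, Matrix (L b) (L b) ℂ) (b : B) (w : (Σ b, L b) → ℂ) :
    (fun l => (Matrix.blockDiagonal' X).mulVec w ⟨b, l⟩) =
      (X b).mulVec (fun l => w ⟨b, l⟩) := by
  funext l
  simp only [Matrix.mulVec, dotProduct]
  rw [Fintype.sum_sigma, Finset.sum_eq_single b]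
  · exact Finset.sum_congr rfl fun j _ => by rw [Matrix.blockDiagonal'_apply_eq]
  · intro b' _ hb'
    refine Finset.sum_eq_zero fun j _ => ?_
    rw [Matrix.blockDiagonal'_apply_ne X l j (Ne.symm hb'), zero_mul]
  · intro h
    exact absurd (Finset.mem_univ b) h

/-- The restriction of vectors to a block. -/
private def resB (b : B) : ((Σ b, L b) → ℂ) →ₗ[ℂ] (L b → ℂ) where
  toFun w := fun l => w ⟨b, l⟩
  map_add' _ _ := rfl
  map_smul' _ _ := rfl

omit [Fintype B] [∀ b, Fintype (L b)] [∀ b, DecidableEq (L b)] in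
private lemma resB_surj (b : B) : Function.Surjective (resB (L := L) b) := by
  intro v
  refine ⟨fun x => if h : x.1 = b then v (h ▸ x.2) else 0, ?_⟩
  funext l
  simp [resB]

private lemma root_block {X : ∀ b, Matrix (L b) (L b) ℂ} {b : B} {β : ℂ}
    (h : (X b).charpoly.IsRoot β) : (Matrix.blockDiagonal' X).charpoly.IsRoot β := by
  rw [Polynomial.IsRoot.def, Matrix.eval_charpoly] at h ⊢
  by_contra hcon
  have hu : IsUnit (Matrix.scalar (Σ b, L b) β - Matrix.blockDiagonal' X).det :=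
    isUnit_iff_ne_zero.2 hcon
  have h1 := Matrix.mul_nonsing_inv _ hu
  set N' := (Matrix.scalar (Σ b, L b) β - Matrix.blockDiagonal' X)⁻¹ with hN'
  have h2 : (Matrix.scalar (L b) β - X b) *
      (Matrix.of fun i j => N' ⟨b, i⟩ ⟨b, j⟩ : Matrix (L b) (L b) ℂ) = 1 := by
    ext i j
    have h3 := congrFun (congrFun h1 ⟨b, i⟩) ⟨b, j⟩
    rw [Matrix.mul_apply, Fintype.sum_sigma, Finset.sum_eq_single b] at h3
    · rw [Matrix.mul_apply]
      have h4 : (1 : Matrix (Σ b, L b) (Σ b, L b) ℂ) ⟨b, i⟩ ⟨b, j⟩ =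
          (1 : Matrix (L b) (L b) ℂ) i j := by
        by_cases hij : i = j
        · subst hij; rw [Matrix.one_apply_eq, Matrix.one_apply_eq]
        · rw [Matrix.one_apply_ne hij, Matrix.one_apply_ne]
          intro hs
          exact hij (eq_of_heq (Sigma.mk.inj_iff.1 hs).2)
      rw [← h4, ← h3]
      refine Finset.sum_congr rfl fun k _ => ?_
      rw [Matrix.of_apply, Matrix.sub_apply, Matrix.sub_apply, Matrix.blockDiagonal'_apply_eq]
      congr 2
      by_cases hik : i = k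
      · subst hik; simp
      · have hne : (⟨b, i⟩ : Σ b, L b) ≠ ⟨b, k⟩ := fun hs =>
          hik (eq_of_heq (Sigma.mk.inj_iff.1 hs).2)
        simp [Matrix.scalar_apply, hik]
    · intro b' _ hb'
      refine Finset.sum_eq_zero fun k _ => ?_
      have hne : (⟨b, i⟩ : Σ b, L b) ≠ ⟨b', k⟩ := fun hs =>
        hb' (congrArg Sigma.fst hs).symm
      rw [Matrix.sub_apply, Matrix.blockDiagonal'_apply_ne X i k (Ne.symm hb'),
        Matrix.scalar_apply, Matrix.diagonal_apply_ne _ hne, sub_zero, zero_mul]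
    · intro h
      exact absurd (Finset.mem_univ b) h
  have h3 := congrArg Matrix.det h2
  rw [Matrix.det_mul, h, zero_mul, Matrix.det_one] at h3
  exact zero_ne_one h3

theorem isFrob_block {q : ℕ} {X : ∀ b, Matrix (L b) (L b) ℂ}
    (h : IsFrob q (Matrix.blockDiagonal' X)) (b : B) : IsFrob q (X b) := by
  refine ⟨h.two_le, ?_, fun β hβ => h.integral β (root_block hβ)⟩
  refine Module.End.isSemisimple_of_squarefree_aeval_eq_zero
    (p := minpoly ℂ (Matrix.toLin' (Matrix.blockDiagonal' X))) h.semisimple.minpoly_squarefree ?_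
  refine LinearMap.ext fun v => ?_
  obtain ⟨w, rfl⟩ := resB_surj (L := L) b v
  rw [← aeval_semiconj (resB b) (Matrix.toLin' (Matrix.blockDiagonal' X))
    (Matrix.toLin' (X b)) (fun w => ?_), minpoly.aeval, LinearMap.zero_apply,
    LinearMap.zero_apply, map_zero]
  rw [Matrix.toLin'_apply, Matrix.toLin'_apply]
  exact mulVec_res X b w

theorem isOrd_block {q : ℕ} {P : Ideal (integralClosure ℤ ℂ)} {X : ∀ b, Matrix (L b) (L b) ℂ}
    (h : IsOrd q P (Matrix.blockDiagonal' X)) (b : B) : IsOrd q P (X b) :=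
  fun β hβ => h β (root_block hβ)

end Block

variable {B : Type} [Fintype B] [DecidableEq B] {k : B → Kind}

private lemma eig_mul {X h : ∀ b, Matrix (k b).Ind (k b).Ind ℂ}
    {δ : ∀ b, (k b).Ind → integralClosure ℤ ℂ}
    (he : ∀ b, X b * h b = h b * Matrix.diagonal (fun l => (δ b l : ℂ))) :
    Matrix.blockDiagonal' X * Matrix.blockDiagonal' h =
      Matrix.blockDiagonal' h *
        Matrix.diagonal (fun l : Ind k => ((δ l.1 l.2 : integralClosure ℤ ℂ) : ℂ)) := by
  rw [← Matrix.blockDiagonal'_mul]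
  have h1 : (Matrix.diagonal (fun l : Ind k => ((δ l.1 l.2 : integralClosure ℤ ℂ) : ℂ))) =
      Matrix.blockDiagonal' (fun b => Matrix.diagonal (fun l => (δ b l : ℂ))) := by
    rw [Matrix.blockDiagonal'_diagonal]
  rw [h1, ← Matrix.blockDiagonal'_mul]
  congr 1
  funext b
  exact he b

private lemma inv_mul' {h h' : ∀ b, Matrix (k b).Ind (k b).Ind ℂ} (he : ∀ b, h' b * h b = 1) :
    Matrix.blockDiagonal' h' * Matrix.blockDiagonal' h = 1 := by
  rw [← Matrix.blockDiagonal'_mul, ← Matrix.blockDiagonal'_one]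
  congr 1
  funext b
  exact he b

theorem eig_prod {q : ℕ} {X : ∀ b, Matrix (k b).Ind (k b).Ind ℂ}
    (hX : ∀ b, ∃ (h h' : Matrix (k b).Ind (k b).Ind ℂ) (δ : (k b).Ind → integralClosure ℤ ℂ),
      Eig (k b) q (X b) h h' δ) :
    ∃ (h h' : Matrix (Ind k) (Ind k) ℂ) (δ : Ind k → integralClosure ℤ ℂ),
      InGroup k 1 h ∧ h' * h = 1 ∧
      Matrix.blockDiagonal' X * h = h * Matrix.diagonal (fun l => (δ l : ℂ)) ∧
      (∀ b i, δ ⟨b, Sum.inl i⟩ * δ ⟨b, Sum.inr i⟩ = (q : integralClosure ℤ ℂ)) ∧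
      ∀ b, ∀ i ∈ (k b).tor, (δ ⟨b, Sum.inl i⟩ : ℂ) = X b (Sum.inl i) (Sum.inl i) ∧
        (δ ⟨b, Sum.inr i⟩ : ℂ) = X b (Sum.inr i) (Sum.inr i) := by
  choose h h' δ hE using hX
  exact ⟨Matrix.blockDiagonal' h, Matrix.blockDiagonal' h', fun l => δ l.1 l.2,
    ⟨one_ne_zero, h, fun b => (hE b).inG, rfl⟩, inv_mul' fun b => (hE b).inv,
    eig_mul fun b => (hE b).eig, fun b i => (hE b).mul i,
    fun b i hi => ⟨(hE b).torl i hi, (hE b).torr i hi⟩⟩

theorem frame_prod {q : ℕ} {P : Ideal (integralClosure ℤ ℂ)}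
    {X : ∀ b, Matrix (k b).Ind (k b).Ind ℂ} {s : ∀ b, Finset (Fin (k b).dim)}
    (hX : ∀ b, ∃ (h h' : Matrix (k b).Ind (k b).Ind ℂ) (δ : (k b).Ind → integralClosure ℤ ℂ),
      Eig (k b) q (X b) h h' δ ∧ ∀ l ∈ pt (s b), δ l ∉ P) :
    Frame (InGroup k) P {x | x.2 ∈ pt (s x.1)} (Matrix.blockDiagonal' X) := by
  choose h h' δ hE using hX
  exact ⟨Matrix.blockDiagonal' h, Matrix.blockDiagonal' h', fun l => δ l.1 l.2,
    ⟨one_ne_zero, h, fun b => (hE b).1.inG, rfl⟩, inv_mul' fun b => (hE b).1.inv,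
    eig_mul fun b => (hE b).1.eig, fun l hl => (hE l.1).2 l.2 hl⟩

end Pool.Agent.Helper48.PW
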