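import Pool.Agent.Helper48.PW.Kind
import Pool.Agent.Helper48.GC8.Diag
import Pool.Agent.Helper60.GTC.DivEff

/-!
# PW-SPF: eigenbases for the symplectic factors

`eig_sp`. PROOF. `Sim (fun _ => ()) q M` (Helper48/GC8); `M` has a basis of eigenvectors
(`Matrix.toLin' M` is semisimple over `ℂ`; compare the use of `exists_SE` in
Results/MP_8abef2_ag/BigMonodromyPowers.lean). Use `exists_SE`, `SE.mat`, `SE.sim`, `SE.mul_mat`,
`SE.exists_inv`, `SE.mul_eq` of Helper48/GC8/Diag.lean; the eigenvalues are algebraic integers by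
`hF.integral` (they are roots of the characteristic polynomial). `Kind.tor (.sp g) = ∅`.

`frame_sp`. PROOF. As before; `s = univ`, `pt univ` = the letters `inl i`. At each `i` one of
`lam (inl i)`, `lam (inr i) = q / lam (inl i)` is outside of `P` by `hord`; apply `SE.perm` with
`ε i = inl i` or `inr i` accordingly.
-/

set_option autoImplicit false

namespace Pool.Agent.Helper48.PW

open Polynomial Pool.Agent.Helper48.GC8

theorem spf_exists {g q : ℕ} {M : Matrix (L2 g) (L2 g) ℂ} (hM : inSp g (q : ℂ) M)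
    (hF : IsFrob q M) :
    ∃ (b : L2 g → (L2 g → ℂ)) (lam : L2 g → ℂ), SE (fun _ : Fin g => ()) M b lam := by
  obtain ⟨d, b0, l0, hb0⟩ := Pool.Agent.Helper60.GTC.eigenbasis _ hF.semisimple
  exact exists_SE hM.1 ⟨hM.2, fun _ _ h => absurd rfl h⟩ b0 l0
    (fun i => by rw [← Matrix.toLin'_apply]; exact hb0 i)

theorem spf_root {g : ℕ} {M : Matrix (L2 g) (L2 g) ℂ} {b : L2 g → (L2 g → ℂ)} {lam : L2 g → ℂ}
    (h : SE (fun _ : Fin g => ()) M b lam) (a : L2 g) : M.charpoly.IsRoot (lam a) := by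
  have hb : b a ≠ 0 := by
    intro h0
    have h1 := h.form a a.swap
    rw [h0, map_zero, LinearMap.zero_apply] at h1
    rcases a with i | i
    · rw [Sum.swap_inl, J_lr, if_pos rfl] at h1
      norm_num at h1
    · rw [Sum.swap_inr, J_rl, if_pos rfl] at h1
      norm_num at h1
  have h1 : Module.End.HasEigenvalue (Matrix.toLin' M) (lam a) :=
    Module.End.hasEigenvalue_of_hasEigenvector
      ⟨Module.End.mem_eigenspace_iff.2 (by rw [Matrix.toLin'_apply]; exact h.eig a), hb⟩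
  have h2 := (Module.End.hasEigenvalue_iff_isRoot_charpoly _ _).1 h1
  rwa [Matrix.charpoly_toLin'] at h2

theorem spf_eig {g q : ℕ} {M : Matrix (L2 g) (L2 g) ℂ} (hM : inSp g (q : ℂ) M)
    (hF : IsFrob q M) {b : L2 g → (L2 g → ℂ)} {lam : L2 g → ℂ}
    (h : SE (fun _ : Fin g => ()) M b lam) :
    ∃ (y y' : Matrix (L2 g) (L2 g) ℂ) (δ : L2 g → integralClosure ℤ ℂ),
      Eig (.sp g) q M y y' δ ∧ ∀ l, (δ l : ℂ) = lam l := by
  obtain ⟨S', hS'⟩ := h.exists_inv
  have hsim : Sim (fun _ : Fin g => ()) (q : ℂ) M := ⟨hM.2, fun _ _ h => absurd rfl h⟩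
  refine ⟨SE.mat b, S', fun l => ⟨lam l, (hF.integral _ (spf_root h l)).1⟩,
    ⟨⟨one_ne_zero, h.sim.form⟩, hS', h.mul_mat, fun i => ?_, ?_, ?_⟩, fun _ => rfl⟩
  · apply Subtype.ext
    have h1 := h.mul_eq hsim i
    simpa using h1
  · intro i hi
    simp [Kind.tor] at hi
  · intro i hi
    simp [Kind.tor] at hi

theorem eig_sp {g q : ℕ} {M : Matrix (L2 g) (L2 g) ℂ} (hM : inSp g (q : ℂ) M)
    (hF : IsFrob q M) :
    ∃ (h h' : Matrix (L2 g) (L2 g) ℂ) (δ : L2 g → integralClosure ℤ ℂ),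
      Eig (.sp g) q M h h' δ := by
  obtain ⟨b, lam, hse⟩ := spf_exists hM hF
  obtain ⟨y, y', δ, hE, -⟩ := spf_eig hM hF hse
  exact ⟨y, y', δ, hE⟩

theorem frame_sp {g q : ℕ} {M : Matrix (L2 g) (L2 g) ℂ} (hM : inSp g (q : ℂ) M)
    (hF : IsFrob q M) {P : Ideal (integralClosure ℤ ℂ)} (hP : P.IsPrime)
    (hqP : (q : integralClosure ℤ ℂ) ∈ P) (hord : IsOrd q P M) :
    ∃ (h h' : Matrix (L2 g) (L2 g) ℂ) (δ : L2 g → integralClosure ℤ ℂ),
      Eig (.sp g) q M h h' δ ∧ ∀ l ∈ pt (Finset.univ : Finset (Fin g)), δ l ∉ P := by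
  classical
  obtain ⟨b, lam, hse⟩ := spf_exists hM hF
  have hsim : Sim (fun _ : Fin g => ()) (q : ℂ) M := ⟨hM.2, fun _ _ h => absurd rfl h⟩
  obtain ⟨b', lam', hse', hlam'⟩ := hse.perm
    (fun i => if ∀ x ∈ P, (x : ℂ) ≠ lam (Sum.inl i) then Sum.inl i else Sum.inr i)
    (by
      intro i j hij
      have hpr : ∀ i : Fin g, pr (if ∀ x ∈ P, (x : ℂ) ≠ lam (Sum.inl i) then
          (Sum.inl i : L2 g) else Sum.inr i) = i := by
        intro i
        split_ifs <;> rfl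
      simpa only [hpr] using hij)
    (fun _ => rfl)
  obtain ⟨y, y', δ, hE, hδ⟩ := spf_eig hM hF hse'
  refine ⟨y, y', δ, hE, ?_⟩
  intro l hl hlP
  rcases l with i | i
  · have h1 := hδ (Sum.inl i)
    rw [hlam'] at h1
    split_ifs at h1 with hc
    · exact hc _ hlP h1
    · have h2 := (hord _ (spf_root hse (Sum.inl i))).resolve_left hc
      have h0 : lam (Sum.inl i) ≠ 0 := by
        intro h0
        have h3 := hse.mul_eq hsim i
        rw [h0, zero_mul] at h3
        exact hM.1 h3.symm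
      refine h2 _ hlP ?_
      rw [h1, eq_div_iff h0, ← hse.mul_eq hsim i, mul_comm]
  · exact hl (Finset.mem_univ _)

end Pool.Agent.Helper48.PW
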