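import Pool.Agent.Helper48.PW.Kind
import Pool.Agent.Helper48.WT.Arith

/-!
# PW-WF: eigenbases for the factors of Weil type

`M = WT.frob q g = fromBlocks g 0 0 (q (g⁻¹)ᵀ)`, `det g = q ^ p`.

`block_semi`. PROOF. The minimal polynomial of `toLin' M` is squarefree
(`Module.End.IsSemisimple.minpoly_squarefree`) and kills `g` (the block of
`aeval M Q = fromBlocks (aeval g Q) 0 0 _`), so `toLin' g` is semisimple
(`Module.End.isSemisimple_of_squarefree_aeval_eq_zero`). The characteristic polynomial of `g`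
divides the one of `M` (`Matrix.charpoly_fromBlocks_zero₁₂`).

`eig_weil`. PROOF. `WT.exists_eig` with `π = 1` gives `l`, `Y` with `g Y = Y diag(l)`;
`h = frob 1 Y`, `h' = frob 1 Y⁻¹`, `δ e_i = l i`, `δ f_i = q / l i` (algebraic integers,
`hF.integral`, as `l i` is a root of `g.charpoly`); see `eff_basis` in Helper48/WT/Eff.lean
(`frob_mul`, `frob_diagonal`, `frob_one`). Torus: `l i = g i i`.

`card_units`: exactly `p` of the `l i` are outside of `P` (copy of the private lemma of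
Helper48/WT/Arith.lean).

`frame_weil`. PROOF. See the proof of `WT.arith`: `E = {i | l i ∉ P}` has `p` elements
(`card_units`), `E ∩ tor = s ∩ tor` by `hu`, so there is a permutation `π` fixing `tor` with
`π i ∈ E ↔ i ∈ s` (`exists_pi`, private there, copy it); `exists_eig` for this `π`,
`δ e_i = l (π i)`, `δ f_i = q / l (π i)`.
-/

set_option autoImplicit false

namespace Pool.Agent.Helper48.PW

open Polynomial Pool.Agent.Helper48.GC8

/-- (helper11) polynomials in block diagonal matrices -/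
private lemma aeval_blocks {d : ℕ} (g D : Matrix (Fin d) (Fin d) ℂ) (Q : ℂ[X]) :
    aeval (Matrix.fromBlocks g 0 0 D) Q = Matrix.fromBlocks (aeval g Q) 0 0 (aeval D Q) := by
  induction Q using Polynomial.induction_on' with
  | add P Q hP hQ => rw [map_add, map_add, map_add, hP, hQ, Matrix.fromBlocks_add]; simp
  | monomial n a =>
    have h1 : ∀ n : ℕ, (Matrix.fromBlocks g 0 0 D) ^ n = Matrix.fromBlocks (g ^ n) 0 0 (D ^ n) := by
      intro n
      induction n with
      | zero => simp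
      | succ n ih => rw [pow_succ, ih, Matrix.fromBlocks_multiply]; simp [pow_succ]
    rw [aeval_monomial, aeval_monomial, aeval_monomial, h1]
    simp only [Algebra.algebraMap_eq_smul_one, smul_mul_assoc, one_mul, Matrix.fromBlocks_smul,
      smul_zero]

/-- (helper11) the block of a semisimple matrix -/
private lemma block_semi {d : ℕ} {g D : Matrix (Fin d) (Fin d) ℂ}
    (h : Module.End.IsSemisimple (Matrix.toLin' (Matrix.fromBlocks g 0 0 D))) :
    Module.End.IsSemisimple (Matrix.toLin' g) := by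
  set T : Module.End ℂ (Fin d ⊕ Fin d → ℂ) := Matrix.toLin' (Matrix.fromBlocks g 0 0 D) with hT
  have h1 : Squarefree (minpoly ℂ T) := h.minpoly_squarefree
  refine Module.End.isSemisimple_of_squarefree_aeval_eq_zero h1 ?_
  have h2 : aeval T (minpoly ℂ T) = 0 := minpoly.aeval ℂ T
  have h3 : aeval (Matrix.fromBlocks g 0 0 D) (minpoly ℂ T) = 0 := by
    have h4 : aeval (Matrix.toLinAlgEquiv' (Matrix.fromBlocks g 0 0 D)) (minpoly ℂ T) = 0 := h2
    rw [← AlgEquiv.coe_toAlgHom, Polynomial.aeval_algHom_apply] at h4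
    exact (map_eq_zero_iff _ (Matrix.toLinAlgEquiv' (R := ℂ) (n := Fin d ⊕ Fin d)).injective).1 h4
  rw [aeval_blocks] at h3
  have h5 : aeval g (minpoly ℂ T) = 0 := by
    have h6 := congrArg Matrix.toBlocks₁₁ h3
    rw [Matrix.toBlocks_fromBlocks₁₁] at h6
    rw [h6]
    rfl
  have h7 : aeval (Matrix.toLinAlgEquiv' g) (minpoly ℂ T) = 0 := by
    rw [← AlgEquiv.coe_toAlgHom, Polynomial.aeval_algHom_apply, h5, map_zero]
  exact h7

/-- (helper11) the eigenbases -/
private lemma weil_core {p : ℕ} {tor : Finset (Fin (2 * p))} {q : ℕ}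
    {M : Matrix (L2 (2 * p)) (L2 (2 * p)) ℂ} (hM : inWeil p tor (q : ℂ) M) (hF : IsFrob q M) :
    ∃ (g : Matrix (Fin (2 * p)) (Fin (2 * p)) ℂ) (l l' : Fin (2 * p) → integralClosure ℤ ℂ),
      M = WT.frob (q : ℂ) g ∧ g.charpoly = ∏ i, (X - C (l i : ℂ)) ∧
      (∀ i, l i * l' i = (q : integralClosure ℤ ℂ)) ∧
      (∏ i, l i = (q : integralClosure ℤ ℂ) ^ p) ∧
      (∀ i, M.charpoly.IsRoot (l i : ℂ)) ∧ (∀ i, (l' i : ℂ) = (q : ℂ) / (l i : ℂ)) ∧
      (∀ i ∈ tor, (l i : ℂ) = M (Sum.inl i) (Sum.inl i)) ∧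
      (∀ i ∈ tor, (l' i : ℂ) = M (Sum.inr i) (Sum.inr i)) ∧
      ∀ π : Equiv.Perm (Fin (2 * p)), (∀ i ∈ tor, π i = i) →
        ∃ h h' : Matrix (L2 (2 * p)) (L2 (2 * p)) ℂ, Eig (.weil p tor) q M h h'
          (Sum.elim (fun i => l (π i)) (fun i => l' (π i))) := by
  classical
  obtain ⟨g, hG, rfl⟩ := hM
  have hsemi : Module.End.IsSemisimple (Matrix.toLin' g) := block_semi hF.semisimple
  obtain ⟨l, hl1, hl2, hl3⟩ := WT.exists_eig hG hsemi
  have hq0 : (q : ℂ) ≠ 0 := hG.ne
  have hdet : ∏ i, l i = (q : ℂ) ^ p := by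
    obtain ⟨Y, hY1, hY2⟩ := hl3 1 (fun i _ => rfl)
    have h1 := congrArg Matrix.det hY2
    rw [Matrix.det_mul, Matrix.det_mul, hY1.det, one_pow, mul_one, one_mul, Matrix.det_diagonal,
      hG.det] at h1
    simpa using h1.symm
  have hroot' : ∀ i, g.charpoly.IsRoot (l i) := by
    intro i
    rw [hl2, Polynomial.IsRoot.def, Polynomial.eval_prod]
    exact Finset.prod_eq_zero (Finset.mem_univ i) (by simp)
  have hroot : ∀ i, (WT.frob (q : ℂ) g).charpoly.IsRoot (l i) := by
    intro i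
    unfold WT.frob
    rw [Matrix.charpoly_fromBlocks_zero₁₂, Polynomial.IsRoot.def, Polynomial.eval_mul,
      (hroot' i), zero_mul]
  have hl0 : ∀ i, l i ≠ 0 := by
    intro i h
    have h1 : ∏ i, l i = 0 := Finset.prod_eq_zero (Finset.mem_univ i) h
    rw [hdet] at h1
    exact pow_ne_zero p hq0 h1
  have hdiag : ∀ i ∈ tor, (WT.frob (q : ℂ) g) (Sum.inr i) (Sum.inr i) = (q : ℂ) / l i := by
    intro i hi
    have h3 : (g * g⁻¹) i i = 1 := by
      rw [Matrix.mul_nonsing_inv _ hG.isUnit, Matrix.one_apply_eq]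
    rw [Matrix.mul_apply, Finset.sum_eq_single i] at h3
    · unfold WT.frob
      rw [Matrix.fromBlocks_apply₂₂, Matrix.smul_apply, Matrix.transpose_apply, smul_eq_mul,
        div_eq_mul_inv, hl1 i hi]
      congr 1
      exact eq_inv_of_mul_eq_one_right h3
    · intro k _ hk
      rw [hG.diag i k (Ne.symm hk) (Or.inl hi), zero_mul]
    · intro h4; exact absurd (Finset.mem_univ _) h4
  refine ⟨g, fun i => ⟨l i, (hF.integral _ (hroot i)).1⟩,
    fun i => ⟨(q : ℂ) / l i, (hF.integral _ (hroot i)).2⟩, rfl, hl2, ?_, ?_, hroot,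
    fun i => rfl, ?_, ?_, ?_⟩
  · intro i
    apply Subtype.ext
    show l i * ((q : ℂ) / l i) = _
    rw [mul_div_cancel₀ _ (hl0 i)]
    simp
  · apply Subtype.ext
    push_cast
    simpa using hdet
  · intro i hi
    show l i = _
    rw [hl1 i hi]
    rfl
  · intro i hi
    exact (hdiag i hi).symm
  · intro π hπ
    obtain ⟨Y, hY1, hY2⟩ := hl3 π hπ
    have hsm : WT.frob (q : ℂ) g * WT.frob 1 Y =
        WT.frob 1 Y * WT.frob (q : ℂ) (Matrix.diagonal (fun i => l (π i))) := by
      rw [← WT.frob_mul, ← WT.frob_mul, hY2, mul_one, one_mul]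
    have hinv : WT.frob 1 Y⁻¹ * WT.frob 1 Y = 1 := by
      rw [← WT.frob_mul, Matrix.nonsing_inv_mul _ hY1.isUnit, mul_one, WT.frob_one]
    rw [WT.frob_diagonal _ _ (fun i => hl0 _)] at hsm
    refine ⟨WT.frob 1 Y, WT.frob 1 Y⁻¹, ⟨Y, hY1, rfl⟩, hinv, ?_, ?_, ?_, ?_⟩
    · rw [hsm]
      congr 2
      funext x
      rcases x with i | i <;> rfl
    · intro i
      apply Subtype.ext
      show l (π i) * ((q : ℂ) / l (π i)) = _
      rw [mul_div_cancel₀ _ (hl0 _)]
      simp
    · intro i hi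
      show l (π i) = _
      have hi' : i ∈ tor := hi
      rw [hπ i hi', hl1 i hi']
      rfl
    · intro i hi
      have hi' : i ∈ tor := hi
      show (q : ℂ) / l (π i) = _
      rw [hπ i hi']
      exact (hdiag i hi').symm

theorem eig_weil {p : ℕ} {tor : Finset (Fin (2 * p))} {q : ℕ}
    {M : Matrix (L2 (2 * p)) (L2 (2 * p)) ℂ} (hM : inWeil p tor (q : ℂ) M) (hF : IsFrob q M) :
    ∃ (h h' : Matrix (L2 (2 * p)) (L2 (2 * p)) ℂ) (δ : L2 (2 * p) → integralClosure ℤ ℂ),
      Eig (.weil p tor) q M h h' δ ∧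
        ∏ i : Fin (2 * p), δ (Sum.inl i) = (q : integralClosure ℤ ℂ) ^ p ∧
        (M.submatrix Sum.inl Sum.inl : Matrix (Fin (2 * p)) (Fin (2 * p)) ℂ).charpoly =
          ∏ i, (X - C (δ (Sum.inl i) : ℂ)) := by
  obtain ⟨g, l, l', hMg, hchar, -, hprod, -, -, -, -, hπ⟩ := weil_core hM hF
  obtain ⟨h, h', hE⟩ := hπ 1 (fun i _ => rfl)
  refine ⟨h, h', _, hE, hprod, ?_⟩
  have h1 : (M.submatrix Sum.inl Sum.inl : Matrix (Fin (2 * p)) (Fin (2 * p)) ℂ) = g := by
    rw [hMg]
    ext i j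
    rfl
  rw [h1]
  exact hchar

theorem card_units {p q : ℕ} (hq : 2 ≤ q) (L L' : Fin (2 * p) → integralClosure ℤ ℂ)
    (hmul : ∀ i, L i * L' i = (q : integralClosure ℤ ℂ))
    (hprod : ∏ i, L i = (q : integralClosure ℤ ℂ) ^ p) {P : Ideal (integralClosure ℤ ℂ)}
    (hP : P.IsPrime) (hqP : (q : integralClosure ℤ ℂ) ∈ P) (E : Finset (Fin (2 * p)))
    (hE : ∀ i ∈ E, L i ∉ P) (hE' : ∀ i ∉ E, L' i ∉ P) : E.card = p := by
  classical
  have hq0 : (q : integralClosure ℤ ℂ) ≠ 0 := by
    have : q ≠ 0 := by omega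
    exact_mod_cast this
  have hcard : E.card + Eᶜ.card = 2 * p := by
    rw [Finset.card_add_card_compl, Fintype.card_fin]
  have h1 : (∏ i ∈ E, L i) * (q : integralClosure ℤ ℂ) ^ Eᶜ.card =
      (q : integralClosure ℤ ℂ) ^ p * ∏ i ∈ Eᶜ, L' i := by
    rw [← hprod, ← Finset.prod_mul_prod_compl E, mul_assoc, ← Finset.prod_mul_distrib,
      Finset.prod_congr rfl fun i _ => hmul i, Finset.prod_const]
  rcases Nat.lt_trichotomy E.card p with h | h | h
  · exfalso
    have h2 : Eᶜ.card = p + (Eᶜ.card - p) := by omega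
    rw [h2, pow_add, ← mul_assoc, mul_comm (∏ i ∈ E, L i), mul_assoc] at h1
    have h3 := mul_left_cancel₀ (pow_ne_zero p hq0) h1
    have h4 : ∏ i ∈ Eᶜ, L' i ∈ P := by
      rw [← h3]
      refine P.mul_mem_left _ ?_
      obtain ⟨m, hm⟩ : ∃ m, Eᶜ.card - p = m + 1 := ⟨Eᶜ.card - p - 1, by omega⟩
      rw [hm, pow_succ]
      exact P.mul_mem_left _ hqP
    rw [hP.prod_mem_iff] at h4
    obtain ⟨i, hi, h5⟩ := h4
    exact hE' i (Finset.mem_compl.1 hi) h5
  · exact h
  · exfalso
    have h2 : p = Eᶜ.card + (p - Eᶜ.card) := by omega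
    have h1' : (q : integralClosure ℤ ℂ) ^ Eᶜ.card * (∏ i ∈ E, L i) =
        (q : integralClosure ℤ ℂ) ^ Eᶜ.card * ((q : integralClosure ℤ ℂ) ^ (p - Eᶜ.card) *
          ∏ i ∈ Eᶜ, L' i) := by
      rw [← mul_assoc, ← pow_add, ← h2, ← h1, mul_comm]
    have h3 := mul_left_cancel₀ (pow_ne_zero _ hq0) h1'
    have h4 : ∏ i ∈ E, L i ∈ P := by
      rw [h3]
      refine P.mul_mem_right _ ?_
      obtain ⟨m, hm⟩ : ∃ m, p - Eᶜ.card = m + 1 := ⟨p - Eᶜ.card - 1, by omega⟩
      rw [hm, pow_succ]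
      exact P.mul_mem_left _ hqP
    rw [hP.prod_mem_iff] at h4
    obtain ⟨i, hi, h5⟩ := h4
    exact hE i hi h5

/-- (helper52) the permutation -/
private lemma exists_pi {d : ℕ} (tor E S' : Finset (Fin d))
    (hcard : (S' \ tor).card = (E \ tor).card) (htor : ∀ i ∈ tor, i ∈ E ↔ i ∈ S') :
    ∃ π : Equiv.Perm (Fin d), (∀ i ∈ tor, π i = i) ∧ ∀ i, π i ∈ E ↔ i ∈ S' := by
  classical
  set col : Fin d → Option (Fin d) := fun i => if i ∈ tor then some i else none with hcol
  set P' : Option (Fin d) → Finset (Fin d) := fun c => if c = none then E \ tor else ∅ with hP'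
  obtain ⟨σ, hσ1, hσ2⟩ := exists_perm col (S' \ tor) P' (by
    intro c i hi
    by_cases hc : c = none
    · subst hc
      simp only [hP', if_true] at hi
      simp only [hcol, if_neg (Finset.mem_sdiff.1 hi).2]
    · simp only [hP', if_neg hc] at hi
      exact absurd hi (Finset.notMem_empty i)) (by
    intro c
    by_cases hc : c = none
    · subst hc
      simp only [hP', if_true]
      rw [← hcard]
      congr 1
      refine Finset.filter_true_of_mem fun i hi => ?_
      simp only [hcol, if_neg (Finset.mem_sdiff.1 hi).2]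
    · simp only [hP', if_neg hc]
      rw [Finset.card_empty, Finset.card_eq_zero]
      refine Finset.filter_false_of_mem fun i hi => ?_
      simp only [hcol, if_neg (Finset.mem_sdiff.1 hi).2]
      exact fun h => hc h.symm)
  have hfix : ∀ i ∈ tor, σ i = i := by
    intro i hi
    have h1 := hσ1 i
    simp only [hcol, if_pos hi] at h1
    by_cases h2 : σ i ∈ tor
    · rw [if_pos h2] at h1
      exact Option.some.inj h1
    · rw [if_neg h2] at h1
      exact absurd h1 (by simp)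
  have hntor : ∀ i, i ∉ tor → σ i ∉ tor := by
    intro i hi h
    have h1 := hfix _ h
    exact hi (by rw [← σ.injective h1]; exact h)
  have himg : (S' \ tor).image σ = E \ tor := by
    apply Finset.eq_of_subset_of_card_le
    · intro j hj
      obtain ⟨i, hi, rfl⟩ := Finset.mem_image.1 hj
      have h1 := hσ2 i hi
      simpa only [hcol, if_neg (Finset.mem_sdiff.1 hi).2, hP', if_true] using h1
    · rw [Finset.card_image_of_injective _ σ.injective, hcard]
  refine ⟨σ, hfix, fun i => ?_⟩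
  by_cases hi : i ∈ tor
  · rw [hfix i hi]
    exact htor i hi
  · constructor
    · intro h
      have h1 : σ i ∈ (S' \ tor).image σ := by
        rw [himg]
        exact Finset.mem_sdiff.2 ⟨h, hntor i hi⟩
      obtain ⟨j, hj, hji⟩ := Finset.mem_image.1 h1
      rw [← σ.injective hji]
      exact (Finset.mem_sdiff.1 hj).1
    · intro h
      have h1 : σ i ∈ (S' \ tor).image σ :=
        Finset.mem_image_of_mem _ (Finset.mem_sdiff.2 ⟨h, hi⟩)
      rw [himg] at h1
      exact (Finset.mem_sdiff.1 h1).1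

theorem frame_weil {p : ℕ} {tor : Finset (Fin (2 * p))} {q : ℕ}
    {M : Matrix (L2 (2 * p)) (L2 (2 * p)) ℂ} (hM : inWeil p tor (q : ℂ) M) (hF : IsFrob q M)
    {P : Ideal (integralClosure ℤ ℂ)} (hP : P.IsPrime)
    (hqP : (q : integralClosure ℤ ℂ) ∈ P) (hord : IsOrd q P M) (s : Finset (Fin (2 * p)))
    (hs : s.card = p) (hu : ∀ i ∈ tor, ∀ x ∈ P, (x : ℂ) ≠
      M (if i ∈ s then Sum.inl i else Sum.inr i) (if i ∈ s then Sum.inl i else Sum.inr i)) :
    ∃ (h h' : Matrix (L2 (2 * p)) (L2 (2 * p)) ℂ) (δ : L2 (2 * p) → integralClosure ℤ ℂ),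
      Eig (.weil p tor) q M h h' δ ∧ ∀ l ∈ pt s, δ l ∉ P := by
  classical
  obtain ⟨g, L, L', hMg, -, hmul, hprod, hroot, hL', htl, htr, hπ⟩ := weil_core hM hF
  have hordL : ∀ i, L i ∉ P ∨ L' i ∉ P := by
    intro i
    rcases hord _ (hroot i) with h | h
    · exact Or.inl fun h' => h _ h' rfl
    · exact Or.inr fun h' => h _ h' (hL' i)
  have hLL' : ∀ i, L' i ∉ P → L i ∈ P := by
    intro i h
    have h1 : L i * L' i ∈ P := by rw [hmul]; exact hqP
    exact (hP.mem_or_mem h1).resolve_right h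
  set E : Finset (Fin (2 * p)) := Finset.univ.filter (fun i => L i ∉ P) with hE
  have hEmem : ∀ i, i ∈ E ↔ L i ∉ P := fun i => by simp [hE]
  have hEcard : E.card = p := by
    refine card_units hF.two_le L L' hmul hprod hP hqP E (fun i hi => (hEmem i).1 hi) ?_
    intro i hi
    rcases hordL i with h | h
    · exact absurd ((hEmem i).2 h) hi
    · exact h
  have htor : ∀ i ∈ tor, i ∈ E ↔ i ∈ s := by
    intro i hi
    constructor
    · intro h
      by_contra hS
      have h1 : L' i ∉ P := by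
        intro h'
        have h2 := hu i hi _ h'
        rw [if_neg hS] at h2
        exact h2 (htr i hi)
      exact (hEmem i).1 h (hLL' i h1)
    · intro h
      rw [hEmem]
      intro h'
      have h2 := hu i hi _ h'
      rw [if_pos h] at h2
      exact h2 (htl i hi)
  have hEt : (s \ tor).card = (E \ tor).card := by
    have h1 : s ∩ tor = E ∩ tor := by
      ext i
      rw [Finset.mem_inter, Finset.mem_inter]
      constructor
      · rintro ⟨h1, h2⟩; exact ⟨(htor i h2).2 h1, h2⟩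
      · rintro ⟨h1, h2⟩; exact ⟨(htor i h2).1 h1, h2⟩
    have h2 := Finset.card_sdiff_add_card_inter s tor
    have h3 := Finset.card_sdiff_add_card_inter E tor
    rw [h1, hs] at h2
    rw [hEcard] at h3
    omega
  obtain ⟨π, hπ1, hπ2⟩ := exists_pi tor E s hEt htor
  obtain ⟨h, h', hEig⟩ := hπ π hπ1
  refine ⟨h, h', _, hEig, ?_⟩
  rintro (i | i) hi
  · have h1 : i ∈ s := hi
    exact (hEmem _).1 ((hπ2 i).2 h1)
  · have h1 : i ∉ s := hi
    have h2 : π i ∉ E := fun h => h1 ((hπ2 i).1 h)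
    have h3 : L (π i) ∈ P := by
      by_contra h
      exact h2 ((hEmem _).2 h)
    exact (hordL (π i)).resolve_left (fun h => h h3)

end Pool.Agent.Helper48.PW
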