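import Pool.Agent.Helper48.PW.AutoDefs

/-!
# PW-WIT: the test matrix and the characteristic polynomials of the factors

`wit_inGroup`. PROOF. `M0 = blockDiagonal' X`, `X b = diagonal (Sum.elim w (w⁻¹))` with `w i = 10` for
`sp` and `cm` blocks and `w i = 10` (`i` even), `1/10` (`i` odd) for `weil` blocks; multiplier `1`
(the determinant of `w` on `2p` letters is `1`).

`charpoly_facPart`. PROOF. From `M h = h diag(δ)` with `M`, `h` block diagonal: for a predicate on
the blocks (`fac b = j`) restriction to its letters is multiplicative on block diagonal matrices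
(compare `block_mul`, `SE.charpoly_block` in Helper48/GC8/Arith.lean), so the restricted `M` is
conjugate to the restricted `diag(δ)`.
-/

set_option autoImplicit false

namespace Pool.Agent.Helper48.PW

open Polynomial Pool.Agent.Helper48.GC8

variable {B : Type} [Fintype B] [DecidableEq B] {k : B → Kind}

open Classical in
/-- The diagonal test matrix. -/
noncomputable def wit (k : B → Kind) : Ind k → ℂ := fun x =>
  Sum.elim (fun i : Fin (k x.1).dim => if (k x.1).IsPlain ∨ Even (i : ℕ) then (10 : ℂ) else (1 / 10 : ℂ))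
    (fun i : Fin (k x.1).dim => if (k x.1).IsPlain ∨ Even (i : ℕ) then (1 / 10 : ℂ) else (10 : ℂ)) x.2

open Classical in
/-- The diagonal test matrix of one block. -/
private noncomputable def witK (κ : Kind) : κ.Ind → ℂ :=
  Sum.elim (fun i : Fin κ.dim => if κ.IsPlain ∨ Even (i : ℕ) then (10 : ℂ) else (1 / 10 : ℂ))
    (fun i : Fin κ.dim => if κ.IsPlain ∨ Even (i : ℕ) then (1 / 10 : ℂ) else (10 : ℂ))

private lemma prod_even (p : ℕ) :
    ∏ i ∈ Finset.range (2 * p), (if Even i then (10 : ℂ) else (1 / 10 : ℂ)) = 1 := by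
  induction p with
  | zero => simp
  | succ p ih =>
    rw [show 2 * (p + 1) = 2 * p + 1 + 1 by ring, Finset.prod_range_succ, Finset.prod_range_succ, ih]
    have h1 : Even (2 * p) := even_two_mul p
    have h2 : ¬ Even (2 * p + 1) := by
      rw [Nat.even_add_one]
      exact fun h => h h1
    rw [if_pos h1, if_neg h2]
    norm_num

private lemma witK_inG (κ : Kind) : κ.InG 1 (Matrix.diagonal (witK κ)) := by
  classical
  cases κ with
  | sp g =>
    have hd : witK (.sp g) = Sum.elim (fun _ : Fin g => (10 : ℂ)) (fun _ : Fin g => (1 / 10 : ℂ)) := by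
      funext x
      rcases x with i | i
      · simp [witK, Kind.IsPlain]
      · simp [witK, Kind.IsPlain]
    change (1 : ℂ) ≠ 0 ∧ _
    refine ⟨one_ne_zero, ?_⟩
    rw [hd, ← Matrix.fromBlocks_diagonal, Matrix.fromBlocks_transpose, Matrix.J,
      Matrix.fromBlocks_multiply, Matrix.fromBlocks_multiply, Matrix.fromBlocks_smul]
    have h10 : (Matrix.diagonal (fun _ : Fin g => (10 : ℂ))) = (10 : ℂ) • (1 : Matrix (Fin g) (Fin g) ℂ) := by
      rw [Matrix.smul_one_eq_diagonal]
    have h01 : (Matrix.diagonal (fun _ : Fin g => (1 / 10 : ℂ))) =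
        (1 / 10 : ℂ) • (1 : Matrix (Fin g) (Fin g) ℂ) := by
      rw [Matrix.smul_one_eq_diagonal]
    rw [h10, h01]
    simp [smul_smul]
  | cm =>
    have hd : witK .cm = Sum.elim (fun _ => (10 : ℂ)) (fun _ => 1 / 10) := by
      funext x
      rcases x with i | i
      · simp [witK, Kind.IsPlain]
      · simp [witK, Kind.IsPlain]
    change (1 : ℂ) ≠ 0 ∧ _
    refine ⟨one_ne_zero, 10, by norm_num, ?_⟩
    rw [hd]
  | weil p tor =>
    set w : Fin (2 * p) → ℂ := fun i => if Even (i : ℕ) then (10 : ℂ) else (1 / 10 : ℂ) with hw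
    set v : Fin (2 * p) → ℂ := fun i => if Even (i : ℕ) then (1 / 10 : ℂ) else (10 : ℂ) with hv
    have hd : witK (.weil p tor) = Sum.elim w v := by
      funext x
      rcases x with i | i
      · simp [witK, Kind.IsPlain, hw]
      · simp [witK, Kind.IsPlain, hv]
    have hwv : ∀ i, w i * v i = 1 := by
      intro i
      rw [hw, hv]
      by_cases hi : Even (i : ℕ)
      · simp [hi]
      · simp [hi]
    have hinv : (Matrix.diagonal w)⁻¹ = Matrix.diagonal v := by
      refine Matrix.inv_eq_right_inv ?_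
      rw [Matrix.diagonal_mul_diagonal]
      rw [show (fun i => w i * v i) = fun _ => (1 : ℂ) from funext hwv]
      exact Matrix.diagonal_one
    refine ⟨Matrix.diagonal w, ⟨one_ne_zero, fun i j hij _ => Matrix.diagonal_apply_ne _ hij, ?_⟩, ?_⟩
    · rw [Matrix.det_diagonal, one_pow, hw,
        Fin.prod_univ_eq_prod_range (fun i => if Even i then (10 : ℂ) else (1 / 10 : ℂ)) (2 * p)]
      exact prod_even p
    · rw [hd, WT.frob, hinv, one_smul, Matrix.diagonal_transpose]
      exact (Matrix.fromBlocks_diagonal w v).symm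

theorem wit_inGroup (k : B → Kind) : InGroup k 1 (Matrix.diagonal (wit k)) := by
  refine ⟨one_ne_zero, fun b => Matrix.diagonal (witK (k b)), fun b => witK_inG (k b), ?_⟩
  rw [Matrix.blockDiagonal'_diagonal]
  rfl

private lemma inGroup_apply {c : ℂ} {M : Matrix (Ind k) (Ind k) ℂ} (hM : InGroup k c M)
    {x y : Ind k} (h : x.1 ≠ y.1) : M x y = 0 := by
  obtain ⟨_, X, _, rfl⟩ := hM
  exact Matrix.blockDiagonal'_apply_ne _ _ _ h

private lemma facPart_mul {J : Type} [DecidableEq J] (fac : B → J) (j : J)
    (Y Z : Matrix (Ind k) (Ind k) ℂ)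
    (hZ : ∀ r s : Ind k, fac s.1 = j → fac r.1 ≠ j → Z r s = 0) :
    facPart k fac j (Y * Z) = facPart k fac j Y * facPart k fac j Z := by
  ext r s
  rw [facPart, Matrix.submatrix_apply, Matrix.mul_apply, Matrix.mul_apply]
  symm
  refine Fintype.sum_of_injective (Subtype.val : {x : Ind k // fac x.1 = j} → Ind k)
    Subtype.val_injective _ _ ?_ ?_
  · intro x hx
    rw [hZ x s.1 s.2 (fun h => hx ⟨⟨x, h⟩, rfl⟩), mul_zero]
  · intro x
    rfl

private lemma facPart_diagonal {J : Type} [DecidableEq J] (fac : B → J) (j : J) (d : Ind k → ℂ) :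
    facPart k fac j (Matrix.diagonal d) =
      Matrix.diagonal fun r : {x : Ind k // fac x.1 = j} => d r.1 := by
  ext r s
  rw [facPart, Matrix.submatrix_apply]
  by_cases h : r = s
  · subst h; simp
  · rw [Matrix.diagonal_apply_ne _ h, Matrix.diagonal_apply_ne]
    exact fun h' => h (Subtype.ext h')

theorem charpoly_facPart {J : Type} [DecidableEq J] (fac : B → J) (j : J) {c : ℂ}
    {M h h' : Matrix (Ind k) (Ind k) ℂ} {δ : Ind k → ℂ} (hM : InGroup k c M) (hh : InGroup k 1 h)
    (hinv : h' * h = 1) (he : M * h = h * Matrix.diagonal δ) :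
    (facPart k fac j M).charpoly = ∏ x : {x : Ind k // fac x.1 = j}, (X - C (δ x.1)) := by
  have hS : ∀ r s : Ind k, fac s.1 = j → fac r.1 ≠ j → h r s = 0 := by
    intro r s hs hr
    refine inGroup_apply hh fun hrs => hr ?_
    rw [hrs]
    exact hs
  have hD : ∀ r s : Ind k, fac s.1 = j → fac r.1 ≠ j → Matrix.diagonal δ r s = 0 := by
    intro r s hs hr
    rw [Matrix.diagonal_apply_ne]
    rintro rfl
    exact hr hs
  have h1 : facPart k fac j M * facPart k fac j h =
      facPart k fac j h * Matrix.diagonal (fun r : {x : Ind k // fac x.1 = j} => δ r.1) := by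
    rw [← facPart_mul fac j M _ hS, he, facPart_mul fac j _ _ hD, facPart_diagonal]
  have h2 : facPart k fac j h' * facPart k fac j h = 1 := by
    rw [← facPart_mul fac j _ _ hS, hinv, ← Matrix.diagonal_one, facPart_diagonal,
      Matrix.diagonal_one]
  have h3 : facPart k fac j h * facPart k fac j h' = 1 := mul_eq_one_comm.1 h2
  have h4 : facPart k fac j M =
      facPart k fac j h * Matrix.diagonal (fun r : {x : Ind k // fac x.1 = j} => δ r.1) *
      facPart k fac j h' := by
    rw [← h1, Matrix.mul_assoc, h3, Matrix.mul_one]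
  rw [h4, Matrix.charpoly_mul_comm, ← Matrix.mul_assoc, h2, Matrix.one_mul,
    Matrix.charpoly_diagonal]

end Pool.Agent.Helper48.PW
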