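import Pool.Agent.Helper48.PW.AutoDefs
import Pool.Agent.Helper48.PW.Coprime
import Pool.Agent.Helper48.PW.AutoOrd
import Pool.Agent.Helper48.PW.AutoVal
import Pool.Agent.Helper48.PW.Wit
import Pool.Agent.Helper48.PW.WeilFrame
import Pool.Agent.Helper48.PW.SpFrame
import Pool.Agent.Helper48.PW.Cm
import Pool.Agent.Helper48.PW.FrameProd

/-!
# PW-ALL: a Frobenius which is ordinary at all primes over `q`

`ordinary_all`. PROOF. For a factor `j` of surface type with `d_j = ∑ dim ≥ 1` let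
`E j` = coefficient of `T ^ d_j` of the characteristic polynomial of `facPart k fac j M` as a
polynomial in the entries (generic matrix, `Matrix.charpoly.univ` or `Matrix.charpoly_map`); for a
factor of fourfold type the coefficient of `T²` for `ePart k b M`. (If `j` is the value of no
`b`, or `d_j = 0`, there is nothing to prove for `j`: restrict to the other `j`.) At `z ∈ 𝓕` they
are integers (`IsSurface.int`, `IsFourfold`) of absolute value `≤ 6 q`: the eigenvalues have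
absolute value `√q` and there are at most `C(4, 2) = 6` products of two, or `2` eigenvalues
(`coeff_prod` in Helper48/GC8/Arith.lean). At `witness` they are `10.1` (`d_j = 1`, sign `-`) or
`104.01`, not integers. `exists_coprime` with `C = 6` gives `z = (q, M) ∈ 𝓕`, `q` prime, with all
these integers prime to `q`. Let `P` be a prime over `q`; a root `β` of the characteristic polynomial
of `M` is `δ ⟨b, l⟩` for a letter (`eig_prod`: `M h = h diag(δ)`), and `β * (q / β) = q`,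
`q / β = δ` of the exchanged letter. `ord_surface` (`T` = the letters of the factor `fac b`) or
`ord_fourfold` gives `δ ⟨b, l⟩ ∉ P` or `δ ⟨b, swap l⟩ ∉ P`.
-/

set_option autoImplicit false

namespace Pool.Agent.Helper48.PW

open Polynomial Pool.Agent.Helper48.GC8

variable {B : Type} [Fintype B] [DecidableEq B] {k : B → Kind}

/-- The exchange of the letters `e_i` and `f_i`. -/
private def sw97 (k : B → Kind) : Equiv.Perm (Ind k) where
  toFun x := ⟨x.1, x.2.swap⟩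
  invFun x := ⟨x.1, x.2.swap⟩
  left_inv := by
    rintro ⟨b, l⟩
    simp
  right_inv := by
    rintro ⟨b, l⟩
    simp

/-- The eigenbases of one block. -/
private lemma eig_all97 (κ : Kind) {q : ℕ} {M : Matrix κ.Ind κ.Ind ℂ} (hM : κ.InG (q : ℂ) M)
    (hF : IsFrob q M) :
    ∃ (h h' : Matrix κ.Ind κ.Ind ℂ) (δ : κ.Ind → integralClosure ℤ ℂ), Eig κ q M h h' δ ∧
      ∀ p tor, κ = .weil p tor → ∏ i, δ (Sum.inl i) = (q : integralClosure ℤ ℂ) ^ p ∧
        (M.submatrix Sum.inl Sum.inl : Matrix (Fin κ.dim) (Fin κ.dim) ℂ).charpoly =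
          ∏ i, (X - C (δ (Sum.inl i) : ℂ)) := by
  cases κ with
  | sp g =>
    obtain ⟨h, h', δ, hE⟩ := eig_sp hM hF
    refine ⟨h, h', δ, hE, ?_⟩
    intro p tor hc
    cases hc
  | cm =>
    obtain ⟨h, h', δ, hE⟩ := eig_cm hM hF
    refine ⟨h, h', δ, hE, ?_⟩
    intro p tor hc
    cases hc
  | weil p tor =>
    obtain ⟨h, h', δ, hE, h1, h2⟩ := eig_weil hM hF
    refine ⟨h, h', δ, hE, ?_⟩
    intro p' tor' hc
    cases hc
    exact ⟨h1, h2⟩

/-- An eigenbasis of the product. -/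
private structure Dat97 (k : B → Kind) (q : ℕ) (M : Matrix (Ind k) (Ind k) ℂ)
    (δ : Ind k → integralClosure ℤ ℂ) : Prop where
  ex : ∃ (h h' : Matrix (Ind k) (Ind k) ℂ), InGroup k 1 h ∧ h' * h = 1 ∧
    M * h = h * Matrix.diagonal (fun x => (δ x : ℂ))
  inG : InGroup k (q : ℂ) M
  mul : ∀ x, δ x * δ (sw97 k x) = (q : integralClosure ℤ ℂ)
  weil : ∀ b p tor, k b = .weil p tor →
    ∏ i, δ ⟨b, Sum.inl i⟩ = (q : integralClosure ℤ ℂ) ^ p ∧
      (ePart k b M).charpoly = ∏ i, (X - C (δ ⟨b, Sum.inl i⟩ : ℂ))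

private lemma dat97 {q : ℕ} {M : Matrix (Ind k) (Ind k) ℂ} (hF : IsFrob q M)
    (hG : InGroup k (q : ℂ) M) : ∃ δ, Dat97 k q M δ := by
  have hG' := hG
  obtain ⟨hq, Y, hY, rfl⟩ := hG
  have h1 := fun b => eig_all97 (k b) (hY b) (isFrob_block hF b)
  choose h h' δ hE hW using h1
  refine ⟨fun x => δ x.1 x.2, ⟨⟨Matrix.blockDiagonal' h, Matrix.blockDiagonal' h', ?_, ?_, ?_⟩,
    hG', ?_, ?_⟩⟩
  · exact ⟨one_ne_zero, h, fun b => (hE b).inG, rfl⟩
  · rw [← Matrix.blockDiagonal'_mul]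
    have e : (fun b => h' b * h b) = 1 := by
      funext b
      exact (hE b).inv
    rw [e, Matrix.blockDiagonal'_one]
  · rw [← Matrix.blockDiagonal'_mul]
    have e : (fun b => Y b * h b) = fun b => h b * Matrix.diagonal (fun l => (δ b l : ℂ)) := by
      funext b
      exact (hE b).eig
    rw [e, Matrix.blockDiagonal'_mul, Matrix.blockDiagonal'_diagonal]
  · rintro ⟨b, i | i⟩
    · exact (hE b).mul i
    · have := (hE b).mul i
      rw [mul_comm] at this
      exact this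
  · intro b p tor hb
    refine ⟨(hW b p tor hb).1, ?_⟩
    rw [← (hW b p tor hb).2]
    congr 1
    ext i j
    simp [ePart, Matrix.blockDiagonal'_apply_eq]

private lemma charpoly97 {L : Type} [Fintype L] [DecidableEq L] {M h h' : Matrix L L ℂ} {δ : L → ℂ}
    (hinv : h' * h = 1) (he : M * h = h * Matrix.diagonal δ) :
    M.charpoly = ∏ x, (X - C (δ x)) := by
  have h1 : h * h' = 1 := mul_eq_one_comm.mp hinv
  have h2 : M = h * (Matrix.diagonal δ * h') := by
    rw [← mul_assoc, ← he, mul_assoc, h1, mul_one]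
  rw [h2, Matrix.charpoly_mul_comm, mul_assoc, hinv, mul_one, Matrix.charpoly_diagonal]

private lemma root97 {L : Type} [Fintype L] (δ : L → ℂ) (β : ℂ) :
    (∏ x, (X - C (δ x)) : ℂ[X]).IsRoot β ↔ ∃ x, β = δ x := by
  rw [Polynomial.IsRoot, Polynomial.eval_prod, Finset.prod_eq_zero_iff]
  simp only [Finset.mem_univ, true_and, eval_sub, eval_X, eval_C, sub_eq_zero]

private lemma Dat97.charpoly {q : ℕ} {M : Matrix (Ind k) (Ind k) ℂ}
    {δ : Ind k → integralClosure ℤ ℂ} (hD : Dat97 k q M δ) :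
    M.charpoly = ∏ x, (X - C (δ x : ℂ)) := by
  obtain ⟨h, h', _, h2, h3⟩ := hD.ex
  exact charpoly97 h2 h3

/-- generic coefficient -/
private lemma gen97 {L T : Type} [Fintype L] [DecidableEq L] [Fintype T] [DecidableEq T]
    (f : T → L) (d : ℕ) : ∃ E : MvPolynomial (L × L) ℂ, ∀ M : Matrix L L ℂ,
      MvPolynomial.eval (fun p => M p.1 p.2) E = (M.submatrix f f).charpoly.coeff d := by
  refine ⟨((Matrix.mvPolynomialX L L ℂ).submatrix f f).charpoly.coeff d, ?_⟩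
  intro M
  have h1 := Matrix.charpoly_map ((Matrix.mvPolynomialX L L ℂ).submatrix f f)
    (MvPolynomial.eval (fun p : L × L => M p.1 p.2))
  have h2 : ((Matrix.mvPolynomialX L L ℂ).submatrix f f).map
      (MvPolynomial.eval (fun p : L × L => M p.1 p.2)) = M.submatrix f f := by
    ext i j
    simp [Matrix.mvPolynomialX_apply]
  rw [h2] at h1
  rw [h1, Polynomial.coeff_map]

private lemma card97 {J : Type} [DecidableEq J] (fac : B → J) (j : J) (p : Ind k → Prop)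
    [DecidablePred p] :
    (Finset.univ.filter (fun t : {x : Ind k // fac x.1 = j} => p t.1)).card =
      ∑ b ∈ Finset.univ.filter (fun b => fac b = j),
        (Finset.univ.filter (fun l : (k b).Ind => p ⟨b, l⟩)).card := by
  rw [← Finset.card_sigma]
  refine Finset.card_bij (fun t _ => t.1) ?_ ?_ ?_
  · rintro ⟨x, hx⟩ ht
    rw [Finset.mem_filter] at ht
    rw [Finset.mem_sigma, Finset.mem_filter, Finset.mem_filter]
    exact ⟨⟨Finset.mem_univ _, hx⟩, Finset.mem_univ _, ht.2⟩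
  · intro a _ b _ hab
    exact Subtype.ext hab
  · intro x hx
    rw [Finset.mem_sigma, Finset.mem_filter, Finset.mem_filter] at hx
    exact ⟨⟨x, hx.1.2⟩, Finset.mem_filter.2 ⟨Finset.mem_univ _, hx.2.2⟩, rfl⟩

private lemma wit_inl97 {b : B} (hb : (k b).IsPlain) (i : Fin (k b).dim) :
    wit k ⟨b, Sum.inl i⟩ = 10 := by
  simp [wit, hb]

private lemma wit_inr97 {b : B} (hb : (k b).IsPlain) (i : Fin (k b).dim) :
    wit k ⟨b, Sum.inr i⟩ = 1 / 10 := by
  simp [wit, hb]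

/-- What is needed of a factor. -/
private def Key97 (k : B → Kind) {J : Type} (fac : B → J)
    (𝓕 : Set (ℕ × Matrix (Ind k) (Ind k) ℂ)) (j : J) (E : MvPolynomial (Ind k × Ind k) ℂ) : Prop :=
  (∀ z ∈ 𝓕, ∃ n : ℤ, MvPolynomial.eval (fun p => z.2 p.1 p.2) E = n ∧ |n| ≤ (6 : ℕ) * z.1) ∧
  (∀ m : ℤ, |m| ≤ (6 : ℕ) →
    MvPolynomial.eval (fun p => (Matrix.diagonal (wit k)) p.1 p.2) E ≠ m) ∧
  ∀ z ∈ 𝓕, z.1.Prime →
    (∀ n : ℤ, MvPolynomial.eval (fun p => z.2 p.1 p.2) E = n → ¬ (z.1 : ℤ) ∣ n) →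
    ∀ P : Ideal (integralClosure ℤ ℂ), P.IsPrime → (z.1 : integralClosure ℤ ℂ) ∈ P →
      ∀ δ, Dat97 k z.1 z.2 δ → ∀ x, fac x.1 = j → δ x ∉ P ∨ δ (sw97 k x) ∉ P

private lemma bound97 {q n' : ℕ} {n : ℤ} (h : ‖(n : ℂ)‖ ≤ (n' : ℝ) * q) : |n| ≤ (n' : ℕ) * (q : ℤ) := by
  rw [Complex.norm_intCast] at h
  have h2 : ((|n| : ℤ) : ℝ) ≤ (((n' : ℕ) * (q : ℤ) : ℤ) : ℝ) := by
    push_cast
    exact h
  exact_mod_cast h2

private lemma surf97 {J : Type} [DecidableEq J] (fac : B → J)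
    {𝓕 : Set (ℕ × Matrix (Ind k) (Ind k) ℂ)}
    (h𝓕 : ∀ z ∈ 𝓕, IsFrob z.1 z.2 ∧ InGroup k (z.1 : ℂ) z.2)
    (hnorm : ∀ z ∈ 𝓕, ∀ β : ℂ, z.2.charpoly.IsRoot β → ‖β‖ = Real.sqrt z.1)
    (j : J) (hj : IsSurface k fac 𝓕 j) {d : ℕ}
    (hd : ∑ b ∈ Finset.univ.filter (fun b => fac b = j), (k b).dim = d) (hd1 : 1 ≤ d) :
    ∃ E, Key97 k fac 𝓕 j E := by
  classical
  have hd2 : d ≤ 2 := by rw [← hd]; exact hj.dim
  have hplain : ∀ b ∈ Finset.univ.filter (fun b => fac b = j), (k b).IsPlain := fun b hb =>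
    hj.plain b (Finset.mem_filter.1 hb).2
  have hT : Fintype.card {x : Ind k // fac x.1 = j} = 2 * d := by
    have h1 := card97 (k := k) fac j (fun _ => True)
    simp only [Finset.filter_true, Finset.card_univ] at h1
    rw [h1, ← hd, Finset.mul_sum]
    refine Finset.sum_congr rfl fun b _ => ?_
    simp only [Fintype.card_sum, Fintype.card_fin]
    ring
  have hw : (Finset.univ.filter (fun t : {x : Ind k // fac x.1 = j} => wit k t.1 = 10)).card = d := by
    rw [card97 (k := k) fac j (fun x => wit k x = 10), ← hd]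
    refine Finset.sum_congr rfl fun b hb => ?_
    rw [Finset.card_filter, Fintype.sum_sum_type]
    simp only [wit_inl97 (hplain b hb), wit_inr97 (hplain b hb), if_true]
    norm_num
  have hw' : (Finset.univ.filter
      (fun t : {x : Ind k // fac x.1 = j} => wit k t.1 = 1 / 10)).card = d := by
    rw [card97 (k := k) fac j (fun x => wit k x = 1 / 10), ← hd]
    refine Finset.sum_congr rfl fun b hb => ?_
    rw [Finset.card_filter, Fintype.sum_sum_type]
    simp only [wit_inl97 (hplain b hb), wit_inr97 (hplain b hb), if_true]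
    norm_num
  obtain ⟨E, hE⟩ := gen97 (L := Ind k) (Subtype.val : {x : Ind k // fac x.1 = j} → Ind k) d
  have hcoef : ∀ z ∈ 𝓕, ∀ δ, Dat97 k z.1 z.2 δ →
      MvPolynomial.eval (fun p => z.2 p.1 p.2) E =
        (∏ x : {x : Ind k // fac x.1 = j}, (X - C (δ x.1 : ℂ))).coeff d := by
    intro z hz δ hδ
    obtain ⟨h, h', hh, hinv, he⟩ := hδ.ex
    rw [hE, ← charpoly_facPart fac j hδ.inG hh hinv he]
    rfl
  refine ⟨E, ?_, ?_, ?_⟩
  · intro z hz
    obtain ⟨δ, hδ⟩ := dat97 (h𝓕 z hz).1 (h𝓕 z hz).2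
    obtain ⟨Q, hQ⟩ := hj.int z hz
    have e1 : MvPolynomial.eval (fun p => z.2 p.1 p.2) E = ((Q.coeff d : ℤ) : ℂ) := by
      rw [hE]
      change (facPart k fac j z.2).charpoly.coeff d = _
      rw [← hQ, Polynomial.coeff_map]
      rfl
    refine ⟨Q.coeff d, e1, ?_⟩
    apply bound97
    rw [← e1, hcoef z hz δ hδ]
    have := coeff_bound hd1 hd2 hT (fun t => (δ t.1 : ℂ)) (h𝓕 z hz).1.two_le (fun t =>
      hnorm z hz _ (by rw [hδ.charpoly, root97 (fun x => (δ x : ℂ))]; exact ⟨t.1, rfl⟩))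
    push_cast
    exact this
  · intro m hm
    rw [hE]
    have e2 : (Matrix.diagonal (wit k)).submatrix
        (Subtype.val : {x : Ind k // fac x.1 = j} → Ind k) Subtype.val =
        Matrix.diagonal (fun t => wit k t.1) :=
      Matrix.submatrix_diagonal _ _ Subtype.val_injective
    rw [e2, Matrix.charpoly_diagonal]
    exact val_ne hd1 hd2 hT _ hw hw' (by exact_mod_cast hm)
  · intro z hz hq hn P hP hqP δ hδ x hx
    obtain ⟨Q, hQ⟩ := hj.int z hz
    have e1 : MvPolynomial.eval (fun p => z.2 p.1 p.2) E = ((Q.coeff d : ℤ) : ℂ) := by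
      rw [hE]
      change (facPart k fac j z.2).charpoly.coeff d = _
      rw [← hQ, Polynomial.coeff_map]
      rfl
    have e2 := hcoef z hz δ hδ
    rw [e1] at e2
    exact ord_surface hT ((sw97 k).subtypePerm (fun x => Iff.rfl))
      (fun t => Subtype.ext ((sw97 k).left_inv t.1)) (fun t => δ t.1) hq (fun t => hδ.mul t.1)
      hP hqP e2.symm (hn _ e1) ⟨x, hx⟩

private lemma even97 (n : ℕ) (hn : n = 4) (w : Fin n → ℂ)
    (hw : ∀ i, w i = if Even (i : ℕ) then (10 : ℂ) else 1 / 10) :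
    (Finset.univ.filter (fun i => w i = 10)).card = 2 ∧
      (Finset.univ.filter (fun i => w i = 1 / 10)).card = 2 := by
  subst hn
  have h1 : (Finset.univ.filter (fun i => w i = 10)) =
      Finset.univ.filter (fun i : Fin 4 => Even (i : ℕ)) := by
    refine Finset.filter_congr fun i _ => ?_
    rw [hw]
    split_ifs with h
    · simp [h]
    · simp only [h, iff_false]
      norm_num
  have h2 : (Finset.univ.filter (fun i => w i = 1 / 10)) =
      Finset.univ.filter (fun i : Fin 4 => ¬ Even (i : ℕ)) := by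
    refine Finset.filter_congr fun i _ => ?_
    rw [hw]
    split_ifs with h
    · simp only [h, not_true, iff_false]
      norm_num
    · simp [h]
  rw [h1, h2]
  decide

private lemma four97 {J : Type} (fac : B → J)
    {𝓕 : Set (ℕ × Matrix (Ind k) (Ind k) ℂ)}
    (h𝓕 : ∀ z ∈ 𝓕, IsFrob z.1 z.2 ∧ InGroup k (z.1 : ℂ) z.2)
    (hnorm : ∀ z ∈ 𝓕, ∀ β : ℂ, z.2.charpoly.IsRoot β → ‖β‖ = Real.sqrt z.1)
    (j : J) (hj : IsFourfold k fac 𝓕 j) :
    ∃ E, Key97 k fac 𝓕 j E := by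
  classical
  obtain ⟨b, hb, ⟨tor, hkb⟩, hint⟩ := hj
  have hdim : (k b).dim = 4 := by rw [hkb]
  have hnp : ¬ (k b).IsPlain := by rw [hkb]; exact id
  have hT : Fintype.card (Fin (k b).dim) = 2 * 2 := by rw [Fintype.card_fin, hdim]
  obtain ⟨hw, hw'⟩ := even97 _ hdim (fun i => wit k ⟨b, Sum.inl i⟩) (fun i => by
    simp [wit, hnp])
  obtain ⟨E, hE⟩ := gen97 (L := Ind k) (fun i : Fin (k b).dim => (⟨b, Sum.inl i⟩ : Ind k)) 2
  have hcoef : ∀ z ∈ 𝓕, ∀ δ, Dat97 k z.1 z.2 δ →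
      MvPolynomial.eval (fun p => z.2 p.1 p.2) E =
        (∏ i : Fin (k b).dim, (X - C (δ ⟨b, Sum.inl i⟩ : ℂ))).coeff 2 := by
    intro z hz δ hδ
    rw [hE, ← (hδ.weil b 2 tor hkb).2]
    rfl
  refine ⟨E, ?_, ?_, ?_⟩
  · intro z hz
    obtain ⟨δ, hδ⟩ := dat97 (h𝓕 z hz).1 (h𝓕 z hz).2
    obtain ⟨n, hn⟩ := hint z hz
    have e1 : MvPolynomial.eval (fun p => z.2 p.1 p.2) E = (n : ℂ) := by
      rw [hE]
      exact hn
    refine ⟨n, e1, ?_⟩
    apply bound97
    rw [← e1, hcoef z hz δ hδ]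
    have := coeff_bound (d := 2) (by norm_num) le_rfl hT (fun i => (δ ⟨b, Sum.inl i⟩ : ℂ))
      (h𝓕 z hz).1.two_le (fun t =>
      hnorm z hz _ (by rw [hδ.charpoly, root97 (fun x => (δ x : ℂ))]; exact ⟨_, rfl⟩))
    push_cast
    exact this
  · intro m hm
    rw [hE]
    have hinj : Function.Injective (fun i : Fin (k b).dim => (⟨b, Sum.inl i⟩ : Ind k)) := by
      intro i i' h
      have h2 := eq_of_heq (Sigma.mk.inj h).2
      exact Sum.inl_injective h2
    rw [Matrix.submatrix_diagonal _ _ hinj, Matrix.charpoly_diagonal]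
    exact val_ne (by norm_num) le_rfl hT _ hw hw' (by exact_mod_cast hm)
  · intro z hz hq hn P hP hqP δ hδ x hx
    obtain ⟨n, hn'⟩ := hint z hz
    have e1 : MvPolynomial.eval (fun p => z.2 p.1 p.2) E = (n : ℂ) := by
      rw [hE]
      exact hn'
    have e2 := hcoef z hz δ hδ
    rw [e1] at e2
    obtain ⟨b', l⟩ := x
    have hbb : b' = b := hb b' hx
    subst hbb
    have h1 : ∏ i : Fin 4, δ ⟨b', Sum.inl (Fin.cast hdim.symm i)⟩ = (z.1 : integralClosure ℤ ℂ) ^ 2 := by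
      rw [← (hδ.weil b' 2 tor hkb).1]
      exact Fintype.prod_equiv (finCongr hdim.symm) _ _ (fun i => rfl)
    have h2 : (∏ i : Fin 4, (X - C (δ ⟨b', Sum.inl (Fin.cast hdim.symm i)⟩ : ℂ))).coeff 2 = (n : ℂ) := by
      rw [e2]
      congr 1
      exact Fintype.prod_equiv (finCongr hdim.symm) _ _ (fun i => rfl)
    have key := ord_fourfold (fun i => δ ⟨b', Sum.inl (Fin.cast hdim.symm i)⟩)
      (fun i => δ ⟨b', Sum.inr (Fin.cast hdim.symm i)⟩) hq (fun i => hδ.mul _) h1 hP hqP h2 (hn n e1)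
    rcases l with i | i
    · exact key (Fin.cast hdim i)
    · exact (key (Fin.cast hdim i)).symm

theorem ordinary_all {J : Type} [Fintype J] [DecidableEq J] (fac : B → J)
    {𝓕 : Set (ℕ × Matrix (Ind k) (Ind k) ℂ)}
    (h𝓕 : ∀ z ∈ 𝓕, IsFrob z.1 z.2 ∧ InGroup k (z.1 : ℂ) z.2)
    (hnorm : ∀ z ∈ 𝓕, ∀ β : ℂ, z.2.charpoly.IsRoot β → ‖β‖ = Real.sqrt z.1)
    (hfac : ∀ j, IsSurface k fac 𝓕 j ∨ IsFourfold k fac 𝓕 j)
    (hdense : ∀ f : MvPolynomial (Option (Ind k × Ind k)) ℂ,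
      (∀ z ∈ 𝓕, z.1.Prime →
        MvPolynomial.eval (fun o => o.elim (z.1 : ℂ) (fun p => z.2 p.1 p.2)) f = 0) →
      ∀ (c : ℂ) (M : Matrix (Ind k) (Ind k) ℂ), InGroup k c M →
        MvPolynomial.eval (fun o => o.elim c (fun p => M p.1 p.2)) f = 0) :
    ∃ z ∈ 𝓕, ∀ P : Ideal (integralClosure ℤ ℂ), P.IsPrime →
      (z.1 : integralClosure ℤ ℂ) ∈ P → IsOrd z.1 P z.2 := by
  classical
  have hkey : ∀ j : {j : J // ∃ b, fac b = j ∧ 1 ≤ (k b).dim}, ∃ E, Key97 k fac 𝓕 j.1 E := by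
    rintro ⟨j, b, hbj, hb1⟩
    rcases hfac j with h1 | h1
    · refine surf97 fac h𝓕 hnorm j h1 rfl ?_
      exact hb1.trans (Finset.single_le_sum (f := fun b => (k b).dim) (fun _ _ => Nat.zero_le _)
        (Finset.mem_filter.2 ⟨Finset.mem_univ _, hbj⟩))
    · exact four97 fac h𝓕 hnorm j h1
  choose E hE using hkey
  obtain ⟨z, hz, hq, hco⟩ := exists_coprime (G := InGroup k) (𝓕 := 𝓕) E 6
    (fun z hz j => (hE j).1 z hz) hdense (wit_inGroup k) (fun j m hm => (hE j).2.1 m hm)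
  refine ⟨z, hz, ?_⟩
  intro P hP hqP β hβ
  obtain ⟨δ, hδ⟩ := dat97 (h𝓕 z hz).1 (h𝓕 z hz).2
  rw [hδ.charpoly, root97 (fun x => (δ x : ℂ))] at hβ
  obtain ⟨x, rfl⟩ := hβ
  have hb1 : 1 ≤ (k x.1).dim := by
    obtain ⟨b, l⟩ := x
    rcases l with i | i
    · exact Nat.succ_le_of_lt (lt_of_le_of_lt (Nat.zero_le _) i.2)
    · exact Nat.succ_le_of_lt (lt_of_le_of_lt (Nat.zero_le _) i.2)
  have hor := (hE ⟨fac x.1, x.1, rfl, hb1⟩).2.2 z hz hq (hco ⟨fac x.1, x.1, rfl, hb1⟩) P hP hqP δ hδ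
    x rfl
  have hq0 : (z.1 : ℂ) ≠ 0 := by exact_mod_cast hq.ne_zero
  have hmul : (δ x : ℂ) * (δ (sw97 k x) : ℂ) = (z.1 : ℂ) := by
    have := congrArg (fun y : integralClosure ℤ ℂ => (y : ℂ)) (hδ.mul x)
    simpa using this
  have hx0 : (δ x : ℂ) ≠ 0 := by
    intro h0
    rw [h0, zero_mul] at hmul
    exact hq0 hmul.symm
  have hdiv : (z.1 : ℂ) / (δ x : ℂ) = (δ (sw97 k x) : ℂ) := by
    rw [← hmul, mul_div_cancel_left₀ _ hx0]
  rcases hor with h1 | h1
  · left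
    intro y hy hyx
    exact h1 ((Subtype.ext hyx : y = δ x) ▸ hy)
  · right
    intro y hy hyx
    rw [hdiv] at hyx
    exact h1 ((Subtype.ext hyx : y = δ (sw97 k x)) ▸ hy)

end Pool.Agent.Helper48.PW
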