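import Pool.Agent.Helper48.PW.Kind

/-!
# PW: definitions for the automatic existence of ordinary places
-/

set_option autoImplicit false

namespace Pool.Agent.Helper48.PW

open Polynomial Pool.Agent.Helper48.GC8

/-- Not of Weil type. -/
def Kind.IsPlain : Kind → Prop
  | .weil _ _ => False
  | _ => True

variable {B : Type} [Fintype B] [DecidableEq B] (k : B → Kind)

/-- The part of the matrix of the factor `j`. -/
def facPart {J : Type} (fac : B → J) (j : J) (M : Matrix (Ind k) (Ind k) ℂ) :
    Matrix {x : Ind k // fac x.1 = j} {x : Ind k // fac x.1 = j} ℂ :=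
  M.submatrix Subtype.val Subtype.val

/-- The part of the matrix on the letters `e_i` of the block `b`. -/
def ePart (b : B) (M : Matrix (Ind k) (Ind k) ℂ) : Matrix (Fin (k b).dim) (Fin (k b).dim) ℂ :=
  M.submatrix (fun i => ⟨b, Sum.inl i⟩) (fun i => ⟨b, Sum.inl i⟩)

/-- The factor `j` consists of symplectic and CM blocks, has dimension at most two (the blocks
have total dimension at most `4`), and its characteristic polynomials have integer coefficients. -/
structure IsSurface {J : Type} [DecidableEq J] (fac : B → J)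
    (𝓕 : Set (ℕ × Matrix (Ind k) (Ind k) ℂ)) (j : J) : Prop where
  plain : ∀ b, fac b = j → (k b).IsPlain
  dim : ∑ b ∈ Finset.univ.filter (fun b => fac b = j), (k b).dim ≤ 2
  int : ∀ z ∈ 𝓕, ∃ Q : ℤ[X], Q.map (Int.castRingHom ℂ) = (facPart k fac j z.2).charpoly

/-- The factor `j` is one block of Weil type `(2, 2)`, and the middle coefficients of the
characteristic polynomials on the letters `e_i` are integers. -/
def IsFourfold {J : Type} (fac : B → J) (𝓕 : Set (ℕ × Matrix (Ind k) (Ind k) ℂ)) (j : J) : Prop :=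
  ∃ b, (∀ b', fac b' = j → b' = b) ∧ (∃ tor, k b = .weil 2 tor) ∧
    ∀ z ∈ 𝓕, ∃ n : ℤ, (ePart k b z.2).charpoly.coeff 2 = (n : ℂ)

/-- For all admissible `s`, `s'` some automorphism of the field `ℂ` maps the set of the eigenvalues
at the torus letters chosen by `s` onto the one for `s'`. -/
def IsDisjoint (𝓕 : Set (ℕ × Matrix (Ind k) (Ind k) ℂ)) : Prop :=
  ∀ z ∈ 𝓕, ∀ s s' : ∀ b, Finset (Fin (k b).dim), (∀ b, (k b).Adm (s b)) →
    (∀ b, (k b).Adm (s' b)) → ∃ σ : ℂ ≃+* ℂ, ∀ b', ∀ i' ∈ (k b').tor, ∃ b, ∃ i ∈ (k b).tor,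
      σ (z.2 (letter k s b i) (letter k s b i)) = z.2 (letter k s' b' i') (letter k s' b' i')

end Pool.Agent.Helper48.PW
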