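import Pool.Agent.Helper48.PW.AutoDefs
import Pool.Agent.Helper48.PW.WeilFrame
import Pool.Agent.Helper48.PW.SpFrame
import Pool.Agent.Helper48.PW.Cm
import Pool.Agent.Helper48.PW.FrameProd
import Pool.Agent.Helper48.GC8.Arith

/-!
# PW-DIS: ordinary at all primes and disjointness give `HasUnits`

`hasUnits_of_disjoint`. PROOF. Take `z = (q, M)` from `hall`, `M = blockDiagonal' X`, and a prime
`P1` over `q` (`exists_prime` in Helper48/GC8/Arith.lean, `2 ≤ q`). For each block take `Eig` from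
`eig_sp`, `eig_cm`, `eig_weil` (`X b` is `IsFrob` by `isFrob_block`), with `δ b`. Let `s b = univ`
for `sp`, and `s b = {i | δ b (inl i) ∉ P1}` for the other two types. `s` is admissible: for Weil
type `(p, p)` use `card_units` (`δ e_i δ f_i = q`, `∏ δ e_i = q ^ p`, and for `i ∉ s b`,
`δ f_i ∉ P1` by ordinarity: `IsOrd` at the root `δ e_i` of the characteristic polynomial of `X b`,
`isOrd_block`). The torus letters chosen by `s` have eigenvalues outside of `P1`: for `i ∈ s b` by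
definition, for `i ∉ s b`, `δ f_i ∉ P1` again by ordinarity (`Eig.torl`, `Eig.torr` identify them
with the diagonal entries of `M`). Given the admissible `s'` of `HasUnits` take `σ` from `hdis` for
`s`, `s'` and let `P` be the image of `P1` under `σ` (comap of `P1` under `σ⁻¹` acting on
`integralClosure ℤ ℂ`, see the end of Helper48/WT/Auto.lean). `P` is prime, contains `q`, so `M` is
ordinary at `P` by `hall`, and the eigenvalue at the torus letter `letter s' b' i'` is `σ` of an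
eigenvalue outside of `P1`, hence outside of `P`.
-/

set_option autoImplicit false

namespace Pool.Agent.Helper48.PW

open Polynomial Pool.Agent.Helper48.GC8

/-- The eigenvalues are roots of the characteristic polynomial. -/
private lemma h35_root {K : Kind} {q : ℕ} {M h h' : Matrix K.Ind K.Ind ℂ}
    {δ : K.Ind → integralClosure ℤ ℂ} (hE : Eig K q M h h' δ) (l : K.Ind) :
    M.charpoly.IsRoot (δ l : ℂ) := by
  have h1 : h * h' = 1 := mul_eq_one_comm.1 hE.inv
  have h2 : M = h * Matrix.diagonal (fun l => (δ l : ℂ)) * h' := by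
    rw [← hE.eig, Matrix.mul_assoc, h1, Matrix.mul_one]
  have h3 : M.charpoly = ∏ a : K.Ind, (X - C (δ a : ℂ)) := by
    rw [h2, Matrix.charpoly_mul_comm, ← Matrix.mul_assoc, hE.inv, Matrix.one_mul,
      Matrix.charpoly_diagonal]
  rw [h3, IsRoot.def, eval_prod]
  exact Finset.prod_eq_zero (Finset.mem_univ l) (by simp)

/-- One of the two eigenvalues is outside of `P`. -/
private lemma h35_ord {K : Kind} {q : ℕ} (hq : 2 ≤ q) {M h h' : Matrix K.Ind K.Ind ℂ}
    {δ : K.Ind → integralClosure ℤ ℂ} (hE : Eig K q M h h' δ)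
    {P : Ideal (integralClosure ℤ ℂ)} (hord : IsOrd q P M) (i : Fin K.dim) :
    δ (Sum.inl i) ∉ P ∨ δ (Sum.inr i) ∉ P := by
  have hmul : (δ (Sum.inl i) : ℂ) * (δ (Sum.inr i) : ℂ) = q := by
    have := congrArg (fun x : integralClosure ℤ ℂ => (x : ℂ)) (hE.mul i)
    push_cast at this
    exact this
  have hq0 : (q : ℂ) ≠ 0 := by
    have : q ≠ 0 := by omega
    exact_mod_cast this
  have h0 : (δ (Sum.inl i) : ℂ) ≠ 0 := by
    intro h0
    rw [h0, zero_mul] at hmul
    exact hq0 hmul.symm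
  rcases hord _ (h35_root hE (Sum.inl i)) with h1 | h1
  · exact Or.inl fun hx => h1 _ hx rfl
  · refine Or.inr fun hx => h1 _ hx ?_
    rw [eq_div_iff h0, mul_comm]
    exact hmul

private lemma h35_letters {K : Kind} {q : ℕ} (hq : 2 ≤ q) {M h h' : Matrix K.Ind K.Ind ℂ}
    {δ : K.Ind → integralClosure ℤ ℂ} (hE : Eig K q M h h' δ)
    {P : Ideal (integralClosure ℤ ℂ)} (hord : IsOrd q P M) {s : Finset (Fin K.dim)}
    (hs : ∀ i, i ∈ s ↔ δ (Sum.inl i) ∉ P) :
    ∀ i ∈ K.tor, ∀ x ∈ P, (x : ℂ) ≠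
      M (if i ∈ s then Sum.inl i else Sum.inr i) (if i ∈ s then Sum.inl i else Sum.inr i) := by
  intro i hi x hx hxe
  by_cases his : i ∈ s
  · rw [if_pos his, ← hE.torl i hi] at hxe
    exact (hs i).1 his (by rwa [show δ (Sum.inl i) = x from Subtype.ext hxe.symm])
  · rw [if_neg his, ← hE.torr i hi] at hxe
    have h1 : δ (Sum.inl i) ∈ P := by
      by_contra hc
      exact his ((hs i).2 hc)
    rcases h35_ord hq hE hord i with h2 | h2
    · exact h2 h1
    · exact h2 (by rwa [show δ (Sum.inr i) = x from Subtype.ext hxe.symm])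

/-- An admissible set of unit letters in each block. -/
private lemma h35_block (K : Kind) {q : ℕ} (hq : 2 ≤ q) {M : Matrix K.Ind K.Ind ℂ}
    (hM : K.InG (q : ℂ) M) (hF : IsFrob q M) {P : Ideal (integralClosure ℤ ℂ)} (hP : P.IsPrime)
    (hqP : (q : integralClosure ℤ ℂ) ∈ P) (hord : IsOrd q P M) :
    ∃ s : Finset (Fin K.dim), K.Adm s ∧ ∀ i ∈ K.tor, ∀ x ∈ P, (x : ℂ) ≠
      M (if i ∈ s then Sum.inl i else Sum.inr i) (if i ∈ s then Sum.inl i else Sum.inr i) := by
  classical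
  cases K with
  | sp g =>
    refine ⟨Finset.univ, rfl, ?_⟩
    intro i hi
    exact absurd hi (Finset.notMem_empty i)
  | cm =>
    obtain ⟨h, h', δ, hE⟩ := eig_cm hM hF
    refine ⟨Finset.univ.filter (fun i => δ (Sum.inl i) ∉ P), trivial, ?_⟩
    exact h35_letters hq hE hord fun i =>
      ⟨fun hi => (Finset.mem_filter.1 hi).2, fun hi => Finset.mem_filter.2 ⟨Finset.mem_univ _, hi⟩⟩
  | weil p tor =>
    obtain ⟨h, h', δ, hE, hprod, -⟩ := eig_weil hM hF
    refine ⟨Finset.univ.filter (fun i => δ (Sum.inl i) ∉ P), ?_, ?_⟩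
    · refine card_units hq (fun i => δ (Sum.inl i)) (fun i => δ (Sum.inr i)) (fun i => hE.mul i)
        hprod hP hqP _ ?_ ?_
      · intro i hi
        exact (Finset.mem_filter.1 hi).2
      · intro i hi
        have h1 : δ (Sum.inl i) ∈ P := by
          by_contra hc
          exact hi (Finset.mem_filter.2 ⟨Finset.mem_univ _, hc⟩)
        exact (h35_ord hq hE hord i).resolve_left fun h2 => h2 h1
    · exact h35_letters hq hE hord fun i =>
        ⟨fun hi => (Finset.mem_filter.1 hi).2, fun hi => Finset.mem_filter.2 ⟨Finset.mem_univ _, hi⟩⟩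

theorem hasUnits_of_disjoint {B : Type} [Fintype B] [DecidableEq B] {k : B → Kind}
    {𝓕 : Set (ℕ × Matrix (Ind k) (Ind k) ℂ)}
    (h𝓕 : ∀ z ∈ 𝓕, IsFrob z.1 z.2 ∧ InGroup k (z.1 : ℂ) z.2) (hdis : IsDisjoint k 𝓕)
    (hall : ∃ z ∈ 𝓕, ∀ P : Ideal (integralClosure ℤ ℂ), P.IsPrime →
      (z.1 : integralClosure ℤ ℂ) ∈ P → IsOrd z.1 P z.2) : HasUnits k 𝓕 := by
  obtain ⟨z, hz, hall⟩ := hall
  obtain ⟨hF, -, X, hX, hM⟩ := h𝓕 z hz
  obtain ⟨P1, hP1, hqP1⟩ := exists_prime hF.two_le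
  have hblock : ∀ b, ∃ s : Finset (Fin (k b).dim), (k b).Adm s ∧ ∀ i ∈ (k b).tor, ∀ x ∈ P1,
      (x : ℂ) ≠ X b (if i ∈ s then Sum.inl i else Sum.inr i)
        (if i ∈ s then Sum.inl i else Sum.inr i) := by
    intro b
    have hF' : IsFrob z.1 (Matrix.blockDiagonal' X) := hM ▸ hF
    have hO' : IsOrd z.1 P1 (Matrix.blockDiagonal' X) := hM ▸ hall P1 hP1 hqP1
    exact h35_block (k b) hF.two_le (hX b) (isFrob_block hF' b) hP1 hqP1 (isOrd_block hO' b)
  choose s hs hsP using hblock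
  intro s' hs'
  obtain ⟨σ, hσ⟩ := hdis z hz s s' hs hs'
  let τ : integralClosure ℤ ℂ ≃ₐ[ℤ] integralClosure ℤ ℂ :=
    (σ.symm.toIntAlgEquiv).mapIntegralClosure
  have hτ : ∀ x : integralClosure ℤ ℂ, ((τ x : integralClosure ℤ ℂ) : ℂ) = σ.symm (x : ℂ) :=
    fun x => rfl
  let P : Ideal (integralClosure ℤ ℂ) := P1.comap (τ : _ →ₐ[ℤ] _)
  have hmem : ∀ x, x ∈ P ↔ τ x ∈ P1 := fun x => Iff.rfl
  have hP : P.IsPrime := Ideal.comap_isPrime _ _
  have hqP : (z.1 : integralClosure ℤ ℂ) ∈ P := by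
    rw [hmem, map_natCast]
    exact hqP1
  refine ⟨z, hz, P, hP, hqP, hall P hP hqP, ?_⟩
  intro b' i' hi' x hx hxe
  obtain ⟨b, i, hi, hbi⟩ := hσ b' i' hi'
  refine hsP b i hi (τ x) ((hmem x).1 hx) ?_
  rw [hτ, hxe, ← hbi, RingEquiv.symm_apply_apply]
  conv_lhs => rw [hM]
  exact Matrix.blockDiagonal'_apply_eq _ _ _ _

end Pool.Agent.Helper48.PW
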