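import Pool.Agent.Helper48.PW.Defs

/-!
# PW: the arithmetic contradiction
-/

set_option autoImplicit false

namespace Pool.Agent.Helper48.PW

open Polynomial Pool.Agent.Helper48.GC8

variable {L : Type} [Fintype L] [DecidableEq L] {G : Grp L} {ι : Type} [Fintype ι] [DecidableEq ι]

theorem contra {𝓕 : Set (ℕ × Matrix L L ℂ)} {S : Set L} (hreal : Realised G 𝓕 S) {t : ℕ}
    (ht : 1 ≤ t) {U : Submodule ℂ (Ten ι L)} (hst : Stab G U) (hgood : Good 𝓕 t U)
    {u : Ten ι L} (hu : u ∈ U) {y : ι → L} (hy : u y ≠ 0) (hyS : ∀ a, y a ∈ S) : False := by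
  obtain ⟨z, hz, hq0, P, hP, hqP, h, h', δ, hG, hinv, hsemi, hS⟩ := hreal
  obtain ⟨Q, hQ1, hQ2⟩ := hgood z hz
  have h1 := hQ2 _ (hst 1 h hG u hu)
  have h2 := aeval_semiconj (rho Finset.univ h)
    (rho Finset.univ (Matrix.diagonal (fun l => (δ l : ℂ))))
    (rho Finset.univ z.2) (fun v => by
      rw [← Module.End.mul_apply, ← Module.End.mul_apply, ← rho_mul, ← rho_mul, hsemi]) Q u
  rw [h1] at h2
  have h3 : aeval (rho Finset.univ (Matrix.diagonal (fun l => (δ l : ℂ)))) Q u = 0 := by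
    have h4 := congrArg (rho Finset.univ h') h2
    rw [← Module.End.mul_apply, ← rho_mul, hinv, rho_one, map_zero] at h4
    exact h4
  let ev : Ten ι L →ₗ[ℂ] ℂ := LinearMap.proj y
  have h4 := aeval_semiconj ev (rho Finset.univ (Matrix.diagonal (fun l => (δ l : ℂ))))
    (algebraMap ℂ (Module.End ℂ ℂ) (∏ k, (δ (y k) : ℂ))) (fun v => by
      simp only [ev, LinearMap.proj_apply]
      rw [rho_diag]
      simp) Q u
  rw [h3, map_zero, aeval_algebraMap_apply] at h4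
  have h5 : eval (∏ k, (δ (y k) : ℂ)) Q * u y = 0 := by
    have h6 := h4.symm
    simpa [ev, Polynomial.aeval_def] using h6
  have h6 : Q.IsRoot (∏ k, (δ (y k) : ℂ)) := (mul_eq_zero.1 h5).resolve_right hy
  have h7 := hQ1 _ h6
  have h8 : ∏ k, δ (y k) = (z.1 : integralClosure ℤ ℂ) ^ t *
      (⟨(∏ k, (δ (y k) : ℂ)) / (z.1 : ℂ) ^ t, h7⟩ : integralClosure ℤ ℂ) := by
    apply Subtype.ext
    push_cast
    rw [mul_div_cancel₀ _ (pow_ne_zero t hq0)]
  have h9 : ∏ k, δ (y k) ∈ P := by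
    rw [h8]
    refine P.mul_mem_right _ ?_
    obtain ⟨m, rfl⟩ : ∃ m, t = m + 1 := ⟨t - 1, by omega⟩
    rw [pow_succ]
    exact P.mul_mem_left _ hqP
  rw [hP.prod_mem_iff] at h9
  obtain ⟨a, -, h10⟩ := h9
  exact hS _ (hyS a) h10

end Pool.Agent.Helper48.PW
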