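import Pool.Agent.Helper48.WT.Basic

/-!
# Products of abelian varieties with big monodromy: definitions (project PW)

A factor has a type (`Kind`), the letters `inl i = e_i`, `inr i = f_i` (`Kind.Ind`, a basis of its
`H¹`) and a group of similitudes (`Kind.InG`).  The group of the product consists of the block
diagonal matrices with one multiplier.
-/

set_option autoImplicit false

namespace Pool.Agent.Helper48.PW

open Polynomial Pool.Agent.Helper48.GC8

/-! ### The generic theory -/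

/-- A group, given by the pairs (multiplier, matrix). -/
abbrev Grp (L : Type) : Type := ℂ → Matrix L L ℂ → Prop

/-- What is needed of the group. -/
structure IsGrp {L : Type} [DecidableEq L] (G : Grp L) : Prop where
  ne : ∀ (c : ℂ) (M : Matrix L L ℂ), G c M → c ≠ 0
  star : ∀ (c : ℂ) (M : Matrix L L ℂ), G c M → G (star c) M.conjTranspose
  scal : ∀ t : ℂ, t ≠ 0 → G (t ^ 2) (t • (1 : Matrix L L ℂ))

section Generic

variable {L : Type} [Fintype L] [DecidableEq L] (G : Grp L) {ι κ : Type} [Fintype ι]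
  [DecidableEq ι] [Fintype κ] [DecidableEq κ]

/-- Stability of a space of tensors under the group. -/
def Stab (U : Submodule ℂ (Ten ι L)) : Prop :=
  ∀ (c : ℂ) (M : Matrix L L ℂ), G c M → ∀ u ∈ U, rho Finset.univ M u ∈ U

/-- The eigenvalues of the Frobenii on `U` are divisible by `q ^ t`. -/
def Good (𝓕 : Set (ℕ × Matrix L L ℂ)) (t : ℕ) (U : Submodule ℂ (Ten ι L)) : Prop :=
  ∀ z ∈ 𝓕, ∃ Q : ℂ[X], (∀ β : ℂ, Q.IsRoot β → IsIntegral ℤ (β / (z.1 : ℂ) ^ t)) ∧
    ∀ u ∈ U, aeval (rho Finset.univ z.2) Q u = 0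

/-- Equivariant maps with Tate twist `t`. -/
def Equi (t : ℕ) (φ : Ten κ L →ₗ[ℂ] Ten ι L) : Prop :=
  ∀ (c : ℂ) (M : Matrix L L ℂ), G c M → ∀ u,
    rho Finset.univ M (φ u) = c ^ t • φ (rho Finset.univ M u)

/-- Equivariant contractions of degree one. -/
def CoEqui (φ : Ten ι L →ₗ[ℂ] Ten κ L) : Prop :=
  ∀ (c : ℂ) (M : Matrix L L ℂ), G c M → ∀ u,
    φ (rho Finset.univ M u) = c • rho Finset.univ M (φ u)

/-- The tensor is killed by all equivariant contractions of degree one. -/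
def Killed (u : Ten ι L) : Prop :=
  ∀ φ : Ten ι L →ₗ[ℂ] Ten (Fin (Fintype.card ι - 2)) L, CoEqui G φ → φ u = 0

variable (ι) in
/-- The span of the images of all equivariant maps from the tensors of degree `|ι| - 2ν`. -/
def tt (ν : ℕ) : Submodule ℂ (Ten ι L) :=
  Submodule.span ℂ {x | ∃ φ : Ten (Fin (Fintype.card ι - 2 * ν)) L →ₗ[ℂ] Ten ι L,
    Equi G ν φ ∧ ∃ y, x = φ y}

/-- The elements of `Λⁱ(Vⁿ)` obtained from `Λ^(i-2ν)(Vᵐ)`, for some `m`, by linear maps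
commuting with the group up to the factor `c ^ ν`. -/
noncomputable def tateSpan (n i ν : ℕ) : Submodule ℂ (ExteriorAlgebra ℂ (Fin n → L → ℂ)) :=
  Submodule.span ℂ {x | ∃ (m : ℕ) (φ : ExteriorAlgebra ℂ (Fin m → L → ℂ) →ₗ[ℂ]
      ExteriorAlgebra ℂ (Fin n → L → ℂ)),
    (∀ y ∈ ⋀[ℂ]^(i - 2 * ν) (Fin m → L → ℂ), φ y ∈ ⋀[ℂ]^i (Fin n → L → ℂ)) ∧
    (∀ (c : ℂ) (M : Matrix L L ℂ), G c M → ∀ y ∈ ⋀[ℂ]^(i - 2 * ν) (Fin m → L → ℂ),
        ExteriorAlgebra.map ((Matrix.toLin' M).compLeft (Fin n)) (φ y) =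
          c ^ ν • φ (ExteriorAlgebra.map ((Matrix.toLin' M).compLeft (Fin m)) y)) ∧
    ∃ y ∈ ⋀[ℂ]^(i - 2 * ν) (Fin m → L → ℂ), x = φ y}

/-- The word property: a stable space of tensors killed by all contractions has a word with all
letters in one of the sets of `𝒮`. -/
def WP (𝒮 : Set (Set L)) : Prop :=
  ∀ (ι : Type) [Fintype ι] [DecidableEq ι] (U : Submodule ℂ (Ten ι L)), Stab G U → U ≠ ⊥ →
    (∀ u ∈ U, Killed G u) → ∃ S ∈ 𝒮, ∃ u ∈ U, ∃ y : ι → L, u y ≠ 0 ∧ ∀ a, y a ∈ S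

/-- An eigenbasis of `M` in the group whose eigenvalues at the letters in `S` are outside of `P`. -/
def Frame (P : Ideal (integralClosure ℤ ℂ)) (S : Set L) (M : Matrix L L ℂ) : Prop :=
  ∃ (h h' : Matrix L L ℂ) (δ : L → integralClosure ℤ ℂ), G 1 h ∧ h' * h = 1 ∧
    M * h = h * Matrix.diagonal (fun l => (δ l : ℂ)) ∧ ∀ l ∈ S, δ l ∉ P

/-- Some Frobenius has, at some prime over `q`, units at the letters in `S`. -/
def Realised (𝓕 : Set (ℕ × Matrix L L ℂ)) (S : Set L) : Prop :=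
  ∃ z ∈ 𝓕, (z.1 : ℂ) ≠ 0 ∧ ∃ P : Ideal (integralClosure ℤ ℂ), P.IsPrime ∧
    (z.1 : integralClosure ℤ ℂ) ∈ P ∧ Frame G P S z.2

end Generic

/-! ### Products -/

section Prod

variable {B : Type} {L : B → Type} [DecidableEq B]

/-- The group of the block diagonal matrices with one multiplier. -/
def prodGrp (G : ∀ b, Grp (L b)) : Grp (Σ b, L b) := fun c M =>
  c ≠ 0 ∧ ∃ X : ∀ b, Matrix (L b) (L b) ℂ, (∀ b, G b c (X b)) ∧ M = Matrix.blockDiagonal' X

/-- The sets of letters whose part in the block `b` is in `𝒮 b`, for all `b`. -/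
def prodPat (𝒮 : ∀ b, Set (Set (L b))) : Set (Set (Σ b, L b)) :=
  {S | ∃ s : ∀ b, Set (L b), (∀ b, s b ∈ 𝒮 b) ∧ S = {x | x.2 ∈ s x.1}}

end Prod

/-! ### The types of factors -/

/-- The group of symplectic similitudes. -/
def inSp (g : ℕ) : Grp (L2 g) := fun c M =>
  c ≠ 0 ∧ M.transpose * Matrix.J (Fin g) ℂ * M = c • Matrix.J (Fin g) ℂ

/-- The torus of the matrices `diag(x, c / x)`. -/
def inCm : Grp (L2 1) := fun c M =>
  c ≠ 0 ∧ ∃ x : ℂ, x ≠ 0 ∧ M = Matrix.diagonal (Sum.elim (fun _ => x) (fun _ => c / x))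

/-- The group of Weil type. -/
def inWeil (p : ℕ) (tor : Finset (Fin (2 * p))) : Grp (L2 (2 * p)) := fun c M =>
  ∃ g : Matrix (Fin (2 * p)) (Fin (2 * p)) ℂ, WT.InG p tor c g ∧ M = WT.frob c g

/-- The letters `e_i`. -/
def patSp (g : ℕ) : Set (Set (L2 g)) := {Set.range Sum.inl}

/-- The letter `e` or the letter `f`. -/
def patCm : Set (Set (L2 1)) := {Set.range Sum.inl, Set.range Sum.inr}

/-- The letters `e_i`, `i ∈ s`, and `f_i`, `i ∉ s`, for a set `s` of `p` indices. -/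
def patWeil (p : ℕ) : Set (Set (L2 (2 * p))) :=
  {S | ∃ s : Finset (Fin (2 * p)), s.card = p ∧
    S = {x | Sum.elim (fun i => i ∈ s) (fun i => i ∉ s) x}}

end Pool.Agent.Helper48.PW
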