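import Pool.Agent.Helper48.PW.Defs
import Pool.Agent.Helper60.GTC.DivEff

/-!
# PW: the images of equivariant maps are effective (adapted from helper7, WT/Eff.lean)
-/

set_option autoImplicit false

namespace Pool.Agent.Helper48.PW

open Polynomial Pool.Agent.Helper48.GC8

variable {L : Type} [Fintype L] [DecidableEq L]

/-- an eigenbasis -/
private lemma eff_basis {q : ℕ} (hq : (q : ℂ) ≠ 0) {M h h' : Matrix L L ℂ} {ev : L → ℂ}
    (h1 : h' * h = 1) (h2 : M * h = h * Matrix.diagonal ev)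
    (hint : ∀ i, IsIntegral ℤ (ev i) ∧ IsIntegral ℤ ((q : ℂ) / ev i)) :
    ∃ (N : ℕ) (b : Module.Basis (Fin N) ℂ (L → ℂ)) (lam : Fin N → ℂ),
      (∀ i, Matrix.toLin' M (b i) = lam i • b i) ∧
      ∀ i, IsIntegral ℤ (lam i) ∧ IsIntegral ℤ ((q : ℂ) / lam i) := by
  classical
  have h1' : h * h' = 1 := mul_eq_one_comm.1 h1
  let E : (L → ℂ) ≃ₗ[ℂ] (L → ℂ) := Matrix.toLin'OfInv h1 h1'
  let b0 : Module.Basis L ℂ (L → ℂ) := (Pi.basisFun ℂ L).map E
  have hb0 : ∀ i, b0 i = h.mulVec (Pi.single i 1) := by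
    intro i
    simp only [b0, E, Module.Basis.map_apply, Pi.basisFun_apply]
    rfl
  have hb : ∀ i, Matrix.toLin' M (b0 i) = ev i • b0 i := by
    intro i
    rw [hb0, Matrix.toLin'_apply, Matrix.mulVec_mulVec, h2, ← Matrix.mulVec_mulVec]
    have h5 : (Matrix.diagonal ev).mulVec (Pi.single i 1) = ev i • Pi.single i 1 := by
      funext j
      rw [Matrix.mulVec_diagonal, Pi.smul_apply, smul_eq_mul]
      rcases eq_or_ne j i with rfl | hji
      · rfl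
      · rw [Pi.single_eq_of_ne hji, mul_zero, mul_zero]
    rw [h5, Matrix.mulVec_smul]
  let e := Fintype.equivFin L
  refine ⟨_, b0.reindex e, fun j => ev (e.symm j), fun j => ?_, fun j => hint _⟩
  rw [Module.Basis.reindex_apply]
  exact hb _

theorem tate_integral {z : ℕ × Matrix L L ℂ} (hq0 : (z.1 : ℂ) ≠ 0) {h h' : Matrix L L ℂ}
    {ev : L → ℂ} (h1 : h' * h = 1) (h2 : z.2 * h = h * Matrix.diagonal ev)
    (hint : ∀ i, IsIntegral ℤ (ev i) ∧ IsIntegral ℤ ((z.1 : ℂ) / ev i)) {n i ν : ℕ}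
    (hi : 2 * ν ≤ i) {x : ExteriorAlgebra ℂ (Fin n → L → ℂ)}
    (hx : x ∈ Submodule.span ℂ {x | ∃ (m : ℕ) (φ : ExteriorAlgebra ℂ (Fin m → L → ℂ) →ₗ[ℂ]
        ExteriorAlgebra ℂ (Fin n → L → ℂ)),
      (∀ y ∈ ⋀[ℂ]^(i - 2 * ν) (Fin m → L → ℂ),
        ExteriorAlgebra.map ((Matrix.toLin' z.2).compLeft (Fin n)) (φ y) =
          (z.1 : ℂ) ^ ν • φ (ExteriorAlgebra.map
            ((Matrix.toLin' z.2).compLeft (Fin m)) y)) ∧
      ∃ y ∈ ⋀[ℂ]^(i - 2 * ν) (Fin m → L → ℂ), x = φ y}) (hx0 : x ≠ 0) {β : ℂ}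
    (hβ : ExteriorAlgebra.map ((Matrix.toLin' z.2).compLeft (Fin n)) x =
      β • x) :
    IsIntegral ℤ (β / (z.1 : ℂ) ^ ν) ∧ IsIntegral ℤ ((z.1 : ℂ) ^ (i - ν) / β) := by
  classical
  obtain ⟨N0, b, lam, hb, hlam⟩ := eff_basis hq0 h1 h2 hint
  set F : Module.End ℂ (L → ℂ) := Matrix.toLin' z.2 with hF
  set T : Module.End ℂ (ExteriorAlgebra ℂ (Fin n → L → ℂ)) :=
    (ExteriorAlgebra.map (F.compLeft (Fin n))).toLinearMap with hT
  set E : Set ℂ := {μ | ∃ (N : ℕ) (lam' : Fin N → ℂ) (s : Finset (Fin N)),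
    (∀ j, IsIntegral ℤ (lam' j) ∧ IsIntegral ℤ ((z.1 : ℂ) / lam' j)) ∧
    s.card = i - 2 * ν ∧ μ = (z.1 : ℂ) ^ ν * ∏ j ∈ s, lam' j} with hE
  have hx' : x ∈ Submodule.span ℂ {y | ∃ μ ∈ E, T y = μ • y} := by
    refine Submodule.span_le.2 ?_ hx
    rintro _ ⟨m, φ, hφ, y, hy, rfl⟩
    obtain ⟨N, e, B, hB⟩ := Pool.Agent.Helper60.GTC.power_basis F b lam hb m
    have hy' := Pool.Agent.Helper60.GTC.mem_span_of_mem_pow B hy
    have hbas : ∀ s : Finset (Fin N), s.card = i - 2 * ν →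
        B.ExteriorAlgebra s ∈ ⋀[ℂ]^(i - 2 * ν) (Fin m → L → ℂ) := by
      intro s hs
      rw [ExteriorAlgebra.basis_apply_ofCard B hs]
      exact (exteriorPower.ιMulti_family ℂ (i - 2 * ν) B _).2
    clear hy
    induction hy' using Submodule.span_induction with
    | mem w hw =>
      obtain ⟨s, hs, rfl⟩ := hw
      refine Submodule.subset_span ⟨_, ⟨N, fun j => lam (e.symm j).2, s,
        fun j => hlam _, hs, rfl⟩, ?_⟩
      rw [hT, AlgHom.toLinearMap_apply, hφ _ (hbas s hs),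
        Pool.Agent.Helper60.GTC.map_basis B _ (fun j => lam (e.symm j).2) hB, map_smul, smul_smul]
    | zero => rw [map_zero]; exact Submodule.zero_mem _
    | add x y _ _ hx hy => rw [map_add]; exact Submodule.add_mem _ hx hy
    | smul c x _ hx => rw [map_smul]; exact Submodule.smul_mem _ c hx
  obtain ⟨N, lam', s, hl', hs, hβs⟩ := Pool.Agent.Helper60.GTC.eig_of_span T E hx' hx0 hβ
  constructor
  · rw [hβs, mul_div_cancel_left₀ _ (pow_ne_zero _ hq0)]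
    exact IsIntegral.prod _ fun j _ => (hl' j).1
  · have h1 : (z.1 : ℂ) ^ (i - ν) / β = ∏ j ∈ s, ((z.1 : ℂ) / lam' j) := by
      rw [Finset.prod_div_distrib, Finset.prod_const, hs, hβs]
      have h3 : i - ν = ν + (i - 2 * ν) := by omega
      rw [h3, pow_add, mul_div_mul_left _ _ (pow_ne_zero _ hq0)]
    rw [h1]
    exact IsIntegral.prod _ fun j _ => (hl' j).2

end Pool.Agent.Helper48.PW
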