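import Pool.Agent.Helper48.PW.Defs

/-!
# PW: from tensors back to exterior forms (adapted from helper12, WT/Link.lean)
-/

set_option autoImplicit false

namespace Pool.Agent.Helper48.PW

open Polynomial Pool.Agent.Helper48.GC8 Pool.Agent.Helper60.GTC

variable {L : Type} [Fintype L] [DecidableEq L] {G : Grp L}

private lemma word_eq12 {I : Type} [Fintype I] [DecidableEq I] {n i : ℕ} (c : Fin i → Fin n) (y : Fin i → I) :
    word c (List.finRange i) y = ExteriorAlgebra.ιMulti ℂ i (fun k => dl (c k) (y k)) := by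
  rw [ExteriorAlgebra.ιMulti_apply]
  unfold word
  congr 1
  rw [List.ofFn_eq_map]

private lemma mact_dl12 {I : Type} [Fintype I] [DecidableEq I] {n : ℕ} (X : Matrix I I ℂ) (k : Fin n) (r : I) :
    (Matrix.toLin' X).compLeft (Fin n) (dl k r) = ∑ r', X r' r • dl k r' := by
  funext c y
  have := mact_apply X (dl k r) c y
  unfold mact at this
  rw [this]
  simp only [Finset.sum_apply, Pi.smul_apply, smul_eq_mul, dl]
  by_cases hc : c = k
  · subst hc
    simp [Pi.single_apply]
  · simp [hc]

private lemma Phi_map12 {I : Type} [Fintype I] [DecidableEq I] {n i : ℕ} (X : Matrix I I ℂ)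
    (c : Fin i → Fin n) (u : Ten (Fin i) I) :
    ExteriorAlgebra.map ((Matrix.toLin' X).compLeft (Fin n)) (Phi c (List.finRange i) u) =
      Phi c (List.finRange i) (rho Finset.univ X u) := by
  have hw : ∀ y : Fin i → I, ExteriorAlgebra.map ((Matrix.toLin' X).compLeft (Fin n))
      (word c (List.finRange i) y) = ∑ z : Fin i → I, (∏ k, X (z k) (y k)) • word c (List.finRange i) z := by
    intro y
    rw [word_eq12, ExteriorAlgebra.map_apply_ιMulti]
    have h1 : (⇑((Matrix.toLin' X).compLeft (Fin n)) ∘ fun k => dl (c k) (y k)) =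
        fun k => ∑ r', X r' (y k) • dl (c k) r' := by
      funext k
      exact mact_dl12 X (c k) (y k)
    rw [h1, ← AlternatingMap.coe_multilinearMap, MultilinearMap.map_sum]
    refine Finset.sum_congr rfl fun z _ => ?_
    rw [MultilinearMap.map_smul_univ, AlternatingMap.coe_multilinearMap, word_eq12]
  unfold Phi
  simp only [map_sum, map_smul, hw, Finset.smul_sum, smul_smul]
  rw [Finset.sum_comm]
  refine Finset.sum_congr rfl fun z _ => ?_
  rw [← Finset.sum_smul, rho_apply]
  congr 1
  refine Finset.sum_congr rfl fun y _ => ?_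
  simp only [Finset.mem_univ, if_true]
  ring

private lemma Phi_mem12 {I : Type} [Fintype I] [DecidableEq I] {n i : ℕ} (c : Fin i → Fin n)
    (u : Ten (Fin i) I) : Phi c (List.finRange i) u ∈ ⋀[ℂ]^i (Fin n → I → ℂ) := by
  unfold Phi
  refine Submodule.sum_mem _ fun y _ => Submodule.smul_mem _ _ ?_
  have h := word_mem c (List.finRange i) y
  rwa [List.length_finRange] at h

private lemma psi_Phi12 {I : Type} [Fintype I] [DecidableEq I] {j : ℕ} (u : Ten (Fin j) I) :
    psi (id : Fin j → Fin j) (Phi (id : Fin j → Fin j) (List.finRange j) u) = u := by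
  funext y
  unfold Phi
  rw [map_sum, Finset.sum_apply]
  have hw : ∀ z : Fin j → I, psi (id : Fin j → Fin j) (word (id : Fin j → Fin j) (List.finRange j) z) y =
      if z = y then 1 else 0 := by
    intro z
    rw [word_eq12, psi_ιMulti, Finset.sum_eq_single (1 : Equiv.Perm (Fin j))]
    · simp only [Equiv.Perm.sign_one, Units.val_one, Int.cast_one, one_mul, Equiv.Perm.one_apply, id, dl,
        Pi.single_eq_same]
      by_cases h : z = y
      · rw [if_pos h, h]
        simp
      · rw [if_neg h]
        obtain ⟨k, hk⟩ := Function.ne_iff.mp h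
        exact Finset.prod_eq_zero (Finset.mem_univ k) (by simp [Ne.symm hk])
    · intro σ _ hσ
      obtain ⟨k, hk⟩ : ∃ k, σ k ≠ k := by
        by_contra hcon
        push Not at hcon
        exact hσ (Equiv.ext hcon)
      have h0 : dl (σ k) (z (σ k)) k (y k) = 0 := by
        unfold dl
        rw [Pi.single_eq_of_ne (Ne.symm hk)]
        rfl
      rw [Finset.prod_eq_zero (Finset.mem_univ k) h0, mul_zero]
    · intro h
      exact absurd (Finset.mem_univ _) h
  simp only [map_smul, Pi.smul_apply, smul_eq_mul, hw]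
  simp

theorem link {n i ν : ℕ} (hi : 2 * ν ≤ i) {x : ExteriorAlgebra ℂ (Fin n → L → ℂ)}
    (hx : x ∈ ⋀[ℂ]^i (Fin n → L → ℂ))
    (h : ∀ c : Fin i → Fin n, psi c x ∈ tt G (Fin i) ν) : x ∈ tateSpan G n i ν := by
  have h2 : (Nat.factorial i : ℂ) ≠ 0 := by exact_mod_cast Nat.factorial_ne_zero i
  have h3 : x = (Nat.factorial i : ℂ)⁻¹ •
      ∑ c : Fin i → Fin n, Phi c (List.finRange i) (psi c x) := by
    rw [← sum_Phi hx, smul_smul, inv_mul_cancel₀ h2, one_smul]
  rw [h3]
  refine Submodule.smul_mem _ _ (Submodule.sum_mem _ fun c _ => ?_)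
  have key : ∀ u ∈ tt G (Fin i) ν, Phi c (List.finRange i) u ∈ tateSpan G n i ν := by
    intro u hu
    unfold tt at hu
    induction hu using Submodule.span_induction with
    | mem u hu =>
      obtain ⟨φ, hφ, y, rfl⟩ := hu
      refine Submodule.subset_span ?_
      have hj : Fintype.card (Fin i) - 2 * ν = i - 2 * ν := by rw [Fintype.card_fin]
      let Lm : Ten (Fin i) L →ₗ[ℂ] ExteriorAlgebra ℂ (Fin n → L → ℂ) :=
        { toFun := Phi c (List.finRange i)
          map_add' := Phi_add c _
          map_smul' := Phi_smul c _ }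
      refine ⟨Fintype.card (Fin i) - 2 * ν,
        Lm ∘ₗ φ ∘ₗ psi (id : Fin (Fintype.card (Fin i) - 2 * ν) → Fin (Fintype.card (Fin i) - 2 * ν)),
        ?_, ?_, Phi id (List.finRange _) y, ?_, ?_⟩
      · intro z _
        exact Phi_mem12 c _
      · intro c0 M0 hg z hz
        rw [← hj] at hz
        have e1 := Phi_map12 M0 c (φ (psi id z))
        have e2 := hφ c0 M0 hg (psi id z)
        have e3 := psi_map M0 (id : Fin (Fintype.card (Fin i) - 2 * ν) → _) hz
        show ExteriorAlgebra.map ((Matrix.toLin' M0).compLeft (Fin n))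
          (Phi c (List.finRange i) (φ (psi id z))) = c0 ^ ν • Phi c (List.finRange i) (φ (psi id
            (ExteriorAlgebra.map ((Matrix.toLin' M0).compLeft (Fin _)) z)))
        rw [e1, e2, e3, Phi_smul]
      · rw [← hj]
        exact Phi_mem12 _ _
      · show Phi c (List.finRange i) (φ y) = Phi c (List.finRange i) (φ (psi id
          (Phi id (List.finRange _) y)))
        rw [psi_Phi12]
    | zero => rw [Phi_zero]; exact Submodule.zero_mem _
    | add x y _ _ hx hy => rw [Phi_add]; exact Submodule.add_mem _ hx hy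
    | smul r x _ hx => rw [Phi_smul]; exact Submodule.smul_mem _ _ hx
  exact key _ (h c)

end Pool.Agent.Helper48.PW
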