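import Pool.Agent.Helper48.PW.Defs

/-!
# PW-PROD: the word property for products

`prod_isGrp`. PROOF. `(blockDiagonal' X)ᴴ = blockDiagonal' (fun b => (X b)ᴴ)`
(`Matrix.blockDiagonal'_conjTranspose`), `t • 1 = blockDiagonal' (fun b => t • 1)`.

`prod_wp`. PROOF. `U` stable, nonzero, killed in `Ten ι (Σ b, L b)`. CLAIM: for every finset `T`
of blocks there are `s : ∀ b, Set (L b)` with `s b ∈ 𝒮 b` for `b ∈ T`, `u ∈ U` and a word `y` with
`u y ≠ 0` such that `(y a).2 ∈ s (y a).1` for all `a` with `(y a).1 ∈ T`. (`T = univ` is the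
theorem.) Induction on `T` (`Finset.induction_on`); `T = ∅`: `U ≠ ⊥`. Step: add `b ∉ T`, given
`s`, `u`, `y`. Let `A = {a // (y a).1 = b}` and for `v ∈ Ten ι` and a word `x` let
`sl x v : Ten A (L b)`, `sl x v w = v (a ↦ if a ∈ A then ⟨b, w a⟩ else x a)`. Let
`U_b = {sl y v | v ∈ U}` (the image of `U` under the linear map `sl y`).
* `U_b ≠ ⊥`: it contains `sl y u`, which is nonzero at the letters of `y`.
* `U_b` is stable: given `G b c X` with `c ≠ 0` choose `t` with `t ^ 2 = c`
  (`IsAlgClosed.exists_pow_nat_eq`) and `M = blockDiagonal'` of `X` at `b` and `t • 1` at the other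
  blocks (`IsGrp.scal`), which is in `prodGrp G c`. As `M` is block diagonal and scalar outside of
  `b`, `sl y (rho M v) = t ^ (number of a ∉ A) • rho X (sl y v)`. (The words `z` contributing to
  `(rho M v) (x)`, `x a = ⟨b, w a⟩` on `A`, `x a = y a` off `A`, have `z a = ⟨b, _⟩` on `A`;
  off `A` `z a = y a`, because `(y a).1 ≠ b`.)
* `U_b` is killed: let `φ : Ten A (L b) → Ten (Fin (card A - 2)) (L b)` be `CoEqui (G b)`.
  If `card A < 2` then `φ = 0`: for `M = 2 • 1`, `c = 4`: `φ (2 ^ card A • v) = 4 • φ v` (the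
  target has no positions). If `card A ≥ 2`, choose `e : Fin (card ι - 2) ≃ Fin (card A - 2) ⊕ Aᶜ`
  and define `Φ : Ten ι → Ten (Fin (card ι - 2))` by: `Φ v x = φ (sl x' v) w'` if all the letters
  of `x` at the positions `Fin (card A - 2)` are in the block `b`, given by `w'`, and `0` otherwise;
  `x'` is the part of `x` at the positions `Aᶜ` (any letters, also from the block `b`; extend `x'`
  to `A` arbitrarily, e.g. by `y`: `sl` does not see it). `Φ` is `CoEqui (prodGrp G)`: for
  `M = blockDiagonal' X`, `sl x' (rho M v) = ∑ x'' : Aᶜ → Σ b, L b,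
  (∏ a, M (x' a) (x'' a)) • rho (X b) (sl x'' v)`, apply `φ` and compare with
  `c • rho M (Φ v)`. So `Φ v = 0` for `v ∈ U`; at `x' = y` on `Aᶜ` this is `φ (sl y v) = 0`.
* `WP (G b) (𝒮 b)` gives `S ∈ 𝒮 b`, `v ∈ U`, `w` with `sl y v w ≠ 0` and `w a ∈ S`: take `v`, the
  word `y'` which is `⟨b, w a⟩` on `A` and `y` off `A`, and `Function.update s b S`.
-/

set_option autoImplicit false

namespace Pool.Agent.Helper48.PW

open Polynomial Pool.Agent.Helper48.GC8

section Aux

private lemma rho_univ {κ I : Type} [Fintype κ] [DecidableEq κ] [Fintype I] [DecidableEq I]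
    (X : Matrix I I ℂ) (u : Ten κ I) (x : κ → I) :
    rho Finset.univ X u x = ∑ y : κ → I, (∏ k, X (x k) (y k)) * u y := by
  rw [rho_apply]
  simp only [Finset.mem_univ, if_true]

private lemma rho_reindex {ι κ I : Type} [Fintype ι] [DecidableEq ι] [Fintype κ] [DecidableEq κ]
    [Fintype I] [DecidableEq I] (e : ι ≃ κ) (X : Matrix I I ℂ) (u : Ten κ I) :
    rho Finset.univ X (LinearMap.funLeft ℂ ℂ (fun x : ι → I => x ∘ e.symm) u) =
      LinearMap.funLeft ℂ ℂ (fun x : ι → I => x ∘ e.symm) (rho Finset.univ X u) := by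
  funext x
  rw [rho_univ, LinearMap.funLeft_apply, rho_univ]
  refine Fintype.sum_equiv (e.arrowCongr (Equiv.refl I)) _ _ fun y => ?_
  have h1 : (e.arrowCongr (Equiv.refl I)) y = y ∘ e.symm := rfl
  rw [h1, LinearMap.funLeft_apply]
  congr 1
  simp only [Function.comp]
  exact (Equiv.prod_comp e.symm (fun k => X (x k) (y k))).symm

private lemma killed_of_card {ι κ L : Type} [Fintype ι] [DecidableEq ι] [Fintype κ]
    [DecidableEq κ] [Fintype L] [DecidableEq L] {G : Grp L}
    (hκ : Fintype.card κ = Fintype.card ι - 2) {φ : Ten ι L →ₗ[ℂ] Ten κ L} (hφ : CoEqui G φ)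
    {u : Ten ι L} (hu : Killed G u) : φ u = 0 := by
  have e : Fin (Fintype.card ι - 2) ≃ κ :=
    Fintype.equivOfCardEq (by rw [Fintype.card_fin, hκ])
  let R : Ten κ L →ₗ[ℂ] Ten (Fin (Fintype.card ι - 2)) L :=
    LinearMap.funLeft ℂ ℂ (fun x : Fin (Fintype.card ι - 2) → L => x ∘ e.symm)
  have h1 : CoEqui G (R ∘ₗ φ) := by
    intro c M hM v
    rw [LinearMap.comp_apply, hφ c M hM, map_smul, LinearMap.comp_apply, rho_reindex]
  have h2 := hu _ h1
  rw [LinearMap.comp_apply] at h2
  funext x
  have h3 := congrFun h2 (x ∘ e)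
  have h4 : R (φ u) (x ∘ e) = φ u ((x ∘ e) ∘ e.symm) := rfl
  rw [h4] at h3
  have h5 : (x ∘ e) ∘ e.symm = x := by
    funext k
    simp
  rw [h5] at h3
  exact h3

end Aux

variable {B : Type} [Fintype B] [DecidableEq B] {L : B → Type} [∀ b, Fintype (L b)]
  [∀ b, DecidableEq (L b)] {G : ∀ b, Grp (L b)}

theorem prod_isGrp (hG : ∀ b, IsGrp (G b)) : IsGrp (prodGrp G) := by
  refine ⟨fun c M h => h.1, ?_, ?_⟩
  · rintro c M ⟨hc, X, hX, rfl⟩
    refine ⟨star_ne_zero.2 hc, fun b => (X b).conjTranspose, fun b => (hG b).star c _ (hX b), ?_⟩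
    rw [Matrix.blockDiagonal'_conjTranspose]
  · intro t ht
    refine ⟨pow_ne_zero 2 ht, fun b => t • 1, fun b => (hG b).scal t ht, ?_⟩
    have h1 : (fun b => t • (1 : Matrix (L b) (L b) ℂ)) = t • (fun b => (1 : Matrix (L b) (L b) ℂ)) :=
      rfl
    rw [h1, Matrix.blockDiagonal'_smul]
    congr 1
    exact Matrix.blockDiagonal'_one.symm

section Slice

variable {ι : Type} [Fintype ι] [DecidableEq ι] {b : B} (p : ι → Prop) [DecidablePred p]

omit [Fintype B] [DecidableEq B] [∀ b, Fintype (L b)] [∀ b, DecidableEq (L b)] [Fintype ι]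
  [DecidableEq ι] in
private def glue (w : {a // p a} → L b) (x : {a // ¬ p a} → Σ b, L b) : ι → Σ b, L b :=
  fun a => if h : p a then ⟨b, w ⟨a, h⟩⟩ else x ⟨a, h⟩

omit [Fintype B] [DecidableEq B] [∀ b, Fintype (L b)] [∀ b, DecidableEq (L b)] [Fintype ι]
  [DecidableEq ι] in
private lemma glue_pos (w : {a // p a} → L b) (x : {a // ¬ p a} → Σ b, L b) (a : {a // p a}) :
    glue p w x a = ⟨b, w a⟩ := by
  simp [glue, a.2]

omit [Fintype B] [DecidableEq B] [∀ b, Fintype (L b)] [∀ b, DecidableEq (L b)] [Fintype ι]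
  [DecidableEq ι] in
private lemma glue_neg (w : {a // p a} → L b) (x : {a // ¬ p a} → Σ b, L b) (a : {a // ¬ p a}) :
    glue p w x a = x a := by
  simp [glue, a.2]

omit [Fintype B] [DecidableEq B] [∀ b, Fintype (L b)] [∀ b, DecidableEq (L b)] [Fintype ι]
  [DecidableEq ι] in
private lemma glue_inj : Function.Injective
    (fun z : ({a // ¬ p a} → Σ b, L b) × ({a // p a} → L b) => glue p z.2 z.1) := by
  rintro ⟨x, w⟩ ⟨x', w'⟩ h
  simp only at h
  refine Prod.ext ?_ ?_
  · funext a
    have := congrFun h a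
    rwa [glue_neg, glue_neg] at this
  · funext a
    have := congrFun h a
    rw [glue_pos, glue_pos] at this
    simpa using this

/-- The slice at the letters `x` outside of `p`, with letters in the block `b` on `p`. -/
private def sl (b : B) (x : {a // ¬ p a} → Σ b, L b) :
    Ten ι (Σ b, L b) →ₗ[ℂ] Ten {a // p a} (L b) :=
  LinearMap.funLeft ℂ ℂ (fun w => glue p w x)

omit [Fintype B] [DecidableEq B] [∀ b, Fintype (L b)] [∀ b, DecidableEq (L b)] [Fintype ι]
  [DecidableEq ι] in
private lemma sl_apply (x : {a // ¬ p a} → Σ b, L b) (v : Ten ι (Σ b, L b))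
    (w : {a // p a} → L b) : sl p b x v w = v (glue p w x) := rfl

private lemma sl_rho (X : ∀ b, Matrix (L b) (L b) ℂ) (v : Ten ι (Σ b, L b))
    (x : {a // ¬ p a} → Σ b, L b) :
    sl p b x (rho Finset.univ (Matrix.blockDiagonal' X) v) =
      ∑ x' : {a // ¬ p a} → Σ b, L b, (∏ a, Matrix.blockDiagonal' X (x a) (x' a)) •
        rho Finset.univ (X b) (sl p b x' v) := by
  funext w
  rw [sl_apply, rho_univ, Finset.sum_apply]
  have h1 : ∀ x' : {a // ¬ p a} → Σ b, L b,
      ((∏ a, Matrix.blockDiagonal' X (x a) (x' a)) • rho Finset.univ (X b) (sl p b x' v)) w =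
      ∑ w' : {a // p a} → L b, ((∏ a, Matrix.blockDiagonal' X (x a) (x' a)) *
        ∏ a, X b (w a) (w' a)) * v (glue p w' x') := by
    intro x'
    rw [Pi.smul_apply, rho_univ, smul_eq_mul, Finset.mul_sum]
    refine Finset.sum_congr rfl fun w' _ => ?_
    rw [sl_apply]
    ring
  rw [Finset.sum_congr rfl fun x' _ => h1 x', ← Fintype.sum_prod_type']
  symm
  refine Fintype.sum_of_injective
    (fun z : ({a // ¬ p a} → Σ b, L b) × ({a // p a} → L b) => glue p z.2 z.1) (glue_inj p) _ _
    ?_ ?_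
  · intro z hz
    have h2 : ∃ a : {a // p a}, (z a).1 ≠ b := by
      by_contra hcon
      push Not at hcon
      apply hz
      have h3 : ∀ a : {a // p a}, ∃ l : L b, z a = ⟨b, l⟩ := by
        intro a
        have h4 := hcon a
        rcases hza : z a with ⟨b', l⟩
        rw [hza] at h4
        simp only at h4
        subst h4
        exact ⟨l, rfl⟩
      choose w' hw' using h3
      refine ⟨(fun a => z a, w'), ?_⟩
      funext a
      by_cases ha : p a
      · have := glue_pos p w' (fun a => z a) ⟨a, ha⟩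
        simp only at this ⊢
        rw [this, hw' ⟨a, ha⟩]
      · exact glue_neg p w' (fun a => z a) ⟨a, ha⟩
    obtain ⟨a, ha⟩ := h2
    have h3 : Matrix.blockDiagonal' X (glue p w x a) (z a) = 0 := by
      rw [glue_pos]
      rcases hza : z a with ⟨b', l⟩
      rw [hza] at ha
      exact Matrix.blockDiagonal'_apply_ne X _ _ (Ne.symm ha)
    rw [Finset.prod_eq_zero (Finset.mem_univ (a : ι)) h3, zero_mul]
  · rintro ⟨x', w'⟩
    simp only
    congr 1
    rw [← Fintype.prod_subtype_mul_prod_subtype p, mul_comm]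
    congr 1
    · refine Finset.prod_congr rfl fun a _ => ?_
      rw [glue_pos, glue_pos, Matrix.blockDiagonal'_apply_eq]
    · refine Finset.prod_congr rfl fun a _ => ?_
      rw [glue_neg, glue_neg]

/-- Stability of the slices. -/
private lemma sl_stab (hG : ∀ b, IsGrp (G b)) {U : Submodule ℂ (Ten ι (Σ b, L b))}
    (hU : Stab (prodGrp G) U) (x : {a // ¬ p a} → Σ b, L b) (hx : ∀ a, (x a).1 ≠ b) :
    Stab (G b) (U.map (sl p b x)) := by
  rintro c N hN _ ⟨v, hv, rfl⟩
  have hc := (hG b).ne c N hN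
  obtain ⟨t, ht⟩ := IsAlgClosed.exists_pow_nat_eq c (n := 2) (by norm_num)
  have ht0 : t ≠ 0 := by
    rintro rfl
    rw [zero_pow two_ne_zero] at ht
    exact hc ht.symm
  let X : ∀ b, Matrix (L b) (L b) ℂ := Function.update (fun b' => t • 1) b N
  have hXb : X b = N := Function.update_self _ _ _
  have hXn : ∀ b', b' ≠ b → X b' = t • 1 := fun b' hb' => Function.update_of_ne hb' _ _
  have hM : prodGrp G c (Matrix.blockDiagonal' X) := by
    refine ⟨hc, X, fun b' => ?_, rfl⟩
    by_cases hb' : b' = b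
    · subst hb'
      rw [hXb]
      exact hN
    · rw [hXn b' hb', ← ht]
      exact (hG b').scal t ht0
  have h1 := hU c _ hM v hv
  have hdiag : ∀ a, ∀ z : Σ b, L b, Matrix.blockDiagonal' X (x a) z = if z = x a then t else 0 := by
    intro a z
    have hxa := hx a
    rcases hxa' : x a with ⟨b1, l1⟩
    rw [hxa'] at hxa
    simp only at hxa
    rcases z with ⟨b2, l2⟩
    by_cases h : b1 = b2
    · subst h
      rw [Matrix.blockDiagonal'_apply_eq, hXn _ hxa, Matrix.smul_apply, Matrix.one_apply]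
      by_cases hl : l1 = l2
      · subst hl
        simp
      · rw [if_neg hl, if_neg, smul_zero]
        intro h
        apply hl
        simpa using h.symm
    · rw [Matrix.blockDiagonal'_apply_ne X _ _ h, if_neg]
      intro h'
      exact h (congrArg Sigma.fst h').symm
  have h2 : sl p b x (rho Finset.univ (Matrix.blockDiagonal' X) v) =
      t ^ (Fintype.card {a // ¬ p a}) • rho Finset.univ N (sl p b x v) := by
    rw [sl_rho, hXb, Finset.sum_eq_single x]
    · congr 1
      simp only [hdiag, if_true, Finset.prod_const, Finset.card_univ]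
    · intro x' _ hx'
      obtain ⟨a, ha⟩ := Function.ne_iff.1 hx'
      rw [Finset.prod_eq_zero (Finset.mem_univ a), zero_smul]
      rw [hdiag, if_neg ha]
    · intro h
      exact absurd (Finset.mem_univ _) h
  have ht1 : t ^ (Fintype.card {a // ¬ p a}) ≠ 0 := pow_ne_zero _ ht0
  refine ⟨(t ^ (Fintype.card {a // ¬ p a}))⁻¹ • rho Finset.univ (Matrix.blockDiagonal' X) v,
    U.smul_mem _ h1, ?_⟩
  rw [map_smul, h2, smul_smul, inv_mul_cancel₀ ht1, one_smul]

/-- The contraction of the slices, as a contraction of the whole tensor. -/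
private noncomputable def big {m : ℕ} (φ : Ten {a // p a} (L b) →ₗ[ℂ] Ten (Fin m) (L b)) :
    Ten ι (Σ b, L b) →ₗ[ℂ] Ten (Fin m ⊕ {a // ¬ p a}) (Σ b, L b) where
  toFun := fun v z => ∑ w : Fin m → L b,
      if (fun j => z (Sum.inl j)) = (fun j => (⟨b, w j⟩ : Σ b, L b)) then
        φ (sl p b (fun a => z (Sum.inr a)) v) w else 0
  map_add' := by
    intro v v'
    funext z
    rw [Pi.add_apply, ← Finset.sum_add_distrib]
    refine Finset.sum_congr rfl fun w _ => ?_
    split_ifs
    · rw [map_add, map_add, Pi.add_apply]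
    · rw [add_zero]
  map_smul' := by
    intro c v
    funext z
    rw [Pi.smul_apply, RingHom.id_apply, Finset.smul_sum]
    refine Finset.sum_congr rfl fun w _ => ?_
    split_ifs
    · rw [map_smul, map_smul, Pi.smul_apply]
    · rw [smul_zero]

omit [Fintype B] in
private lemma big_apply {m : ℕ} (φ : Ten {a // p a} (L b) →ₗ[ℂ] Ten (Fin m) (L b))
    (v : Ten ι (Σ b, L b)) (z : Fin m ⊕ {a // ¬ p a} → Σ b, L b) :
    big p φ v z = ∑ w : Fin m → L b,
      if (fun j => z (Sum.inl j)) = (fun j => (⟨b, w j⟩ : Σ b, L b)) then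
        φ (sl p b (fun a => z (Sum.inr a)) v) w else 0 := rfl

private lemma prod_block {m : ℕ} (X : ∀ b, Matrix (L b) (L b) ℂ) (z : Fin m → Σ b, L b)
    (w' : Fin m → L b) :
    (∏ j, Matrix.blockDiagonal' X (z j) ⟨b, w' j⟩) =
      ∑ w : Fin m → L b, if z = (fun j => (⟨b, w j⟩ : Σ b, L b)) then
        (∏ j, X b (w j) (w' j)) else 0 := by
  by_cases hz : ∃ w : Fin m → L b, z = (fun j => (⟨b, w j⟩ : Σ b, L b))
  · obtain ⟨w0, rfl⟩ := hz
    rw [Finset.sum_eq_single w0]
    · rw [if_pos rfl]
      refine Finset.prod_congr rfl fun j _ => ?_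
      rw [Matrix.blockDiagonal'_apply_eq]
    · intro w _ hw
      rw [if_neg]
      intro h
      apply hw
      funext j
      have := congrFun h j
      simpa using this.symm
    · intro h
      exact absurd (Finset.mem_univ _) h
  · rw [Finset.sum_eq_zero fun w _ => if_neg fun h => hz ⟨w, h⟩]
    have h2 : ∃ j, (z j).1 ≠ b := by
      by_contra hcon
      push Not at hcon
      apply hz
      have h3 : ∀ j : Fin m, ∃ l : L b, z j = ⟨b, l⟩ := by
        intro j
        have h4 := hcon j
        rcases hza : z j with ⟨b', l⟩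
        rw [hza] at h4
        simp only at h4
        subst h4
        exact ⟨l, rfl⟩
      choose w0 hw0 using h3
      exact ⟨w0, funext hw0⟩
    obtain ⟨j, hj⟩ := h2
    refine Finset.prod_eq_zero (Finset.mem_univ j) ?_
    rcases hza : z j with ⟨b', l⟩
    rw [hza] at hj
    exact Matrix.blockDiagonal'_apply_ne X _ _ hj

private lemma big_coEqui {m : ℕ} {φ : Ten {a // p a} (L b) →ₗ[ℂ] Ten (Fin m) (L b)}
    (hφ : CoEqui (G b) φ) : CoEqui (prodGrp G) (big p φ) := by
  rintro c M ⟨hc, X, hX, rfl⟩ v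
  funext z
  rw [Pi.smul_apply, smul_eq_mul, rho_univ, big_apply]
  -- the left side
  have e1 : ∀ w : Fin m → L b,
      φ (sl p b (fun a => z (Sum.inr a)) (rho Finset.univ (Matrix.blockDiagonal' X) v)) w =
      ∑ x' : {a // ¬ p a} → Σ b, L b,
        (∏ a, Matrix.blockDiagonal' X (z (Sum.inr a)) (x' a)) *
          (c * ∑ w' : Fin m → L b, (∏ j, X b (w j) (w' j)) * φ (sl p b x' v) w') := by
    intro w
    rw [sl_rho, map_sum, Finset.sum_apply]
    refine Finset.sum_congr rfl fun x' _ => ?_
    rw [map_smul, Pi.smul_apply, smul_eq_mul, hφ c _ (hX b), Pi.smul_apply, smul_eq_mul,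
      rho_univ]
  -- the right side
  have e2 : ∑ y : Fin m ⊕ {a // ¬ p a} → Σ b, L b,
      (∏ k, Matrix.blockDiagonal' X (z k) (y k)) * big p φ v y =
      ∑ x' : {a // ¬ p a} → Σ b, L b, ∑ w' : Fin m → L b,
        (∏ a, Matrix.blockDiagonal' X (z (Sum.inr a)) (x' a)) *
        ((∏ j, Matrix.blockDiagonal' X (z (Sum.inl j)) ⟨b, w' j⟩) * φ (sl p b x' v) w') := by
    rw [← (Equiv.sumArrowEquivProdArrow (Fin m) {a // ¬ p a} (Σ b, L b)).symm.sum_comp,
      Fintype.sum_prod_type, Finset.sum_comm]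
    refine Finset.sum_congr rfl fun x' _ => ?_
    have e3 : ∀ y1 : Fin m → Σ b, L b,
        (∏ k, Matrix.blockDiagonal' X (z k)
          ((Equiv.sumArrowEquivProdArrow (Fin m) {a // ¬ p a} (Σ b, L b)).symm (y1, x') k)) *
          big p φ v
            ((Equiv.sumArrowEquivProdArrow (Fin m) {a // ¬ p a} (Σ b, L b)).symm (y1, x')) =
        ∑ w' : Fin m → L b,
          if y1 = (fun j => (⟨b, w' j⟩ : Σ b, L b)) then
            (∏ a, Matrix.blockDiagonal' X (z (Sum.inr a)) (x' a)) *
            ((∏ j, Matrix.blockDiagonal' X (z (Sum.inl j)) (y1 j)) * φ (sl p b x' v) w')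
          else 0 := by
      intro y1
      rw [big_apply, Finset.mul_sum, Fintype.prod_sum_type]
      refine Finset.sum_congr rfl fun w' _ => ?_
      have e4 : (fun j => (Equiv.sumArrowEquivProdArrow (Fin m) {a // ¬ p a} (Σ b, L b)).symm
          (y1, x') (Sum.inl j)) = y1 := rfl
      have e5 : (fun a => (Equiv.sumArrowEquivProdArrow (Fin m) {a // ¬ p a} (Σ b, L b)).symm
          (y1, x') (Sum.inr a)) = x' := rfl
      rw [e4, e5, mul_ite, mul_zero]
      refine if_congr Iff.rfl ?_ rfl
      rw [mul_comm (∏ j : Fin m, _), mul_assoc]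
      rfl
    rw [Finset.sum_congr rfl fun y1 _ => e3 y1, Finset.sum_comm]
    refine Finset.sum_congr rfl fun w' _ => ?_
    rw [Finset.sum_ite_eq' Finset.univ (fun j => (⟨b, w' j⟩ : Σ b, L b)),
      if_pos (Finset.mem_univ _)]
  rw [e2]
  -- comparison
  have e7 : ∀ w : Fin m → L b,
      (if (fun j => z (Sum.inl j)) = (fun j => (⟨b, w j⟩ : Σ b, L b)) then
        φ (sl p b (fun a => z (Sum.inr a)) (rho Finset.univ (Matrix.blockDiagonal' X) v)) w
        else 0) =
      ∑ x' : {a // ¬ p a} → Σ b, L b, ∑ w' : Fin m → L b,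
        (if (fun j => z (Sum.inl j)) = (fun j => (⟨b, w j⟩ : Σ b, L b)) then
          c * ((∏ a, Matrix.blockDiagonal' X (z (Sum.inr a)) (x' a)) *
          ((∏ j, X b (w j) (w' j)) * φ (sl p b x' v) w')) else 0) := by
    intro w
    split_ifs with h
    · rw [e1]
      refine Finset.sum_congr rfl fun x' _ => ?_
      rw [Finset.mul_sum, Finset.mul_sum]
      refine Finset.sum_congr rfl fun w' _ => ?_
      ring
    · simp
  rw [Finset.sum_congr rfl fun w _ => e7 w, Finset.sum_comm, Finset.mul_sum]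
  refine Finset.sum_congr rfl fun x' _ => ?_
  rw [Finset.sum_comm, Finset.mul_sum]
  refine Finset.sum_congr rfl fun w' _ => ?_
  rw [prod_block (b := b) X (fun j => z (Sum.inl j)) w', Finset.sum_mul, Finset.mul_sum,
    Finset.mul_sum]
  refine Finset.sum_congr rfl fun w _ => ?_
  split_ifs
  · rfl
  · ring

/-- The slices are killed. -/
private lemma sl_killed (hG : ∀ b, IsGrp (G b)) {u : Ten ι (Σ b, L b)}
    (hu : Killed (prodGrp G) u) (x : {a // ¬ p a} → Σ b, L b) :
    Killed (G b) (sl p b x u) := by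
  intro φ hφ
  by_cases hA : 2 ≤ Fintype.card {a // p a}
  · -- the big contraction
    have hκ : Fintype.card (Fin (Fintype.card {a // p a} - 2) ⊕ {a // ¬ p a}) =
        Fintype.card ι - 2 := by
      have h1 : Fintype.card ι = Fintype.card {a // p a} + Fintype.card {a // ¬ p a} := by
        rw [← Fintype.card_sum]
        exact (Fintype.card_congr (Equiv.sumCompl p)).symm
      rw [Fintype.card_sum, Fintype.card_fin]
      omega
    have h1 := killed_of_card hκ (big_coEqui p hφ) hu
    funext w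
    have h2 := congrFun h1 (Sum.elim (fun j => (⟨b, w j⟩ : Σ b, L b)) x)
    rw [big_apply, Finset.sum_eq_single w] at h2
    · have h3 : (fun j => Sum.elim (fun j => (⟨b, w j⟩ : Σ b, L b)) x
          (Sum.inl j : Fin (Fintype.card {a // p a} - 2) ⊕ {a // ¬ p a})) =
          (fun j => (⟨b, w j⟩ : Σ b, L b)) := rfl
      rw [if_pos h3] at h2
      exact h2
    · intro w' _ hw'
      rw [if_neg]
      intro h
      apply hw'
      funext j
      have := congrFun h j
      simpa using this.symm
    · intro h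
      exact absurd (Finset.mem_univ _) h
  · -- no contraction
    push Not at hA
    have h0 : Fintype.card {a // p a} - 2 = 0 := by omega
    have h0' : (2 : ℂ) ^ (Fintype.card {a // p a} - 2) = 1 := by rw [h0, pow_zero]
    set v := sl p b x u with hv
    have h1 := hφ (2 ^ 2) _ ((hG b).scal 2 two_ne_zero) v
    have h2 : ∀ (κ : Type) [Fintype κ] [DecidableEq κ] (y : Ten κ (L b)),
        rho Finset.univ ((2 : ℂ) • (1 : Matrix (L b) (L b) ℂ)) y =
          (2 : ℂ) ^ Fintype.card κ • y := by
      intro κ _ _ y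
      funext x
      have e : (2 : ℂ) • (1 : Matrix (L b) (L b) ℂ) = Matrix.diagonal fun _ => 2 := by
        rw [Matrix.smul_one_eq_diagonal]
      rw [e, rho_diag, Finset.prod_const, Finset.card_univ, Pi.smul_apply, smul_eq_mul]
    rw [h2, h2, map_smul, Fintype.card_fin, h0', one_smul] at h1
    have h3 : ((2 : ℂ) ^ Fintype.card {a // p a} - 2 ^ 2) • φ v = 0 := by
      rw [sub_smul, h1, sub_self]
    rw [smul_eq_zero] at h3
    rcases h3 with h3 | h3
    · exfalso
      have h4 : Fintype.card {a // p a} = 0 ∨ Fintype.card {a // p a} = 1 := by omega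
      rcases h4 with h4 | h4 <;> rw [h4] at h3 <;> norm_num at h3
    · exact h3

end Slice

theorem prod_wp (hG : ∀ b, IsGrp (G b)) {𝒮 : ∀ b, Set (Set (L b))}
    (hW : ∀ b, WP (G b) (𝒮 b)) : WP (prodGrp G) (prodPat 𝒮) := by
  intro ι _ _ U hst hne hk
  have claim : ∀ T : Finset B, ∃ s : ∀ b, Set (L b), (∀ b ∈ T, s b ∈ 𝒮 b) ∧
      ∃ u ∈ U, ∃ y : ι → Σ b, L b, u y ≠ 0 ∧ ∀ a, (y a).1 ∈ T → (y a).2 ∈ s (y a).1 := by
    intro T
    induction T using Finset.induction_on with
    | empty =>
      obtain ⟨u, hu, hu0⟩ := U.exists_mem_ne_zero_of_ne_bot hne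
      obtain ⟨y, hy⟩ := Function.ne_iff.1 hu0
      exact ⟨fun _ => ∅, by simp, u, hu, y, hy, by simp⟩
    | insert b T hb ih =>
      obtain ⟨s, hs, u, hu, y, hy, hys⟩ := ih
      let p : ι → Prop := fun a => (y a).1 = b
      let x : {a // ¬ p a} → Σ b, L b := fun a => y a
      have hyb : ∀ a : {a // p a}, ∃ l : L b, y a = ⟨b, l⟩ := by
        rintro ⟨a, ha⟩
        rcases hya : y a with ⟨b', l⟩
        have ha' : (y a).1 = b := ha
        rw [hya] at ha'
        simp only at ha'
        subst ha'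
        exact ⟨l, rfl⟩
      choose w0 hw0 using hyb
      have hglue : glue p w0 x = y := by
        funext a
        by_cases ha : p a
        · rw [glue_pos p w0 x ⟨a, ha⟩, ← hw0 ⟨a, ha⟩]
        · exact glue_neg p w0 x ⟨a, ha⟩
      have hUb : U.map (sl p b x) ≠ ⊥ := by
        intro h
        have h1 : sl p b x u ∈ U.map (sl p b x) := Submodule.mem_map_of_mem hu
        rw [h, Submodule.mem_bot] at h1
        have h2 := congrFun h1 w0
        rw [sl_apply, hglue] at h2
        exact hy h2
      obtain ⟨S, hS, v', ⟨v, hv, rfl⟩, w, hvw, hwS⟩ := hW b {a // p a} (U.map (sl p b x))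
        (sl_stab p hG hst x fun a => a.2) hUb (by
          rintro _ ⟨v, hv, rfl⟩
          exact sl_killed p hG (hk v hv) x)
      rw [sl_apply] at hvw
      refine ⟨Function.update s b S, ?_, v, hv, glue p w x, hvw, ?_⟩
      · intro b' hb'
        by_cases h : b' = b
        · subst h
          rw [Function.update_self]
          exact hS
        · rw [Function.update_of_ne h]
          exact hs b' ((Finset.mem_insert.1 hb').resolve_left h)
      · intro a
        by_cases ha : p a
        · rw [glue_pos p w x ⟨a, ha⟩]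
          intro _
          rw [Function.update_self]
          exact hwS ⟨a, ha⟩
        · rw [glue_neg p w x ⟨a, ha⟩]
          intro h
          have h1 : (y a).1 ≠ b := ha
          rw [Function.update_of_ne h1]
          exact hys a ((Finset.mem_insert.1 h).resolve_left h1)
  obtain ⟨s, hs, u, hu, y, hy, hys⟩ := claim Finset.univ
  exact ⟨_, ⟨s, fun b => hs b (Finset.mem_univ b), rfl⟩, u, hu, y, hy,
    fun a => hys a (Finset.mem_univ _)⟩

end Pool.Agent.Helper48.PW
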