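import Pool.Agent.Helper48.PW.Kind

/-!
# PW-SP: the symplectic factors

`isGrp_sp`. PROOF. `scal`: `(t • 1)ᵀ J (t • 1) = t² J`. `star`: from `Mᵀ J M = c J` get
`M J Mᵀ = c J` (`Sim.symm` in Helper48/GC8/Claim.lean with `col = fun _ => ()`, or directly: `M` is
invertible), transpose-conjugate (`J` is real).

`wp_sp`. PROOF. `U` stable, nonzero, killed. For `a ≠ b` the contraction `con J a b` of two
positions vanishes on `U` (compare `killed_con` in Helper48/WT/Trace.lean: the map
`u ↦ (x' ↦ ∑ r s, J r s * u (x' with r at a, s at b))`, reindexed to `Fin (card ι - 2)`, is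
`CoEqui` because `Xᵀ J X = c J`). `exists_highest` of Helper48/GC8/Weyl.lean with
`col = fun _ : Fin g => ()`, `R = univ` (`JB col () = J`; the matrices `fromBlocks 1 B 0 1`, `B`
symmetric, are in the group with multiplier `1`) gives `u ∈ U` and a word `x` with letters
`Sum.inl i` only and `u x ≠ 0`.
-/

set_option autoImplicit false

namespace Pool.Agent.Helper48.PW

open Polynomial Pool.Agent.Helper48.GC8

section

variable {L : Type} [Fintype L] [DecidableEq L] {ι : Type} [Fintype ι] [DecidableEq ι]

/-- The word with `r0` at the places `a`, `b` and `y` at the other places. -/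
private noncomputable def extw50 {a b : ι} (e : {k : ι // k ≠ a ∧ k ≠ b} ≃ Fin (Fintype.card ι - 2))
    (r0 : L) (y : Fin (Fintype.card ι - 2) → L) : ι → L :=
  fun k => if h : k ≠ a ∧ k ≠ b then y (e ⟨k, h⟩) else r0

omit [DecidableEq ι] in
private lemma exists_e50 {a b : ι} [DecidableEq ι] (hab : a ≠ b) :
    Nonempty ({k : ι // k ≠ a ∧ k ≠ b} ≃ Fin (Fintype.card ι - 2)) := by
  refine ⟨Fintype.equivFinOfCardEq ?_⟩
  rw [Fintype.card_subtype]
  have h1 : (Finset.univ.filter (fun k : ι => k ≠ a ∧ k ≠ b)) = Finset.univ \ {a, b} := by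
    ext k
    simp [not_or]
  rw [h1, Finset.card_sdiff_of_subset (Finset.subset_univ _), Finset.card_univ,
    Finset.card_pair hab]

private lemma rho_extw50 {a b : ι} (e : {k : ι // k ≠ a ∧ k ≠ b} ≃ Fin (Fintype.card ι - 2))
    (r0 : L) (X : Matrix (L) (L) ℂ) (w : Ten ι (L))
    (y : Fin (Fintype.card ι - 2) → L) :
    rho (Finset.univ \ {a, b}) X w (extw50 e r0 y) =
      rho Finset.univ X (fun y' => w (extw50 e r0 y')) y := by
  rw [rho_apply, rho_apply]
  symm
  refine Fintype.sum_of_injective (fun y' => extw50 e r0 y') ?_ _ _ ?_ ?_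
  · intro y1 y2 h
    funext j
    have h1 := congrFun h (e.symm j).1
    have h2 := (e.symm j).2
    simp only [extw50] at h1
    rw [dif_pos h2, dif_pos h2] at h1
    simpa using h1
  · intro z hz
    have h1 : ∃ k, (k = a ∨ k = b) ∧ z k ≠ r0 := by
      by_contra hcon
      push Not at hcon
      apply hz
      refine ⟨fun j => z (e.symm j).1, ?_⟩
      funext k
      simp only [extw50]
      by_cases hk : k ≠ a ∧ k ≠ b
      · rw [dif_pos hk, Equiv.symm_apply_apply]
      · rw [dif_neg hk]
        have hk' : k = a ∨ k = b := by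
          by_contra h3
          push Not at h3
          exact hk h3
        exact (hcon k hk').symm
    obtain ⟨k, hk, hzk⟩ := h1
    rw [Finset.prod_eq_zero (Finset.mem_univ k), zero_mul]
    have h2 : k ∉ Finset.univ \ {a, b} := by
      rcases hk with rfl | rfl <;> simp
    have h3 : extw50 e r0 y k = r0 := by
      simp only [extw50]
      rw [dif_neg]
      rintro ⟨h4, h5⟩
      rcases hk with hk | hk
      · exact h4 hk
      · exact h5 hk
    rw [if_neg h2, h3]
    exact Matrix.one_apply_ne (Ne.symm hzk)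
  · intro y'
    congr 1
    rw [← Finset.prod_subset (Finset.subset_univ (Finset.univ.filter (fun k : ι => k ≠ a ∧ k ≠ b)))]
    · rw [← Finset.prod_subtype_of_mem (p := fun k : ι => k ≠ a ∧ k ≠ b)
        (s := Finset.univ.filter (fun k : ι => k ≠ a ∧ k ≠ b))
        (fun k => (if k ∈ Finset.univ \ {a, b} then X else 1) (extw50 e r0 y k) (extw50 e r0 y' k))
        (fun k hk => (Finset.mem_filter.1 hk).2)]
      symm
      refine Finset.prod_bij (fun k _ => e k) (fun k _ => Finset.mem_univ _)
        (fun k1 _ k2 _ h => e.injective h) ?_ ?_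
      · intro j _
        refine ⟨e.symm j, ?_, by simp⟩
        rw [Finset.mem_subtype, Finset.mem_filter]
        exact ⟨Finset.mem_univ _, (e.symm j).2⟩
      · intro k _
        have h1 : k.1 ∈ Finset.univ \ {a, b} := by
          simp [k.2.1, k.2.2]
        rw [if_pos h1, if_pos (Finset.mem_univ _)]
        simp only [extw50]
        rw [dif_pos k.2, dif_pos k.2]
    · intro k _ hk
      have h2 : ¬ (k ≠ a ∧ k ≠ b) := fun h => hk (Finset.mem_filter.2 ⟨Finset.mem_univ _, h⟩)
      have h1 : k ∉ Finset.univ \ {a, b} := by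
        intro h3
        apply h2
        simpa [not_or] using h3
      have h3 : ∀ y : Fin (Fintype.card ι - 2) → L, extw50 e r0 y k = r0 := by
        intro y
        simp only [extw50]
        rw [dif_neg h2]
      rw [if_neg h1, h3, h3]
      exact Matrix.one_apply_eq _

private lemma killed_con50 {G : Grp L} {u : Ten ι L} (hu : Killed G u) (J : Matrix L L ℂ)
    (hJ : ∀ (c : ℂ) (M : Matrix L L ℂ), G c M → M.transpose * J * M = c • J) {a b : ι}
    (hab : a ≠ b) (x : ι → L) : con J a b u x = 0 := by
  obtain ⟨e⟩ := exists_e50 hab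
  let φ : Ten ι L →ₗ[ℂ] Ten (Fin (Fintype.card ι - 2)) L :=
    { toFun := fun v y => con J a b v (extw50 e (x a) y)
      map_add' := by
        intro v w
        funext y
        rw [map_add]
        rfl
      map_smul' := by
        intro c v
        funext y
        rw [map_smul]
        rfl }
  have hφ : CoEqui G φ := by
    intro c M hM v
    funext y
    change con J a b (rho Finset.univ M v) (extw50 e (x a) y) = _
    rw [con_rho Finset.univ J M (hJ c M hM) (Finset.mem_univ a) (Finset.mem_univ b) hab,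
      Pi.smul_apply, Pi.smul_apply, rho_extw50]
    rfl
  have h1 := congrFun (hu φ hφ) (fun j => x (e.symm j).1)
  change con J a b u (extw50 e (x a) (fun j => x (e.symm j).1)) = 0 at h1
  rw [← h1, con_apply, con_apply]
  refine Finset.sum_congr rfl fun r _ => Finset.sum_congr rfl fun s _ => ?_
  congr 2
  funext k
  by_cases hkb : k = b
  · subst hkb
    simp
  · rw [Function.update_of_ne hkb, Function.update_of_ne hkb]
    by_cases hka : k = a
    · subst hka
      simp
    · rw [Function.update_of_ne hka, Function.update_of_ne hka]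
      simp only [extw50]
      rw [dif_pos ⟨hka, hkb⟩, Equiv.symm_apply_apply]

end

private lemma J_conj50 (g : ℕ) :
    (Matrix.J (Fin g) ℂ).conjTranspose = -Matrix.J (Fin g) ℂ := by
  unfold Matrix.J
  rw [Matrix.fromBlocks_conjTranspose, Matrix.fromBlocks_neg]
  simp

private lemma symm50 {g : ℕ} {c : ℂ} (hc : c ≠ 0) {M : Matrix (L2 g) (L2 g) ℂ}
    (h : M.transpose * Matrix.J (Fin g) ℂ * M = c • Matrix.J (Fin g) ℂ) :
    M * Matrix.J (Fin g) ℂ * M.transpose = c • Matrix.J (Fin g) ℂ :=
  Sim.symm (col := fun _ : Fin g => ()) hc ⟨h, fun r s hrs => absurd rfl hrs⟩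

theorem isGrp_sp (g : ℕ) : IsGrp (inSp g) := by
  refine ⟨fun c M h => h.1, fun c M h => ⟨by simpa using h.1, ?_⟩, fun t ht =>
    ⟨pow_ne_zero 2 ht, ?_⟩⟩
  · have h1 := congrArg Matrix.conjTranspose (symm50 h.1 h.2)
    rw [Matrix.conjTranspose_mul, Matrix.conjTranspose_mul, Matrix.conjTranspose_smul, J_conj50,
      Matrix.neg_mul, Matrix.mul_neg, smul_neg, neg_inj, ← Matrix.mul_assoc] at h1
    exact h1
  · rw [Matrix.transpose_smul, Matrix.transpose_one, Matrix.smul_mul, Matrix.one_mul,
      Matrix.smul_mul, Matrix.mul_smul, Matrix.mul_one, smul_smul, sq]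

private lemma JB_one50 (g : ℕ) (c : Unit) :
    JB (fun _ : Fin g => ()) c = Matrix.J (Fin g) ℂ := by
  unfold JB Matrix.J
  simp

private lemma unip50 {g : ℕ} {B : Matrix (Fin g) (Fin g) ℂ} (hB : B.transpose = B) :
    inSp g 1 (Matrix.fromBlocks 1 B 0 1) := by
  refine ⟨one_ne_zero, ?_⟩
  unfold Matrix.J
  rw [Matrix.fromBlocks_transpose, Matrix.fromBlocks_multiply, Matrix.fromBlocks_multiply, one_smul]
  simp [hB]

theorem wp_sp (g : ℕ) : WP (inSp g) {pt Finset.univ} := by
  intro ι _ _ U hU hne hk
  have hne' : ∃ u ∈ U, u ≠ 0 := (Submodule.ne_bot_iff U).1 hne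
  obtain ⟨u, hu, x, hx, hxi⟩ := exists_highest (fun _ : Fin g => ()) Finset.univ U
    (fun B hB _ u hu => hU 1 _ (unip50 hB) u hu)
    (fun u hu c a _ b _ hab => by
      rw [JB_one50]
      funext x
      exact killed_con50 (hk u hu) _ (fun c M hM => hM.2) hab x) hne'
  refine ⟨pt Finset.univ, rfl, u, hu, x, hx, fun a => ?_⟩
  obtain ⟨i, hi⟩ := hxi a (Finset.mem_univ a)
  rw [hi]
  change i ∈ Finset.univ
  exact Finset.mem_univ i

end Pool.Agent.Helper48.PW
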