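import Pool.Agent.Helper48.PW.Kind
import Pool.Agent.Helper48.WT.Word

/-!
# PW-WW: the word property for the factors of Weil type

`isGrp_weil`. PROOF. `ne`: `InG.ne`. `star`: `frob_conjTranspose`, `InG.conjTranspose` of
Helper48/WT/Basic.lean. `scal`: `g = t • 1`, `det g = t ^ (2p) = (t²) ^ p`,
`frob (t²) (t • 1) = t • 1`.

`wp_weil`. PROOF. `Stab`, `Killed` for `inWeil p tor` are `WT.Stab`, `WT.Killed` (unfold; the
`CoEqui` are the same). If `p = 0` there are no letters: `ι` is empty or `Ten ι` is zero; take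
`s = ∅`. If `p ≥ 1`: `WT.exists_word rfl` gives `u`, `y` such that
`De = {i | e_i in y}`, `Df = {i | f_i in y}` are disjoint with at most `p` elements; choose
`De ⊆ s ⊆ Dfᶜ` with `|s| = p` (`Finset.exists_subsuperset_card_eq`, as in the proof of
`arith` in Helper48/WT/Arith.lean).
-/

set_option autoImplicit false

namespace Pool.Agent.Helper48.PW

open Polynomial Pool.Agent.Helper48.GC8

theorem isGrp_weil (p : ℕ) (tor : Finset (Fin (2 * p))) : IsGrp (inWeil p tor) := by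
  refine ⟨?_, ?_, ?_⟩
  · rintro c M ⟨g, hg, -⟩
    exact hg.ne
  · rintro c M ⟨g, hg, rfl⟩
    exact ⟨g.conjTranspose, hg.conjTranspose, WT.frob_conjTranspose c g⟩
  · intro t ht
    have h1 : Matrix.diagonal (fun _ : Fin (2 * p) => t) = t • (1 : Matrix _ _ ℂ) :=
      (Matrix.smul_one_eq_diagonal t).symm
    refine ⟨Matrix.diagonal (fun _ => t), ⟨pow_ne_zero 2 ht, fun i j hij _ => ?_, ?_⟩, ?_⟩
    · exact Matrix.diagonal_apply_ne _ hij
    · rw [Matrix.det_diagonal, Finset.prod_const, Finset.card_univ, Fintype.card_fin, pow_mul]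
    · rw [WT.frob_diagonal _ _ (fun _ => ht), Matrix.smul_one_eq_diagonal]
      congr 1
      funext x
      rcases x with i | i
      · rfl
      · simp only [Sum.elim_inr]
        field_simp

theorem wp_weil (p : ℕ) (tor : Finset (Fin (2 * p))) :
    WP (inWeil p tor) {S | ∃ s : Finset (Fin (2 * p)), s.card = p ∧ S = pt s} := by
  intro ι _ _ U hU hne hk
  have hU' : WT.Stab p tor U := fun c g hg u hu => hU c _ ⟨g, hg, rfl⟩ u hu
  have hk' : ∀ u ∈ U, WT.Killed p tor u := by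
    intro u hu φ hφ
    refine hk u hu φ ?_
    rintro c M ⟨g, hg, rfl⟩ v
    exact hφ c g hg v
  rcases Nat.eq_zero_or_pos p with rfl | hp
  · obtain ⟨u, hu, hu0⟩ := Submodule.exists_mem_ne_zero_of_ne_bot hne
    obtain ⟨y, hy⟩ : ∃ y, u y ≠ 0 := by
      by_contra hcon
      push Not at hcon
      exact hu0 (funext hcon)
    refine ⟨_, ⟨∅, Finset.card_empty, rfl⟩, u, hu, y, hy, fun a => ?_⟩
    rcases y a with i | i
    · exact Fin.elim0 i
    · exact Fin.elim0 i
  · obtain ⟨u, hu, y, hy, hdis, hDe, hDf⟩ := WT.exists_word rfl hp hU' hne hk'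
    obtain ⟨De, hDe1, hDe2⟩ : ∃ De : Finset (Fin (2 * p)),
        (∀ i, i ∈ De ↔ ∃ a, y a = Sum.inl i) ∧ De.card ≤ p :=
      ⟨_, fun i => by rw [Finset.mem_filter, and_iff_right (Finset.mem_univ i)], hDe⟩
    obtain ⟨Df, hDf1, hDf2⟩ : ∃ Df : Finset (Fin (2 * p)),
        (∀ i, i ∈ Df ↔ ∃ a, y a = Sum.inr i) ∧ Df.card ≤ p :=
      ⟨_, fun i => by rw [Finset.mem_filter, and_iff_right (Finset.mem_univ i)], hDf⟩
    have hsub : De ⊆ Dfᶜ := by
      intro i hi
      rw [Finset.mem_compl]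
      intro hi2
      obtain ⟨a, ha⟩ := (hDe1 i).1 hi
      obtain ⟨b, hb⟩ := (hDf1 i).1 hi2
      exact hdis i a b ha hb
    have hDfc : p ≤ Dfᶜ.card := by
      rw [Finset.card_compl, Fintype.card_fin]
      omega
    obtain ⟨s, hs1, hs2, hs3⟩ := Finset.exists_subsuperset_card_eq hsub hDe2 hDfc
    refine ⟨_, ⟨s, hs3, rfl⟩, u, hu, y, hy, fun a => ?_⟩
    show Sum.elim (fun i => i ∈ s) (fun i => i ∉ s) (y a)
    rcases h : y a with i | i
    · exact hs1 ((hDe1 i).2 ⟨a, h⟩)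
    · intro hi
      exact Finset.mem_compl.1 (hs2 hi) ((hDf1 i).2 ⟨a, h⟩)

end Pool.Agent.Helper48.PW
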