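import Pool.Agent.Helper48.PW.Claim
import Pool.Agent.Helper48.PW.Link
import Pool.Agent.Helper48.PW.Eff
import Pool.Agent.Helper48.PW.Dense
import Pool.Agent.Helper48.PW.Contra
import Pool.Agent.Helper48.PW.Prod
import Pool.Agent.Helper48.PW.Sp
import Pool.Agent.Helper48.PW.SpFrame
import Pool.Agent.Helper48.PW.Cm
import Pool.Agent.Helper48.PW.WeilWP
import Pool.Agent.Helper48.PW.WeilFrame
import Pool.Agent.Helper48.PW.FrameProd
import Pool.Agent.Helper48.PW.AutoDis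
import Pool.Agent.Helper48.PW.AutoAll

/-!
# PW: the word property, the eigenbases and the units for the product (assembly by helper48)
-/

set_option autoImplicit false

namespace Pool.Agent.Helper48.PW

open Polynomial Pool.Agent.Helper48.GC8

theorem Kind.isGrp (k : Kind) : IsGrp k.InG := by
  cases k with
  | sp g => exact isGrp_sp g
  | cm => exact isGrp_cm
  | weil p tor => exact isGrp_weil p tor

theorem Kind.wp (k : Kind) : WP k.InG k.pat := by
  cases k with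
  | sp g =>
    intro ι _ _ U h1 h2 h3
    obtain ⟨S, hS, hu⟩ := wp_sp g ι U h1 h2 h3
    exact ⟨S, ⟨Finset.univ, rfl, hS⟩, hu⟩
  | cm =>
    intro ι _ _ U h1 h2 h3
    obtain ⟨S, ⟨s, hS⟩, hu⟩ := wp_cm ι U h1 h2 h3
    exact ⟨S, ⟨s, trivial, hS⟩, hu⟩
  | weil p tor =>
    intro ι _ _ U h1 h2 h3
    obtain ⟨S, ⟨s, hs, hS⟩, hu⟩ := wp_weil p tor ι U h1 h2 h3
    exact ⟨S, ⟨s, hs, hS⟩, hu⟩

theorem Kind.exists_eig (k : Kind) {q : ℕ} {M : Matrix k.Ind k.Ind ℂ} (hM : k.InG (q : ℂ) M)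
    (hF : IsFrob q M) : ∃ (h h' : Matrix k.Ind k.Ind ℂ) (δ : k.Ind → integralClosure ℤ ℂ),
      Eig k q M h h' δ := by
  cases k with
  | sp g => exact eig_sp hM hF
  | cm => exact eig_cm hM hF
  | weil p tor =>
    obtain ⟨h, h', δ, h1, -⟩ := eig_weil hM hF
    exact ⟨h, h', δ, h1⟩

theorem Kind.exists_frame (k : Kind) {q : ℕ} {M : Matrix k.Ind k.Ind ℂ} (hM : k.InG (q : ℂ) M)
    (hF : IsFrob q M) {P : Ideal (integralClosure ℤ ℂ)} (hP : P.IsPrime)
    (hqP : (q : integralClosure ℤ ℂ) ∈ P) (hord : IsOrd q P M) {s : Finset (Fin k.dim)}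
    (hs : k.Adm s) (hu : ∀ i ∈ k.tor, ∀ x ∈ P, (x : ℂ) ≠
      M (if i ∈ s then Sum.inl i else Sum.inr i) (if i ∈ s then Sum.inl i else Sum.inr i)) :
    ∃ (h h' : Matrix k.Ind k.Ind ℂ) (δ : k.Ind → integralClosure ℤ ℂ),
      Eig k q M h h' δ ∧ ∀ l ∈ pt s, δ l ∉ P := by
  cases k with
  | sp g =>
    have h1 : s = Finset.univ := hs
    subst h1
    exact frame_sp hM hF hP hqP hord
  | cm => exact frame_cm hM hF s (fun i => hu i (Finset.mem_univ i))
  | weil p tor => exact frame_weil hM hF hP hqP hord s hs hu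

section Total

variable {B : Type} [Fintype B] [DecidableEq B] {k : B → Kind}

theorem isGrp_total : IsGrp (InGroup k) := prod_isGrp fun b => (k b).isGrp

theorem wp_total : WP (InGroup k) (prodPat fun b => (k b).pat) :=
  prod_wp (fun b => (k b).isGrp) (fun b => (k b).wp)

theorem realised {𝓕 : Set (ℕ × Matrix (Ind k) (Ind k) ℂ)}
    (h𝓕 : ∀ z ∈ 𝓕, IsFrob z.1 z.2 ∧ InGroup k (z.1 : ℂ) z.2) (hun : HasUnits k 𝓕)
    {S : Set (Ind k)} (hS : S ∈ prodPat fun b => (k b).pat) : Realised (InGroup k) 𝓕 S := by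
  obtain ⟨T, hT, rfl⟩ := hS
  choose s hs hTs using hT
  obtain ⟨z, hz, P, hP, hqP, hord, hu⟩ := hun s hs
  obtain ⟨hF, hq0, X, hX, hM⟩ := h𝓕 z hz
  refine ⟨z, hz, hq0, P, hP, hqP, ?_⟩
  have h1 : {x : Ind k | x.2 ∈ T x.1} = {x : Ind k | x.2 ∈ pt (s x.1)} := by
    ext x
    simp only [Set.mem_setOf_eq, hTs x.1]
  rw [h1, hM]
  rw [hM] at hF hord
  refine frame_prod (q := z.1) fun b => ?_
  refine (k b).exists_frame (hX b) (isFrob_block hF b) hP hqP (isOrd_block hord b) (hs b) ?_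
  intro i hi x hx
  have h2 := hu b i hi x hx
  rw [hM] at h2
  unfold letter at h2
  rw [Matrix.blockDiagonal'_apply_eq] at h2
  exact h2

/-- The main inclusion on tensors. -/
theorem le_tt {𝓕 : Set (ℕ × Matrix (Ind k) (Ind k) ℂ)}
    (h𝓕 : ∀ z ∈ 𝓕, IsFrob z.1 z.2 ∧ InGroup k (z.1 : ℂ) z.2) (hun : HasUnits k 𝓕) (w ν : ℕ)
    (ι : Type) [Fintype ι] [DecidableEq ι] (U : Submodule ℂ (Ten ι (Ind k)))
    (hc : Fintype.card ι = w + 2 * ν) (hst : Stab (InGroup k) U) (hgood : Good 𝓕 ν U) :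
    U ≤ tt (InGroup k) ι ν := by
  refine claimT isGrp_total (fun z hz => (h𝓕 z hz).2) w ?_ ν ι U hc hst hgood
  intro ι _ _ t U ht _ hst hgood hk
  by_contra hne
  obtain ⟨S, hS, u, hu, y, hy, hyS⟩ := wp_total ι U hst hne hk
  exact contra (realised h𝓕 hun hS) ht hst hgood hu hy hyS

/-- An eigenbasis of a Frobenius with integral eigenvalues. -/
theorem exists_total {q : ℕ} {M : Matrix (Ind k) (Ind k) ℂ} (hF : IsFrob q M)
    (hM : InGroup k (q : ℂ) M) :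
    ∃ (h h' : Matrix (Ind k) (Ind k) ℂ) (ev : Ind k → ℂ), h' * h = 1 ∧
      M * h = h * Matrix.diagonal ev ∧ ∀ i, IsIntegral ℤ (ev i) ∧ IsIntegral ℤ ((q : ℂ) / ev i) := by
  obtain ⟨hq0, X, hX, rfl⟩ := hM
  obtain ⟨h, h', δ, -, h2, h3, h4, -⟩ := eig_prod (q := q) (X := X) fun b =>
    (k b).exists_eig (hX b) (isFrob_block hF b)
  refine ⟨h, h', fun l => (δ l : ℂ), h2, h3, ?_⟩
  have key : ∀ x y : integralClosure ℤ ℂ, x * y = (q : integralClosure ℤ ℂ) →
      IsIntegral ℤ (x : ℂ) ∧ IsIntegral ℤ ((q : ℂ) / (x : ℂ)) := by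
    intro x y hxy
    refine ⟨x.2, ?_⟩
    have h5 : (x : ℂ) * (y : ℂ) = (q : ℂ) := by
      have := congrArg (Subtype.val : integralClosure ℤ ℂ → ℂ) hxy
      simpa using this
    have hx0 : (x : ℂ) ≠ 0 := by
      intro h0
      rw [h0, zero_mul] at h5
      exact hq0 h5.symm
    rw [← h5, mul_div_cancel_left₀ _ hx0]
    exact y.2
  rintro ⟨b, i | i⟩
  · exact key _ _ (h4 b i)
  · exact key _ _ (by rw [mul_comm]; exact h4 b i)

end Total

end Pool.Agent.Helper48.PW
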