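import Pool.Agent.Helper48.PW.Defs

/-!
# The types of factors and the hypotheses on the Frobenii (project PW)
-/

set_option autoImplicit false

namespace Pool.Agent.Helper48.PW

open Polynomial Pool.Agent.Helper48.GC8

/-- The letters `e_i`, `i ∈ s`, and `f_i`, `i ∉ s`. -/
def pt {d : ℕ} (s : Finset (Fin d)) : Set (L2 d) :=
  {x | Sum.elim (fun i => i ∈ s) (fun i => i ∉ s) x}

/-- The types of factors: `sp g` symplectic of dimension `2g`; `cm` elliptic curves with complex
multiplication; `weil p tor` Weil type `(p, p)`, diagonal at the indices in `tor`. -/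
inductive Kind
  | sp (g : ℕ)
  | cm
  | weil (p : ℕ) (tor : Finset (Fin (2 * p)))

/-- Half the dimension. -/
@[reducible] def Kind.dim : Kind → ℕ
  | .sp g => g
  | .cm => 1
  | .weil p _ => 2 * p

/-- The letters. -/
abbrev Kind.Ind (k : Kind) : Type := Fin k.dim ⊕ Fin k.dim

/-- The group of the factor. -/
def Kind.InG : (k : Kind) → Grp k.Ind
  | .sp g => inSp g
  | .cm => inCm
  | .weil p tor => inWeil p tor

/-- The torus indices. -/
def Kind.tor : (k : Kind) → Finset (Fin k.dim)
  | .sp _ => ∅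
  | .cm => Finset.univ
  | .weil _ tor => tor

/-- The sets `s` such that the eigenvalues at `e_i`, `i ∈ s`, and `f_i`, `i ∉ s`, may be the
units. -/
def Kind.Adm : (k : Kind) → Finset (Fin k.dim) → Prop
  | .sp _, s => s = Finset.univ
  | .cm, _ => True
  | .weil p _, s => s.card = p

/-- The sets of unit letters. -/
def Kind.pat (k : Kind) : Set (Set k.Ind) := {S | ∃ s, k.Adm s ∧ S = pt s}

/-- Ordinary at the prime `P`: for every eigenvalue `β` one of `β`, `q / β` is outside of `P`. -/
def IsOrd {L : Type} [Fintype L] [DecidableEq L] (q : ℕ) (P : Ideal (integralClosure ℤ ℂ))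
    (M : Matrix L L ℂ) : Prop :=
  ∀ β : ℂ, M.charpoly.IsRoot β → (∀ x ∈ P, (x : ℂ) ≠ β) ∨ ∀ x ∈ P, (x : ℂ) ≠ (q : ℂ) / β

/-- Semisimple, and `β` and `q / β` are algebraic integers for every eigenvalue `β`. -/
structure IsFrob {L : Type} [Fintype L] [DecidableEq L] (q : ℕ) (M : Matrix L L ℂ) : Prop where
  two_le : 2 ≤ q
  semisimple : Module.End.IsSemisimple (Matrix.toLin' M)
  integral : ∀ β : ℂ, M.charpoly.IsRoot β → IsIntegral ℤ β ∧ IsIntegral ℤ ((q : ℂ) / β)

/-- An eigenbasis in the group with eigenvalues `δ`; the eigenvalues at the torus letters are the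
diagonal entries. -/
structure Eig (k : Kind) (q : ℕ) (M h h' : Matrix k.Ind k.Ind ℂ)
    (δ : k.Ind → integralClosure ℤ ℂ) : Prop where
  inG : k.InG 1 h
  inv : h' * h = 1
  eig : M * h = h * Matrix.diagonal (fun l => (δ l : ℂ))
  mul : ∀ i, δ (Sum.inl i) * δ (Sum.inr i) = (q : integralClosure ℤ ℂ)
  torl : ∀ i ∈ k.tor, (δ (Sum.inl i) : ℂ) = M (Sum.inl i) (Sum.inl i)
  torr : ∀ i ∈ k.tor, (δ (Sum.inr i) : ℂ) = M (Sum.inr i) (Sum.inr i)

section Total

variable {B : Type} [Fintype B] [DecidableEq B] (k : B → Kind)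

/-- The letters of the product. -/
abbrev Ind : Type := Σ b, (k b).Ind

/-- The group of the product: block diagonal, with one multiplier. -/
def InGroup : Grp (Ind k) := prodGrp (fun b => (k b).InG)

/-- The torus letter of index `i` in the block `b` chosen by `s`. -/
def letter (s : ∀ b, Finset (Fin (k b).dim)) (b : B) (i : Fin (k b).dim) : Ind k :=
  ⟨b, if i ∈ s b then Sum.inl i else Sum.inr i⟩

/-- For all admissible `s` some Frobenius is ordinary at some prime over `q` which does not contain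
the eigenvalues at the torus letters chosen by `s`. -/
def HasUnits (𝓕 : Set (ℕ × Matrix (Ind k) (Ind k) ℂ)) : Prop :=
  ∀ s : ∀ b, Finset (Fin (k b).dim), (∀ b, (k b).Adm (s b)) → ∃ z ∈ 𝓕,
    ∃ P : Ideal (integralClosure ℤ ℂ), P.IsPrime ∧ (z.1 : integralClosure ℤ ℂ) ∈ P ∧
      IsOrd z.1 P z.2 ∧
      ∀ b, ∀ i ∈ (k b).tor, ∀ x ∈ P, (x : ℂ) ≠ z.2 (letter k s b i) (letter k s b i)

end Total

end Pool.Agent.Helper48.PW
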