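import Pool.Agent.Helper48.PW.Fin

/-!
# The Galois coniveau filtration of all powers of products of abelian varieties with big monodromy

`V = ⊕ V_b` is the first `ℓ`-adic cohomology (coefficients extended to `ℚ̄_ℓ ≅ ℂ`) of an abelian
variety `A` over a number field; the cohomology of `Aⁿ` is the exterior algebra of `Vⁿ`. The blocks
`V_b` are of three types (`Kind`, with the groups `inSp`, `inCm`, `inWeil`):
* `sp g`: dimension `2g`, monodromy `GSp_{2g}` (abelian varieties with `End = ℤ`, or the eigenspaces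
  of totally real or quaternion multiplication of type I, II);
* `cm`: dimension `2`, monodromy the torus (elliptic curves with complex multiplication, eigenspaces
  of abelian varieties with complex multiplication by a field `E`, if their torus is the full one);
* `weil p tor`: `W ⊕ W'` with `dim W = 2p`, the Frobenii act on `W` with determinant `q ^ p` (Weil
  type, also for the places of a CM field), diagonal at the indices in `tor`.
The group `InGroup k` of the product consists of the block diagonal matrices with one multiplier.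
`𝓕` is the set of the pairs (number `q` of elements of the residue field, Frobenius on `V`) for the
places of good reduction prime to `ℓ`.
-/

set_option autoImplicit false

namespace Pool.Agent.Helper48.PW.Main

open Module Polynomial Pool.Agent.Helper48.PW

variable {B : Type} [Fintype B] [DecidableEq B]

/-- A Frobenius on `V`, with the number of elements of the residue field. -/
abbrev Frob (k : B → Kind) : Type := ℕ × Matrix (Ind k) (Ind k) ℂ

/-- The Frobenius on `Λ(Vⁿ)`. -/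
noncomputable def frobExt {k : B → Kind} (n : ℕ) (z : Frob k) :
    ExteriorAlgebra ℂ (Fin n → Ind k → ℂ) →ₐ[ℂ] ExteriorAlgebra ℂ (Fin n → Ind k → ℂ) :=
  ExteriorAlgebra.map ((Matrix.toLin' z.2).compLeft (Fin n))

/-! ### The coniveau filtrations -/

/-- `U ⊆ Λⁱ(Vⁿ)` is a subrepresentation such that `U(ν)` is effective of weight `i - 2ν`:
`U` is stable under all Frobenii, and for every eigenvalue `β` of a Frobenius `(q, M)` on `U`
both `β / q ^ ν` and `q ^ (i - ν) / β = q ^ (i - 2ν) / (β / q ^ ν)` are algebraic integers. -/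
structure IsEffective {k : B → Kind} (𝓕 : Set (Frob k)) (n i ν : ℕ)
    (U : Submodule ℂ (ExteriorAlgebra ℂ (Fin n → Ind k → ℂ))) : Prop where
  le : U ≤ ⋀[ℂ]^i (Fin n → Ind k → ℂ)
  stable : ∀ z ∈ 𝓕, ∀ x ∈ U, frobExt n z x ∈ U
  integral : ∀ z ∈ 𝓕, ∀ x ∈ U, x ≠ 0 → ∀ β : ℂ, frobExt n z x = β • x →
    IsIntegral ℤ (β / (z.1 : ℂ) ^ ν) ∧ IsIntegral ℤ ((z.1 : ℂ) ^ (i - ν) / β)

/-- The Galois coniveau: the span of all subrepresentations `U` of `Λⁱ(Vⁿ)` such that `U(ν)` is
effective of weight `i - 2ν`. -/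
noncomputable def galoisConiveau {k : B → Kind} (𝓕 : Set (Frob k)) (n i ν : ℕ) :
    Submodule ℂ (ExteriorAlgebra ℂ (Fin n → Ind k → ℂ)) :=
  sSup {U | IsEffective 𝓕 n i ν U}

/-- `φ` maps `Λ^(i-2ν)(Vᵐ)` to `Λⁱ(Vⁿ)` and commutes with the Frobenii up to the factor `q ^ ν`:
the map given by a Tate class on `Aᵐ × Aⁿ`. -/
structure IsTateMap {k : B → Kind} (𝓕 : Set (Frob k)) (m n i ν : ℕ)
    (φ : ExteriorAlgebra ℂ (Fin m → Ind k → ℂ) →ₗ[ℂ]
      ExteriorAlgebra ℂ (Fin n → Ind k → ℂ)) : Prop where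
  mem : ∀ y ∈ ⋀[ℂ]^(i - 2 * ν) (Fin m → Ind k → ℂ), φ y ∈ ⋀[ℂ]^i (Fin n → Ind k → ℂ)
  comm : ∀ z ∈ 𝓕, ∀ y ∈ ⋀[ℂ]^(i - 2 * ν) (Fin m → Ind k → ℂ),
    frobExt n z (φ y) = (z.1 : ℂ) ^ ν • φ (frobExt m z y)

/-- The Tate coniveau: the span of the images of `Λ^(i-2ν)(Vᵐ)`, for all `m`, under all maps given
by Tate classes on `Aᵐ × Aⁿ`. -/
noncomputable def tateConiveau {k : B → Kind} (𝓕 : Set (Frob k)) (n i ν : ℕ) :
    Submodule ℂ (ExteriorAlgebra ℂ (Fin n → Ind k → ℂ)) :=
  Submodule.span ℂ {x | ∃ (m : ℕ) (φ : ExteriorAlgebra ℂ (Fin m → Ind k → ℂ) →ₗ[ℂ]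
      ExteriorAlgebra ℂ (Fin n → Ind k → ℂ)),
    IsTateMap 𝓕 m n i ν φ ∧ ∃ y ∈ ⋀[ℂ]^(i - 2 * ν) (Fin m → Ind k → ℂ), x = φ y}

/-! ### Systems of Frobenii with big monodromy -/

/-- The Frobenius is semisimple and its eigenvalues are algebraic integers of absolute value `√q`. -/
structure IsWeil {k : B → Kind} (z : Frob k) : Prop where
  two_le : 2 ≤ z.1
  semisimple : Module.End.IsSemisimple (Matrix.toLin' z.2)
  integral : ∀ β : ℂ, z.2.charpoly.IsRoot β → IsIntegral ℤ β ∧ ‖β‖ = Real.sqrt z.1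

/-- `𝓕` is Zariski dense in the group: every polynomial in the multiplier and the entries of the
matrix which vanishes at all `(q, M) ∈ 𝓕` vanishes on the group. -/
def IsDense {k : B → Kind} (𝓕 : Set (Frob k)) : Prop :=
  ∀ f : MvPolynomial (Option (Ind k × Ind k)) ℂ,
    (∀ z ∈ 𝓕, MvPolynomial.eval (fun o => o.elim (z.1 : ℂ) (fun p => z.2 p.1 p.2)) f = 0) →
    ∀ (c : ℂ) (M : Matrix (Ind k) (Ind k) ℂ), InGroup k c M →
      MvPolynomial.eval (fun o => o.elim c (fun p => M p.1 p.2)) f = 0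

/-- A system of Frobenii with big monodromy. -/
structure IsBig {k : B → Kind} (𝓕 : Set (Frob k)) : Prop where
  weil : ∀ z ∈ 𝓕, IsWeil z
  inGroup : ∀ z ∈ 𝓕, InGroup k (z.1 : ℂ) z.2
  dense : IsDense 𝓕

/-- The blocks are grouped into factors of surface type or of fourfold type. -/
def IsSmall {k : B → Kind} (𝓕 : Set (Frob k)) : Prop :=
  ∃ (m : ℕ) (fac : B → Fin m), ∀ j, IsSurface k fac 𝓕 j ∨ IsFourfold k fac 𝓕 j

section Proof

open Pool.Agent.Helper48.GC8 Pool.Agent.Helper60.GTC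

variable {k : B → Kind} {𝓕 : Set (Frob k)}

lemma isFrob (h : IsBig 𝓕) {z : Frob k} (hz : z ∈ 𝓕) : IsFrob z.1 z.2 := by
  refine ⟨(h.weil z hz).two_le, (h.weil z hz).semisimple,
    fun β hβ => ⟨((h.weil z hz).integral β hβ).1, ?_⟩⟩
  obtain ⟨h1, h2⟩ := (h.weil z hz).integral β hβ
  have hq : 2 ≤ z.1 := (h.weil z hz).two_le
  have h0 : β ≠ 0 := by
    intro h0
    rw [h0, norm_zero] at h2
    have h3 : (0 : ℝ) < Real.sqrt z.1 := Real.sqrt_pos.2 (by
      have : 0 < z.1 := by omega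
      exact_mod_cast this)
    exact absurd h2 h3.ne
  have h3 : (z.1 : ℂ) / β = (starRingEnd ℂ) β := by
    rw [div_eq_iff h0, mul_comm, Complex.mul_conj, Complex.normSq_eq_norm_sq, h2,
      Real.sq_sqrt (Nat.cast_nonneg z.1)]
    simp
  rw [h3]
  exact h1.map (RingHom.toIntAlgHom (starRingEnd ℂ))

/-- Ordinary places exist. -/
lemma units (h : IsBig 𝓕) (hu : HasUnits k 𝓕 ∨
    (IsSmall 𝓕 ∧ IsDisjoint k 𝓕 ∧ IsDense {z | z ∈ 𝓕 ∧ z.1.Prime})) : HasUnits k 𝓕 := by
  rcases hu with hu | ⟨⟨m, fac, hfac⟩, hdis, hd⟩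
  · exact hu
  · refine hasUnits_of_disjoint (fun z hz => ⟨isFrob h hz, h.inGroup z hz⟩) hdis ?_
    exact ordinary_all fac (fun z hz => ⟨isFrob h hz, h.inGroup z hz⟩)
      (fun z hz β hβ => ((h.weil z hz).integral β hβ).2) hfac
      (fun f hf c M hM => hd f (fun z hz => hf z hz.1 hz.2) c M hM)

/-- The Galois coniveau is contained in the Tate coniveau. -/
theorem galois_le (h : IsBig 𝓕) (hun : HasUnits k 𝓕) (n i ν : ℕ)
    (hi : 2 * ν ≤ i) : galoisConiveau 𝓕 n i ν ≤ tateConiveau 𝓕 n i ν := by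
  refine sSup_le fun U hU => ?_
  intro x hx
  have hlink : x ∈ tateSpan (InGroup k) n i ν := by
    refine link hi (hU.le hx) fun c => ?_
    refine le_tt (fun z hz => ⟨isFrob h hz, h.inGroup z hz⟩) hun (i - 2 * ν) ν (Fin i)
      (U.map (psi c)) (by rw [Fintype.card_fin]; omega) ?_ ?_ ⟨x, hx, rfl⟩
    · refine stab_of_dense (fun f hf c M hcM => h.dense f hf c M hcM) ?_
      rintro z hz _ ⟨y, hy, rfl⟩
      rw [← psi_map _ c (hU.le hy)]
      exact ⟨_, hU.stable z hz y hy, rfl⟩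
    · intro z hz
      have hfin : FiniteDimensional ℂ U := Submodule.finiteDimensional_of_le hU.le
      let Φ : Module.End ℂ U :=
        (frobExt n z).toLinearMap.restrict (fun x hx => hU.stable _ hz x hx)
      refine ⟨minpoly ℂ Φ, ?_, ?_⟩
      · intro β hβ
        obtain ⟨v, hv⟩ := (Module.End.hasEigenvalue_of_isRoot hβ).exists_hasEigenvector
        have h1 : Φ v = β • v := hv.apply_eq_smul
        have h2 : frobExt n z v.1 = β • v.1 := congrArg Subtype.val h1
        exact (hU.integral _ hz v.1 v.2 (fun h0 => hv.2 (Subtype.ext h0)) β h2).1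
      · rintro _ ⟨x, hx, rfl⟩
        have h1 := aeval_semiconj ((psi c).comp U.subtype) Φ
          (rho Finset.univ z.2) (fun v => by
          change psi c (frobExt n z v.1) = rho Finset.univ z.2 (psi c v.1)
          exact psi_map _ c (hU.le v.2)) (minpoly ℂ Φ) ⟨x, hx⟩
        have h0 : aeval Φ (minpoly ℂ Φ) = 0 := minpoly.aeval ℂ Φ
        rw [h0, LinearMap.zero_apply, map_zero] at h1
        exact h1.symm
  refine Submodule.span_mono ?_ hlink
  rintro _ ⟨m, φ, h1, h2, y, hy, rfl⟩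
  exact ⟨m, φ, ⟨h1, fun z hz y hy => h2 (z.1 : ℂ) z.2 (h.inGroup z hz) y hy⟩, y, hy, rfl⟩

/-- The Tate coniveau is effective. -/
theorem tate_effective (h : IsBig 𝓕) (n i ν : ℕ) (hi : 2 * ν ≤ i) :
    IsEffective 𝓕 n i ν (tateConiveau 𝓕 n i ν) where
  le := by
    refine Submodule.span_le.2 ?_
    rintro _ ⟨m, φ, hφ, y, hy, rfl⟩
    exact hφ.mem y hy
  stable := by
    intro z hz x hx
    have h1 : tateConiveau 𝓕 n i ν ≤ (tateConiveau 𝓕 n i ν).comap (frobExt n z).toLinearMap := by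
      refine Submodule.span_le.2 ?_
      rintro _ ⟨m, φ, hφ, y, hy, rfl⟩
      change frobExt n z (φ y) ∈ tateConiveau 𝓕 n i ν
      rw [hφ.comm z hz y hy]
      refine Submodule.smul_mem _ _ (Submodule.subset_span ⟨m, φ, hφ, frobExt m z y, ?_, rfl⟩)
      refine ext_induction (p := fun y => frobExt m z y ∈ ⋀[ℂ]^(i - 2 * ν) (Fin m → Ind k → ℂ))
        ?_ ?_ ?_ ?_ hy
      · intro v
        unfold frobExt
        rw [ExteriorAlgebra.map_apply_ιMulti, ← ExteriorAlgebra.ιMulti_span_fixedDegree]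
        exact Submodule.subset_span ⟨_, rfl⟩
      · rw [map_zero]; exact Submodule.zero_mem _
      · intro x y hx hy
        rw [map_add]; exact Submodule.add_mem _ hx hy
      · intro r x hx
        rw [map_smul]; exact Submodule.smul_mem _ _ hx
    exact h1 hx
  integral := by
    intro z hz x hx hx0 β hβ
    obtain ⟨h0, h0', ev, h1, h2, h3⟩ := exists_total (isFrob h hz) (h.inGroup z hz)
    refine tate_integral (h.inGroup z hz).1 h1 h2 h3 hi (Submodule.span_mono ?_ hx) hx0 hβ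
    rintro _ ⟨m, φ, hφ, y, hy, rfl⟩
    exact ⟨m, φ, fun y hy => hφ.comm z hz y hy, y, hy, rfl⟩

end Proof

/-- **The Galois coniveau filtration for all powers of products of abelian varieties with big
monodromy.** Let `𝓕` be a system of Frobenii with big monodromy, with blocks of the types `k b`.
Assume that it has ordinary places (`HasUnits`); this is automatic if the blocks are grouped into
factors of surface or fourfold type, the torus eigenvalues are disjoint (`IsDisjoint`) and the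
Frobenii over primes are dense. Then for all `n`, `i`, `ν` the Galois coniveau `N^ν` of `Λⁱ(Vⁿ)` is
the span of the images of `Λ^(i-2ν)(Vᵐ)`, `m ≥ 0`, under the maps given by Tate classes on
`Aᵐ × Aⁿ`. -/
theorem result (k : B → Kind) (𝓕 : Set (Frob k)) (h : IsBig 𝓕) (hu : HasUnits k 𝓕 ∨
      (IsSmall 𝓕 ∧ IsDisjoint k 𝓕 ∧ IsDense {z | z ∈ 𝓕 ∧ z.1.Prime}))
    (n i ν : ℕ) (hi : 2 * ν ≤ i) : galoisConiveau 𝓕 n i ν = tateConiveau 𝓕 n i ν :=
  le_antisymm (galois_le h (units h hu) n i ν hi) (le_sSup (tate_effective h n i ν hi))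

end Pool.Agent.Helper48.PW.Main
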